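import Pool.Agent.Arb2.Auto1

/-!
# Automorphisms without fixed points on a high level
-/

set_option autoImplicit false

open Polynomial NumberField IsDedekindDomain Module
open scoped WithZero

namespace Pool.Agent.Arb2

open Pool.Agent.TameArb
open Pool.Agent.Arb (exists_bound)

/-- the degrees of the irreducible factors grow as fast as possible -/
def Grow {K : Type} [Field K] (φ : K[X]) (γ : K) (A : ℕ) : Prop :=
  ∀ n, ∀ p : K[X], Irreducible p → p ∣ itp φ n - C γ → φ.natDegree ^ n ≤ A * p.natDegree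

theorem Grow.ext {K E L : Type} [Field K] [Field E] [Field L] [Algebra K E] [Algebra K L]
    [Algebra E L] [IsScalarTower K E L] [FiniteDimensional K E] {φ : K[X]}
    (hd : 2 ≤ φ.natDegree) {γ : K} {A : ℕ}
    (h : Grow φ γ A) {n : ℕ} {x : L} (hx : (ph φ)^[n] x = algebraMap K L γ) :
    φ.natDegree ^ n ≤ (A * finrank K E) * (minpoly E x).natDegree := by
  have hP0 : itp φ n - C γ ≠ 0 := by
    have h1 := itp_sub_ne_zero (L := K) hd n γ
    rwa [Algebra.algebraMap_self, Polynomial.map_id] at h1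
  have hPx : aeval x (itp φ n - C γ) = 0 := by
    rw [map_sub, itp_aeval, aeval_C, hx, sub_self]
  have hint : IsIntegral K x := IsAlgebraic.isIntegral ⟨_, hP0, hPx⟩
  have h1 := h n (minpoly K x) (minpoly.irreducible hint) (minpoly.dvd K x hPx)
  have h2 := natDegree_minpoly_le (B := E) hint
  calc φ.natDegree ^ n ≤ A * (minpoly K x).natDegree := h1
    _ ≤ A * (finrank K E * (minpoly E x).natDegree) := Nat.mul_le_mul_left _ h2
    _ = _ := by ring

theorem exists_D {K : Type} [Field K] [CharZero K] {φ : K[X]} (hd : 2 ≤ φ.natDegree) {c : K}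
    (hc2 : (hasseDeriv 2 φ).eval c ≠ 0)
    (hinj : Function.Injective fun n : ℕ => (ph φ)^[n] c)
    (hdist : ∀ a : K, (derivative φ).eval a = 0 → a ≠ c → ∀ i j : ℕ, 1 ≤ i → i ≤ j →
      (ph φ)^[i] a ≠ (ph φ)^[j] c) (B : ℕ) (Γ : Finset K) :
    ∃ D : Finset K, DD φ c B D ∧ ∀ γ ∈ Γ, γ ≠ 0 → γ ∈ D := by
  classical
  have hd0 : derivative φ ≠ 0 := by
    intro h
    have h1 := natDegree_derivative φ
    rw [h, natDegree_zero] at h1
    omega
  set S : Finset K := (Finset.range (φ.natDegree + 1)).image φ.coeff ∪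
    ({(φ.natDegree : K), (hasseDeriv 2 φ).eval c} ∪ ((derivative φ).roots.toFinset ∪
    (((derivative φ).roots.toFinset ×ˢ (Finset.Icc 1 B ×ˢ Finset.Icc 1 B)).image
      (fun p => (ph φ)^[p.2.1] p.1 - (ph φ)^[p.2.2] c) ∪ Γ))) with hS
  refine ⟨S.filter (fun a => a ≠ 0), ⟨?_, ?_, ?_, ?_, ?_, ?_⟩, ?_⟩
  · intro a ha
    exact (Finset.mem_filter.mp ha).2
  · intro i hi
    refine Finset.mem_filter.mpr ⟨?_, hi⟩
    apply Finset.mem_union_left
    refine Finset.mem_image_of_mem _ (Finset.mem_range.mpr ?_)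
    by_contra hcon
    exact hi (coeff_eq_zero_of_natDegree_lt (by omega))
  · refine Finset.mem_filter.mpr ⟨?_, ?_⟩
    · apply Finset.mem_union_right
      apply Finset.mem_union_left
      simp
    · exact Nat.cast_ne_zero.mpr (by omega)
  · intro a ha ha0
    refine Finset.mem_filter.mpr ⟨?_, ha0⟩
    apply Finset.mem_union_right
    apply Finset.mem_union_right
    apply Finset.mem_union_left
    rw [Multiset.mem_toFinset, mem_roots hd0]
    exact ha
  · refine Finset.mem_filter.mpr ⟨?_, hc2⟩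
    apply Finset.mem_union_right
    apply Finset.mem_union_left
    simp
  · intro a ha i j hi hiJ hjB hij
    refine Finset.mem_filter.mpr ⟨?_, ?_⟩
    · apply Finset.mem_union_right
      apply Finset.mem_union_right
      apply Finset.mem_union_right
      apply Finset.mem_union_left
      refine Finset.mem_image.mpr ⟨(a, (i, j)), ?_, rfl⟩
      rw [Finset.mem_product, Finset.mem_product, Multiset.mem_toFinset, mem_roots hd0,
        Finset.mem_Icc, Finset.mem_Icc]
      exact ⟨ha, ⟨hi, le_trans hiJ hjB⟩, ⟨le_trans hi hiJ, hjB⟩⟩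
    · rw [sub_ne_zero]
      by_cases hac : a = c
      · subst hac
        intro h
        exact hij rfl (hinj h)
      · exact hdist a ha hac i j hi hiJ
  · intro γ hγ hγ0
    refine Finset.mem_filter.mpr ⟨?_, hγ0⟩
    apply Finset.mem_union_right
    apply Finset.mem_union_right
    apply Finset.mem_union_right
    apply Finset.mem_union_right
    exact hγ

/-- **An automorphism without fixed points.** -/
theorem auto {K : Type} [Field K] [NumberField K] {φ : K[X]} (hd : 2 ≤ φ.natDegree)
    (hs : (derivative φ).Splits) {c : K} (hc : (derivative φ).eval c = 0)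
    (hc2 : (hasseDeriv 2 φ).eval c ≠ 0)
    (hinj : Function.Injective fun n : ℕ => (ph φ)^[n] c)
    (hdist : ∀ a : K, (derivative φ).eval a = 0 → a ≠ c → ∀ i j : ℕ, 1 ≤ i → i ≤ j →
      (ph φ)^[i] a ≠ (ph φ)^[j] c) (Γ : Finset K)
    (hΓ : ∀ γ ∈ Γ, ∀ n, 0 < n → (ph φ)^[n] γ ≠ γ) (hgrow : ∀ γ ∈ Γ, ∃ A, Grow φ γ A)
    (E : Type) [Field E] [NumberField E] [Algebra K E] [IsGalois K E] (g1 : E ≃ₐ[K] E) :
    ∃ (n : ℕ) (L : Type) (_ : Field L) (_ : NumberField L) (_ : Algebra K L) (_ : Algebra E L)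
      (_ : IsScalarTower K E L) (_ : IsGalois K L) (g : L ≃ₐ[K] L),
      (∀ x : E, g (algebraMap E L x) = algebraMap E L (g1 x)) ∧
      (∀ γ ∈ Γ, ((itp φ n).map (algebraMap K L) - C (algebraMap K L γ)).Splits) ∧
      ∀ γ ∈ Γ, ∀ y : L, (ph φ)^[n] y = algebraMap K L γ → g y ≠ y := by
  classical
  have hφ0 : φ ≠ 0 := by rintro rfl; simp at hd
  have hfdE : FiniteDimensional K E := inferInstance
  -- a common constant
  obtain ⟨A, hA⟩ := exists_bound Γ (P := fun γ A => Grow φ γ A)
    (fun γ m n hmn h k p hp hpd => (h k p hp hpd).trans (Nat.mul_le_mul_right _ hmn)) hgrow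
  set A' := A * finrank K E with hA'
  -- stability over `E`
  obtain ⟨n1, hn1⟩ := exists_bound Γ
    (P := fun γ n1 => (∀ n ≥ n1, (∀ h, ∀ y y' : AlgebraicClosure E,
      (ph φ)^[n + h] y = algebraMap K (AlgebraicClosure E) γ →
      (ph φ)^[n + h] y' = algebraMap K (AlgebraicClosure E) γ →
      minpoly E ((ph φ)^[h] y) = minpoly E ((ph φ)^[h] y') → minpoly E y = minpoly E y')) ∧
      (∀ n ≥ n1, ∀ (F : Type) [Field F] [Algebra K F] (w : F),
        (ph φ)^[n] w = algebraMap K F γ → (φ.map (algebraMap K F) - C w).Separable))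
    (fun γ m n hmn h => ⟨fun k hk => h.1 k (hmn.trans hk), fun k hk => h.2 k (hmn.trans hk)⟩)
    (fun γ hγ => by
      obtain ⟨m1, h1⟩ := stab (E := E) (Ω := AlgebraicClosure E) hd γ A'
        (fun n x hx => (hA γ hγ).ext hd hx)
      obtain ⟨m2, h2⟩ := exists_noncrit hd (hΓ γ hγ)
      exact ⟨max m1 m2, fun k hk => h1 k ((le_max_left _ _).trans hk),
        fun k hk => h2 k ((le_max_right _ _).trans hk)⟩)
  have hdeg := fun γ (hγ : γ ∈ Γ) => stab_degree (E := E) (Ω := AlgebraicClosure E) hd γ
    (hn1 γ hγ).1 (fun n hn w hw => (hn1 γ hγ).2 n hn (AlgebraicClosure E) w hw)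
  -- the height of the trees
  set ε : ℝ := 1 / (2 * (Γ.card * A' + 1)) with hε
  have hε0 : 0 < ε := by positivity
  obtain ⟨B, hB⟩ := kill φ.natDegree ε hε0
  obtain ⟨D, hD, hDΓ⟩ := exists_D hd hc2 hinj hdist B Γ
  -- the field with the first levels
  obtain ⟨F, _, _, _, _, _, _, hFs⟩ := exists_big K E (∏ γ ∈ Γ, (itp φ n1 - C γ))
  set X : Finset F := Γ.biUnion (fun γ => fib φ hd n1 (algebraMap K F γ)) with hX
  have hXmem : ∀ x ∈ X, ∃ γ ∈ Γ, (ph φ)^[n1] x = algebraMap K F γ := by
    intro x hx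
    obtain ⟨γ, hγ, hxγ⟩ := Finset.mem_biUnion.mp hx
    exact ⟨γ, hγ, (mem_fib hd).mp hxγ⟩
  obtain ⟨N0, hN0⟩ : ∃ N0 : ℕ, ∀ n ≥ N0, ∀ x ∈ X, algebraMap K F ((ph φ)^[n] c) ≠ x := by
    have hfin : {n : ℕ | algebraMap K F ((ph φ)^[n] c) ∈ X}.Finite := by
      have h3 : {n : ℕ | algebraMap K F ((ph φ)^[n] c) ∈ X} =
          (fun n => algebraMap K F ((ph φ)^[n] c)) ⁻¹' (X : Set F) := rfl
      rw [h3]
      exact Set.Finite.preimage (fun a _ b _ hab => hinj ((algebraMap K F).injective hab))
        (Finset.finite_toSet _)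
    obtain ⟨N, hN⟩ := hfin.bddAbove
    refine ⟨N + 1, fun n hn x hx h => ?_⟩
    have h4 : n ≤ N := hN (by
      show algebraMap K F ((ph φ)^[n] c) ∈ X
      rw [h]; exact hx)
    omega
  obtain ⟨N, hNN, hwin⟩ := window φ hd c hinj D hD.ne X
    (by
      intro x hx n hn h
      obtain ⟨γ, hγ, hxγ⟩ := hXmem x hx
      apply hΓ γ hγ n hn
      apply (algebraMap K F).injective
      rw [iter_algebraMap, ← hxγ, ← Function.iterate_add_apply, add_comm,
        Function.iterate_add_apply, h])
    (by
      intro x hx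
      obtain ⟨γ, hγ, hxγ⟩ := hXmem x hx
      exact (hn1 γ hγ).2 n1 le_rfl F x hxγ) B N0
  -- the large field
  set m := n1 + N + B with hm
  obtain ⟨L, _, _, _, _, _, _, hLs⟩ := exists_big K F
    (∏ k ∈ Finset.range (m + 1), ∏ γ ∈ Γ, (itp φ k - C γ))
  let aEL : Algebra E L := ((algebraMap F L).comp (algebraMap E F)).toAlgebra
  have tEFL : IsScalarTower E F L := IsScalarTower.of_algebraMap_eq (fun x => rfl)
  have tKEL : IsScalarTower K E L := IsScalarTower.of_algebraMap_eq (fun x => by
    rw [IsScalarTower.algebraMap_apply E F L, ← IsScalarTower.algebraMap_apply K E F,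
      ← IsScalarTower.algebraMap_apply K F L])
  have hgEL : IsGalois E L := IsGalois.tower_top_of_isGalois K E L
  have hnEL : Normal E L := inferInstance
  -- each factor splits
  have hprod : ∀ (M : Type) [Field M] [Algebra K M] (k : ℕ),
      ((∏ γ ∈ Γ, (itp φ k - C γ)).map (algebraMap K M)).Splits → ∀ γ ∈ Γ,
      ((itp φ k).map (algebraMap K M) - C (algebraMap K M γ)).Splits := by
    intro M _ _ k hk γ hγ
    have h0 : (∏ γ ∈ Γ, (itp φ k - C γ)).map (algebraMap K M) ≠ 0 := by
      rw [Polynomial.map_prod]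
      apply Finset.prod_ne_zero_iff.mpr
      intro δ _
      rw [Polynomial.map_sub, map_C]
      exact itp_sub_ne_zero hd k _
    have h1 : (itp φ k - C γ).map (algebraMap K M) ∣
        (∏ γ ∈ Γ, (itp φ k - C γ)).map (algebraMap K M) :=
      Polynomial.map_dvd _ (Finset.dvd_prod_of_mem _ hγ)
    have h2 := hk.of_dvd h0 h1
    rwa [Polynomial.map_sub, map_C] at h2
  have hFsp := hprod F n1 hFs
  have hLsp : ∀ k ≤ m, ∀ γ ∈ Γ,
      ((itp φ k).map (algebraMap K L) - C (algebraMap K L γ)).Splits := by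
    intro k hk γ hγ
    apply hprod L k _ γ hγ
    have h0 : (∏ k ∈ Finset.range (m + 1), ∏ γ ∈ Γ, (itp φ k - C γ)).map (algebraMap K L) ≠ 0 := by
      rw [Polynomial.map_prod]
      apply Finset.prod_ne_zero_iff.mpr
      intro j _
      rw [Polynomial.map_prod]
      apply Finset.prod_ne_zero_iff.mpr
      intro δ _
      rw [Polynomial.map_sub, map_C]
      exact itp_sub_ne_zero hd j _
    exact hLs.of_dvd h0 (Polynomial.map_dvd _ (Finset.dvd_prod_of_mem
      (fun k => ∏ γ ∈ Γ, (itp φ k - C γ)) (Finset.mem_range.mpr (by omega))))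
  set g0 : L ≃ₐ[K] L := AlgEquiv.liftNormal g1 L with hg0
  have hg0c : ∀ x : E, g0 (algebraMap E L x) = algebraMap E L (g1 x) :=
    fun x => AlgEquiv.liftNormal_commutes g1 L x
  set H := HE K E L with hH
  -- an embedding into the algebraic closure
  let ι : L →ₐ[E] AlgebraicClosure E := IsAlgClosed.lift
  have hιK : ∀ (n : ℕ) (x : L), ι ((ph φ)^[n] x) = (ph φ)^[n] (ι x) := by
    intro n x
    exact iter_hom φ (ι.restrictScalars K) n x
  have hιa : ∀ a : K, ι (algebraMap K L a) = algebraMap K (AlgebraicClosure E) a := by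
    intro a
    exact (ι.restrictScalars K).commutes a
  have hιm : ∀ x : L, minpoly E (ι x) = minpoly E x := fun x =>
    minpoly.algHom_eq ι ι.injective x
  -- the data of the points `w`
  have hw : ∀ γ ∈ Γ, ∀ w ∈ fib φ hd (n1 + N) (algebraMap K L γ), ∀ s : L ≃ₐ[K] L, s • w = w →
      (((HH (H ⊓ MulAction.stabilizer (L ≃ₐ[K] L) w)).filter
        (fun g => FixU s (fib φ hd B w) g)).card : ℝ) ≤
        ε * (HH (H ⊓ MulAction.stabilizer (L ≃ₐ[K] L) w)).card := by
    intro γ hγ w hwm s hsfix
    rw [mem_fib] at hwm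
    -- the point `x`
    have hxspl := hFsp γ hγ
    have hxL : (ph φ)^[n1] ((ph φ)^[N] w) = algebraMap K L γ := by
      rw [← Function.iterate_add_apply]; exact hwm
    obtain ⟨x0, hx0⟩ : ∃ x0 : F, algebraMap F L x0 = (ph φ)^[N] w := by
      have h0 : (itp φ n1).map (algebraMap K F) - C (algebraMap K F γ) ≠ 0 :=
        itp_sub_ne_zero hd _ _
      have h1 : (((itp φ n1).map (algebraMap K F) - C (algebraMap K F γ)).map
          (algebraMap F L)).IsRoot ((ph φ)^[N] w) := by
        rw [IsRoot.def, Polynomial.map_sub, map_C, map_map, ← IsScalarTower.algebraMap_eq,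
          eval_sub, eval_C, eval_map_algebraMap, itp_aeval, hxL,
          ← IsScalarTower.algebraMap_apply, sub_self]
      obtain ⟨x0, hx0⟩ := hxspl.mem_range_of_isRoot h0 h1
      exact ⟨x0, hx0⟩
    have hx0γ : (ph φ)^[n1] x0 = algebraMap K F γ := by
      apply (algebraMap F L).injective
      have h1 : algebraMap F L ((ph φ)^[n1] x0) = (ph φ)^[n1] (algebraMap F L x0) :=
        iter_hom φ (IsScalarTower.toAlgHom K F L) n1 x0
      rw [h1, hx0, hxL, ← IsScalarTower.algebraMap_apply]
    have hx0X : x0 ∈ X := Finset.mem_biUnion.mpr ⟨γ, hγ, (mem_fib hd).mpr hx0γ⟩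
    -- the small field
    have hintx : IsIntegral E x0 := Algebra.IsIntegral.isIntegral x0
    let F0 : IntermediateField E F := IntermediateField.adjoin E {x0}
    have hfd0 : FiniteDimensional E F0 := IntermediateField.adjoin.finiteDimensional hintx
    have hnf0 : NumberField F0 := NumberField.of_module_finite E F0
    have tKF0F : IsScalarTower K F0 F := IsScalarTower.of_algebraMap_eq (fun x => rfl)
    have tKEF0 : IsScalarTower K E F0 := IsScalarTower.of_algebraMap_eq (fun x => by
      apply (algebraMap F0 F).injective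
      rw [← IsScalarTower.algebraMap_apply K F0 F, ← IsScalarTower.algebraMap_apply E F0 F,
        ← IsScalarTower.algebraMap_apply K E F])
    have tF0FL : IsScalarTower F0 F L := inferInstance
    have tKF0L : IsScalarTower K F0 L := IsScalarTower.of_algebraMap_eq (fun x => by
      rw [IsScalarTower.algebraMap_apply F0 F L, ← IsScalarTower.algebraMap_apply K F0 F,
        ← IsScalarTower.algebraMap_apply K F L])
    have tEF0L : IsScalarTower E F0 L := IsScalarTower.of_algebraMap_eq (fun x => by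
      rw [IsScalarTower.algebraMap_apply F0 F L, ← IsScalarTower.algebraMap_apply E F0 F,
        ← IsScalarTower.algebraMap_apply E F L])
    have hxm : x0 ∈ F0 := IntermediateField.subset_adjoin E _ (Set.mem_singleton x0)
    set xx : F0 := ⟨x0, hxm⟩ with hxx
    have hxxF : algebraMap F0 F xx = x0 := rfl
    have hxxL : algebraMap F0 L xx = (ph φ)^[N] w := by
      rw [IsScalarTower.algebraMap_apply F0 F L, hxxF, hx0]
    -- the degree of `w`
    have hwdeg : (minpoly F0 w).natDegree = φ.natDegree ^ N := by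
      have hintw : IsIntegral F0 w := Algebra.IsIntegral.isIntegral w
      apply le_antisymm
      · have h1 : minpoly F0 w ∣ (itp φ N).map (algebraMap K F0) - C xx := by
          apply minpoly.dvd
          rw [map_sub, aeval_C, aeval_map_algebraMap, itp_aeval, hxxL, sub_self]
        have h2 := natDegree_le_of_dvd h1 (itp_sub_ne_zero hd _ _)
        rwa [natDegree_sub_C, natDegree_map, itp_natDegree] at h2
      · have h1 := natDegree_minpoly_le (A := E) (B := F0) (x := w)
          (Algebra.IsIntegral.isIntegral w)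
        have h2 : finrank E F0 = (minpoly E x0).natDegree :=
          IntermediateField.adjoin.finrank hintx
        have h3 : minpoly E x0 = minpoly E ((ph φ)^[N] w) := by
          rw [← hx0]
          exact (minpoly.algebraMap_eq (algebraMap F L).injective x0).symm
        have h4 := hdeg γ hγ n1 le_rfl N (ι w) (by rw [← hιK, hwm, hιa])
        rw [hιm, ← hιK, hιm, ← h3, ← h2] at h4
        rw [h4, mul_comm] at h1
        exact Nat.le_of_mul_le_mul_left h1 finrank_pos
    have hsplw : ∀ h ≤ B, ((itp φ h).map (algebraMap K L) - C w).Splits := fun h hh =>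
      split_level hd (hLsp (n1 + N + h) (by omega) γ hγ) hwm
    -- the levels
    have hlev : ∀ h, ∃ (σ : L → L) (ν : L → L ≃ₐ[K] L), h < B →
        Lvl (H ⊓ MulAction.stabilizer (L ≃ₐ[K] L) w) s
          (ph φ) φ.natDegree (fib φ hd (h + 1) w) (fib φ hd h w) σ ν := by
      intro h
      by_cases hh : h < B
      · have hspl1 := hsplw (h + 1) (by omega)
        have hsw := odd_point (E := E) (F := F0) (L := L) hD hd hs hc (h := h + 1) (by omega)
          (by omega) (hDΓ γ hγ) (n1 := n1) (N := N) (w := w) xx hxxL hwm hspl1 hwdeg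
          (by
            intro h2
            apply hN0 (N + (h + 1)) (by omega) x0 hx0X
            have h3 := congrArg (algebraMap F0 F) h2
            rwa [← IsScalarTower.algebraMap_apply] at h3)
          (by
            intro hev
            apply hwin x0 hx0X (h + 1) (Finset.mem_Icc.mpr ⟨by omega, by omega⟩)
            have h3 := hev.extend (M := F)
            rw [map_sub, ← IsScalarTower.algebraMap_apply, hxxF] at h3
            exact h3)
        obtain ⟨σ, ν, hL⟩ := exists_lvl (K := K) (E := E) hd w h (by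
          intro y y' hy hy'
          have h2 := (hn1 γ hγ).1 (n1 + N) (by omega) (h + 1) (ι y) (ι y')
            (by rw [← hιK, Function.iterate_add_apply, hy, hwm, hιa])
            (by rw [← hιK, Function.iterate_add_apply, hy', hwm, hιa])
            (by rw [← hιK, ← hιK, hy, hy'])
          rwa [hιm, hιm] at h2) hsw s hsfix
        exact ⟨σ, ν, fun _ => hL⟩
      · exact ⟨fun x => x, fun _ => 1, fun h2 => absurd h2 hh⟩
    choose σ ν hσν using hlev
    have hk := hB (L ≃ₐ[K] L) L (H ⊓ MulAction.stabilizer (L ≃ₐ[K] L) w) s (ph φ)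
      (fun h => fib φ hd h w) σ ν (by
        intro h hh
        refine ⟨?_, hσν h hh⟩
        have hne : ((itp φ (h + 1)).map (algebraMap K L) - C w).degree ≠ 0 := by
          intro h0
          have h2 : ((itp φ (h + 1)).map (algebraMap K L) - C w).natDegree =
              φ.natDegree ^ (h + 1) := by
            rw [natDegree_sub_C, natDegree_map, itp_natDegree]
          have h3 := natDegree_eq_zero_iff_degree_le_zero.mpr h0.le
          have h4 : 0 < φ.natDegree ^ (h + 1) := pow_pos (by omega) _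
          omega
        obtain ⟨y, hy⟩ := (hsplw (h + 1) (by omega)).exists_eval_eq_zero hne
        refine ⟨y, ?_⟩
        rw [mem_fib]
        rw [eval_sub, eval_C, eval_map_algebraMap, itp_aeval, sub_eq_zero] at hy
        exact hy)
    exact hk
  -- counting
  have hbad : ∀ γ ∈ Γ, (((HH H).filter (fun g => ∃ w ∈ fib φ hd (n1 + N) (algebraMap K L γ),
      FixU g0 (fib φ hd B w) g)).card : ℝ) ≤ ε * A' * (HH H).card := by
    intro γ hγ
    apply count_bound H g0 (fib φ hd (n1 + N) (algebraMap K L γ)) (φ.natDegree ^ (n1 + N)) A'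
      (pow_pos (by omega) _) (card_fib hd) (fun w => fib φ hd B w) ε hε0.le
    · intro w hwm
      have h1 := card_HE (K := K) (E := E) w
      have h2 := (hA γ hγ).ext (E := E) hd ((mem_fib hd).mp hwm)
      calc φ.natDegree ^ (n1 + N) * (HH (H ⊓ MulAction.stabilizer (L ≃ₐ[K] L) w)).card ≤
            A' * (minpoly E w).natDegree *
              (HH (H ⊓ MulAction.stabilizer (L ≃ₐ[K] L) w)).card := Nat.mul_le_mul_right _ h2
        _ = A' * (HH H).card := by rw [mul_assoc, h1]
    · intro w _ y hy g hg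
      rw [mem_fib] at hy
      change g w = w
      rw [← hy]
      have h1 : g ((ph φ)^[B] y) = (ph φ)^[B] (g y) := iter_hom φ (g : L →ₐ[K] L) B y
      have h2 : g y = y := hg
      rw [h1, h2]
    · intro w hwm s hsw
      exact hw γ hγ w hwm s hsw
  have hHpos : (0 : ℝ) < (HH H).card := by
    have : (1 : L ≃ₐ[K] L) ∈ HH H := mem_HH.mpr H.one_mem
    exact_mod_cast Finset.card_pos.mpr ⟨1, this⟩
  obtain ⟨h, hhH, hh⟩ : ∃ h ∈ HH H, ∀ γ ∈ Γ, ¬ ∃ w ∈ fib φ hd (n1 + N) (algebraMap K L γ),
      FixU g0 (fib φ hd B w) h := by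
    by_contra hcon
    push Not at hcon
    have h1 : HH H ⊆ Γ.biUnion (fun γ => (HH H).filter
        (fun g => ∃ w ∈ fib φ hd (n1 + N) (algebraMap K L γ), FixU g0 (fib φ hd B w) g)) := by
      intro g hg
      obtain ⟨γ, hγ, w, hwm, hfix⟩ := hcon g hg
      exact Finset.mem_biUnion.mpr ⟨γ, hγ, Finset.mem_filter.mpr ⟨hg, w, hwm, hfix⟩⟩
    have h2 : ((HH H).card : ℝ) ≤ ∑ γ ∈ Γ, (((HH H).filter (fun g =>
        ∃ w ∈ fib φ hd (n1 + N) (algebraMap K L γ), FixU g0 (fib φ hd B w) g)).card : ℝ) := by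
      rw [← Nat.cast_sum]
      exact_mod_cast (Finset.card_le_card h1).trans Finset.card_biUnion_le
    have h3 := h2.trans (Finset.sum_le_sum hbad)
    rw [Finset.sum_const, nsmul_eq_mul] at h3
    have h4 : (Γ.card : ℝ) * (ε * A' * (HH H).card) =
        (Γ.card * A' * ε) * (HH H).card := by ring
    rw [h4] at h3
    have h5 : (Γ.card : ℝ) * A' * ε < 1 := by
      rw [hε, mul_one_div, div_lt_one (by positivity)]
      have : (0 : ℝ) ≤ Γ.card * A' := by positivity
      linarith
    have h6 : (Γ.card * A' * ε : ℝ) * (HH H).card < 1 * (HH H).card :=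
      mul_lt_mul_of_pos_right h5 hHpos
    linarith
  refine ⟨m, L, inferInstance, inferInstance, inferInstance, aEL, tKEL, inferInstance, g0 * h,
    ?_, ?_, ?_⟩
  · intro x
    rw [AlgEquiv.mul_apply, mem_HH.mp hhH x, hg0c]
  · intro γ hγ
    exact hLsp m le_rfl γ hγ
  · intro γ hγ y hy hfix
    apply hh γ hγ
    refine ⟨(ph φ)^[B] y, ?_, y, ?_, hfix⟩
    · rw [mem_fib, ← Function.iterate_add_apply]
      exact hy
    · rw [mem_fib]

end Pool.Agent.Arb2
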