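import Pool.Agent.Arb2.Count

/-!
# Large fields, divisibility of iterates, and points with odd valuations
-/

set_option autoImplicit false

open Polynomial NumberField IsDedekindDomain Module
open scoped WithZero

namespace Pool.Agent.Arb2

open Pool.Agent.TameArb

theorem exists_big (K E : Type) [Field K] [NumberField K] [Field E] [NumberField E] [Algebra K E]
    (f : K[X]) : ∃ (L : Type) (_ : Field L) (_ : NumberField L) (_ : Algebra K L)
      (_ : Algebra E L) (_ : IsScalarTower K E L) (_ : IsGalois K L),
      (f.map (algebraMap K L)).Splits := by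
  let L1 := (f.map (algebraMap K E)).SplittingField
  have hfd1 : FiniteDimensional E L1 := inferInstance
  have hfd2 : FiniteDimensional K L1 := FiniteDimensional.trans K E L1
  let Ω := AlgebraicClosure L1
  let L := IntermediateField.normalClosure K L1 Ω
  have halg : Algebra.IsAlgebraic K L1 := inferInstance
  have hnor : Normal K L := inferInstance
  have hfd : FiniteDimensional K L := inferInstance
  have hnf : NumberField L := NumberField.of_module_finite K L
  have hgal : IsGalois K L := ⟨⟩
  let a1 : Algebra L1 L := inferInstance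
  have ht1 : IsScalarTower K L1 L := inferInstance
  let a2 : Algebra E L := ((algebraMap L1 L).comp (algebraMap E L1)).toAlgebra
  have ht2 : IsScalarTower K E L := by
    apply IsScalarTower.of_algebraMap_eq
    intro x
    change algebraMap K L x = algebraMap L1 L (algebraMap E L1 (algebraMap K E x))
    rw [← IsScalarTower.algebraMap_apply K E L1, ← IsScalarTower.algebraMap_apply K L1 L]
  refine ⟨L, inferInstance, hnf, inferInstance, a2, ht2, hgal, ?_⟩
  have h1 : ((f.map (algebraMap K E)).map (algebraMap E L1)).Splits :=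
    SplittingField.splits (f.map (algebraMap K E))
  have h2 := h1.map (algebraMap L1 L)
  rw [map_map, map_map] at h2
  have h3 : ((algebraMap L1 L).comp (algebraMap E L1)).comp (algebraMap K E) = algebraMap K L := by
    ext x
    exact congrArg _ (IsScalarTower.algebraMap_apply K E L x).symm
  convert h2 using 2
  exact h3.symm

section

variable {K : Type} [Field K] {L : Type} [Field L] [Algebra K L]

theorem itp_add (φ : K[X]) (m h : ℕ) : itp φ (m + h) = (itp φ m).comp (itp φ h) := by
  induction m with
  | zero => simp [itp]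
  | succ m ih =>
    rw [show m + 1 + h = (m + h) + 1 by omega, itp_succ, itp_succ, ih, comp_assoc]

theorem itp_sub_ne_zero {φ : K[X]} (hd : 2 ≤ φ.natDegree) (n : ℕ) (γ : L) :
    (itp φ n).map (algebraMap K L) - C γ ≠ 0 := by
  intro h0
  have h2 : ((itp φ n).map (algebraMap K L) - C γ).natDegree = φ.natDegree ^ n := by
    rw [natDegree_sub_C, natDegree_map, itp_natDegree]
  rw [h0, natDegree_zero] at h2
  have : 0 < φ.natDegree ^ n := pow_pos (by omega) _
  omega

/-- splitting of the polynomial of a smaller tree -/
theorem split_level {φ : K[X]} (hd : 2 ≤ φ.natDegree) {m h : ℕ} {γ w : L}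
    (hs : ((itp φ (m + h)).map (algebraMap K L) - C γ).Splits) (hw : (ph φ)^[m] w = γ) :
    ((itp φ h).map (algebraMap K L) - C w).Splits := by
  refine hs.of_dvd (itp_sub_ne_zero hd _ _) ?_
  rw [itp_add, Polynomial.map_comp]
  set P := (itp φ m).map (algebraMap K L) with hP
  set Q := (itp φ h).map (algebraMap K L) with hQ
  have h1 : P.eval w = γ := by
    rw [hP, eval_map_algebraMap, itp_aeval, hw]
  have h2 : (X - C w) ∣ P - C γ := by
    rw [dvd_iff_isRoot, IsRoot.def, eval_sub, eval_C, h1, sub_self]
  obtain ⟨S, hS⟩ := h2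
  refine ⟨S.comp Q, ?_⟩
  have h3 := congrArg (fun T : L[X] => T.comp Q) hS
  simp only [sub_comp, mul_comp, X_comp, C_comp] at h3
  exact h3

end

/-- a transposition from a value with an odd valuation -/
theorem odd_point {K E F L : Type} [Field K] [CharZero K] [Field E] [Field F] [NumberField F]
    [Field L] [NumberField L] [Algebra K E] [Algebra K F] [Algebra K L] [Algebra E F]
    [Algebra E L] [Algebra F L] [IsScalarTower K E F] [IsScalarTower K E L]
    [IsScalarTower K F L] [IsScalarTower E F L] [IsGalois K L]
    {φ : K[X]} {c : K} {B : ℕ} {D : Finset K}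
    (hD : DD φ c B D) (hd : 2 ≤ φ.natDegree) (hs : (derivative φ).Splits)
    (hc : (derivative φ).eval c = 0) {h : ℕ} (h1 : 1 ≤ h) (hB : h ≤ B) {γ : K}
    (hγD : γ ≠ 0 → γ ∈ D) {n1 N : ℕ} {w : L} (x0 : F) (hx0 : algebraMap F L x0 = (ph φ)^[N] w)
    (hw : (ph φ)^[n1 + N] w = algebraMap K L γ)
    (hsplit : ((itp φ h).map (algebraMap K L) - C w).Splits)
    (hdeg : (minpoly F w).natDegree = φ.natDegree ^ N)
    (hne : algebraMap K F ((ph φ)^[N + h] c) ≠ x0)
    (hodd : ¬ EvenOff D (algebraMap K F ((ph φ)^[N + h] c) - x0)) :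
    ∃ t ∈ HE K E L, t w = w ∧ ∃ y1 y2 : L, (ph φ)^[h] y1 = w ∧
      (ph φ)^[h] y2 = w ∧ y1 ≠ y2 ∧ ph φ y1 = ph φ y2 ∧ t y1 = y2 ∧ t y2 = y1 ∧
      ∀ z, (ph φ)^[h] z = w → z ≠ y1 → z ≠ y2 → t z = z := by
  classical
  have hfdL : FiniteDimensional F L := inferInstance
  have hint : IsIntegral F w := Algebra.IsIntegral.isIntegral w
  let M : IntermediateField F L := IntermediateField.adjoin F {w}
  have hfdM : FiniteDimensional F M := IntermediateField.adjoin.finiteDimensional hint
  have hnfM : NumberField M := NumberField.of_module_finite F M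
  have htow : IsScalarTower K M L := IsScalarTower.of_algebraMap_eq (fun x => rfl)
  have htow2 : IsScalarTower K F M := IsScalarTower.of_algebraMap_eq (fun x => by
    apply (algebraMap M L).injective
    rw [← IsScalarTower.algebraMap_apply K M L, ← IsScalarTower.algebraMap_apply F M L,
      ← IsScalarTower.algebraMap_apply K F L])
  have hgalM : IsGalois M L := IsGalois.tower_top_of_isGalois K M L
  have hwM : w ∈ M := IntermediateField.subset_adjoin F _ (Set.mem_singleton w)
  set wM : M := ⟨w, hwM⟩ with hwMdef
  have hwMw : algebraMap M L wM = w := rfl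
  have hitL : ∀ (n : ℕ) (y : M), algebraMap M L ((ph φ)^[n] y) = (ph φ)^[n] (algebraMap M L y) :=
    fun n y => iter_hom φ (IsScalarTower.toAlgHom K M L) n y
  have hinj := (algebraMap M L).injective
  -- the norm
  set P : F[X] := (itp φ N).map (algebraMap K F) - C x0 with hP
  have hPd : P.natDegree = φ.natDegree ^ N := by
    rw [hP, natDegree_sub_C, natDegree_map, itp_natDegree]
  have hP0 : P ≠ 0 := itp_sub_ne_zero hd _ _
  have hmp : minpoly F wM = minpoly F w := by
    rw [← hwMw]
    exact (minpoly.algebraMap_eq hinj wM).symm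
  have hfin : finrank F M = φ.natDegree ^ N := by
    rw [← hdeg]
    exact IntermediateField.adjoin.finrank hint
  have hPw : aeval wM P = 0 := by
    apply hinj
    rw [map_zero, ← aeval_algebraMap_apply, hwMw, hP, map_sub, aeval_C, aeval_map_algebraMap,
      itp_aeval, hx0, sub_self]
  have hnorm : ∀ a : F, P.eval a = P.leadingCoeff * Algebra.norm F (algebraMap F M a - wM) :=
    fun a => norm_sub wM P hP0 hPw (by rw [hPd, hfin]) (by rw [hmp, hdeg, hfin]) a
  -- the critical point
  set a : F := algebraMap K F ((ph φ)^[h] c) with ha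
  have hPa : P.eval a = algebraMap K F ((ph φ)^[N + h] c) - x0 := by
    rw [hP, eval_sub, eval_C, eval_map_algebraMap, itp_aeval, ha, ← iter_algebraMap,
      ← Function.iterate_add_apply]
  have haM : algebraMap F M a = (ph φ)^[h] (algebraMap K M c) := by
    rw [ha, ← IsScalarTower.algebraMap_apply, iter_algebraMap]
  have hα0 : algebraMap F M a - wM ≠ 0 := by
    intro h0
    have h2 := hnorm a
    rw [h0, Algebra.norm_zero, mul_zero, hPa, sub_eq_zero] at h2
    exact hne h2
  have hnotev : ¬ EvenOff D (algebraMap F M a - wM) := by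
    intro hev
    apply hodd
    have h2 := hev.norm (F := F) hα0
    intro v hv
    obtain ⟨m, hm⟩ := h2 v hv
    refine ⟨m, ?_⟩
    rw [← hPa, hnorm a, map_mul, hm]
    have h3 : v.valuation F P.leadingCoeff = 1 := by
      have h4 : P.leadingCoeff = algebraMap K F (itp φ N).leadingCoeff := by
        by_cases hN : N = 0
        · subst hN
          have h5 : P = X - C x0 := by rw [hP]; simp [itp]
          rw [h5, leadingCoeff_X_sub_C]
          simp [itp]
        · rw [← leadingCoeff_map (algebraMap K F), hP]
          have h5 : ((itp φ N).map (algebraMap K F)).natDegree = φ.natDegree ^ N := by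
            rw [natDegree_map, itp_natDegree]
          rw [leadingCoeff, leadingCoeff, natDegree_sub_C, coeff_sub, coeff_C_of_ne_zero,
            sub_zero]
          rw [h5]
          exact (pow_pos (by omega) _).ne'
      obtain ⟨e, he⟩ := itp_lc φ hd N
      have hl : φ.coeff φ.natDegree ∈ D := hD.coeff _ (leadingCoeff_ne_zero.mpr
        (by rintro rfl; simp at hd))
      have hl2 := hv _ hl
      rw [coeff_natDegree] at hl2
      rw [h4, he, map_pow, map_pow, hl2, one_pow]
    rw [h3, one_mul]
  rw [EvenOff] at hnotev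
  push Not at hnotev
  obtain ⟨v, hv, hvodd⟩ := hnotev
  -- integrality
  have hvw : v.valuation M wM ≤ 1 := by
    have ho := overComap (K := K) (v.valuation M)
    have hg := hD.good hd hv
    apply ho.le_of_iter hg hd (n := n1 + N)
    have h2 : (ph φ)^[n1 + N] wM = algebraMap K M γ := by
      apply hinj
      rw [hitL, hwMw, hw, ← IsScalarTower.algebraMap_apply]
    rw [h2]
    by_cases hγ : γ = 0
    · rw [hγ, map_zero, map_zero]; exact zero_le
    · exact (hv γ (hγD hγ)).le
  have hsplit' : ((itp φ h).map (algebraMap K L) - C (algebraMap M L wM)).Splits := hsplit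
  obtain ⟨σ, y1, y2, e1, e2, e3, e4, e5, e6, e7⟩ := swapL hD hd hs hc h1 hB wM hsplit'
    (by rw [← haM]; exact sub_ne_zero.mp hα0) v hv hvw (by
      rw [← haM]
      rintro ⟨m, hm⟩
      exact hvodd m hm)
  refine ⟨σ.restrictScalars K, ?_, ?_, y1, y2, e1, e2, e3, e4, e5, e6, e7⟩
  · intro x
    have h2 : algebraMap E L x = algebraMap M L (algebraMap F M (algebraMap E F x)) := by
      rw [← IsScalarTower.algebraMap_apply F M L, ← IsScalarTower.algebraMap_apply E F L]
    change σ (algebraMap E L x) = _
    rw [h2, σ.commutes]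
  · change σ w = w
    rw [← hwMw, σ.commutes]

end Pool.Agent.Arb2
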