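import Pool.Agent.Arb2.TotInv
import Pool.Agent.TameArb.Comp

/-!
# Polynomials with a bijective reduction
-/

set_option autoImplicit false

open Polynomial NumberField IsDedekindDomain Module
open scoped WithZero

namespace Pool.Agent.Arb2

open Pool.Agent.TameArb

section

variable {K : Type} [Field K] {v : Valuation K ℤᵐ⁰} {φ : K[X]}

/-- the reduction of the polynomial modulo `v` is `a x ^ q + b` -/
def BijRed (v : Valuation K ℤᵐ⁰) (φ : K[X]) : Prop :=
  ∃ p r : ℕ, p.Prime ∧ v (p : K) < 1 ∧ φ.natDegree = p ^ r ∧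
    ∀ i, 0 < i → i < φ.natDegree → v (φ.coeff i) < 1

theorem charP_res {p : ℕ} (hp : p.Prime) (hpv : v (p : K) < 1) : CharP (v.integer ⧸ mI v) p := by
  rw [CharP.charP_iff_prime_eq_zero hp]
  have h1 : (Ideal.Quotient.mk (mI v)) (p : v.integer) = 0 := by
    rw [Ideal.Quotient.eq_zero_iff_mem, mem_mI]
    simpa using hpv
  rw [← h1, map_natCast]

theorem comp_form {R : Type*} [CommRing R] {p q r m : ℕ} (hp : p.Prime) (hq : q = p ^ r)
    [CharP R p] (a b a1 b1 : R) : (C a * X ^ q + C b).comp (C a1 * X ^ (q ^ m) + C b1) =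
      C (a * a1 ^ q) * X ^ (q ^ (m + 1)) + C (a * b1 ^ q + b) := by
  have hfact : Fact p.Prime := ⟨hp⟩
  have key : ∀ u w : R[X], (u + w) ^ q = u ^ q + w ^ q := by
    intro u w
    rw [hq]
    exact add_pow_char_pow u w p r
  rw [add_comp, mul_comp, C_comp, C_comp, X_pow_comp, key, mul_pow, ← C_pow, ← C_pow, ← pow_mul,
    ← pow_succ, mul_add, ← mul_assoc, ← C_mul, ← C_mul, add_assoc, ← C_add]

theorem red_iter (hv : Good v φ) {p r : ℕ} (hp : p.Prime) (hpv : v (p : K) < 1)
    (hdeg : φ.natDegree = p ^ r) (hmid : ∀ i, 0 < i → i < φ.natDegree → v (φ.coeff i) < 1)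
    (m : ℕ) : ∃ Q : (v.integer)[X], Q.map v.integer.subtype = itp φ m ∧
      ∃ a b : v.integer ⧸ mI v,
        Q.map (Ideal.Quotient.mk (mI v)) = C a * X ^ (φ.natDegree ^ m) + C b := by
  have hchar := charP_res (K := K) hp hpv
  induction m with
  | zero =>
    refine ⟨X, by simp [itp], 1, 0, ?_⟩
    simp
  | succ m ih =>
    obtain ⟨Q1, hQ1, a1, b1, hab1⟩ := ih
    obtain ⟨Q, hQ⟩ := exists_lift hv.1
    have hco : ∀ n, ((Q.coeff n : v.integer) : K) = φ.coeff n := by
      intro n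
      rw [← hQ, coeff_map]; rfl
    have hQr : Q.map (Ideal.Quotient.mk (mI v)) =
        C (Ideal.Quotient.mk (mI v) (Q.coeff φ.natDegree)) * X ^ φ.natDegree +
          C (Ideal.Quotient.mk (mI v) (Q.coeff 0)) := by
      have hd0 : 0 < φ.natDegree := by rw [hdeg]; exact pow_pos hp.pos _
      ext i
      rw [coeff_map, coeff_add, coeff_C_mul, coeff_X_pow, coeff_C]
      by_cases h0 : i = 0
      · subst h0
        rw [if_neg hd0.ne, if_pos rfl, mul_zero, zero_add]
      · rw [if_neg h0, add_zero]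
        by_cases h1 : i = φ.natDegree
        · rw [if_pos h1, mul_one, h1]
        · rw [if_neg h1, mul_zero, Ideal.Quotient.eq_zero_iff_mem, mem_mI, hco]
          rcases lt_or_gt_of_ne h1 with h2 | h2
          · exact hmid i (Nat.pos_of_ne_zero h0) h2
          · rw [coeff_eq_zero_of_natDegree_lt h2, map_zero]
            exact zero_lt_one
    refine ⟨Q.comp Q1, ?_, Ideal.Quotient.mk (mI v) (Q.coeff φ.natDegree) * a1 ^ φ.natDegree,
      Ideal.Quotient.mk (mI v) (Q.coeff φ.natDegree) * b1 ^ φ.natDegree +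
        Ideal.Quotient.mk (mI v) (Q.coeff 0), ?_⟩
    · rw [Polynomial.map_comp, hQ, hQ1, itp_succ]
    · rw [Polynomial.map_comp, hQr, hab1, comp_form hp hdeg]

theorem bij_hasse (hv : Good v φ) {p r : ℕ} (hp : p.Prime)
    (hpv : v (p : K) < 1)
    (hdeg : φ.natDegree = p ^ r) (hmid : ∀ i, 0 < i → i < φ.natDegree → v (φ.coeff i) < 1)
    (m : ℕ) {γ : K} (hγ : v γ ≤ 1) (k : ℕ) (hk : 0 < k) (hkd : k < φ.natDegree ^ m) :
    v ((hasseDeriv k (itp φ m)).eval γ) < 1 := by
  obtain ⟨Q, hQ, a, b, hab⟩ := red_iter hv hp hpv hdeg hmid m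
  have hchar := charP_res (K := K) hp hpv
  have h1 : (hasseDeriv k Q).map (Ideal.Quotient.mk (mI v)) = 0 := by
    rw [← hasse_map, hab, map_add, hasseDeriv_C k b hk, add_zero, C_mul_X_pow_eq_monomial,
      hasseDeriv_monomial]
    have h2 : p ∣ (φ.natDegree ^ m).choose k := by
      rw [hdeg, ← pow_mul] at hkd ⊢
      exact hp.dvd_choose_pow hk.ne' hkd.ne
    have h3 : (((φ.natDegree ^ m).choose k : ℕ) : v.integer ⧸ mI v) = 0 :=
      (CharP.cast_eq_zero_iff _ p _).mpr h2
    rw [h3, zero_mul, map_zero]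
  have h2 : (Ideal.Quotient.mk (mI v)) ((hasseDeriv k Q).eval (⟨γ, hγ⟩ : v.integer)) = 0 := by
    rw [← eval_map_apply, h1, eval_zero]
  rw [Ideal.Quotient.eq_zero_iff_mem, mem_mI] at h2
  have h3 : (((hasseDeriv k Q).eval (⟨γ, hγ⟩ : v.integer) : v.integer) : K) =
      (hasseDeriv k (itp φ m)).eval γ := by
    rw [← hQ, hasse_map]
    exact (eval_map_apply (f := v.integer.subtype) (p := hasseDeriv k Q) _).symm
  rwa [h3] at h2

theorem bij_inj (hv : Good v φ) {p r : ℕ} (hp : p.Prime)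
    (hpv : v (p : K) < 1)
    (hdeg : φ.natDegree = p ^ r) (hmid : ∀ i, 0 < i → i < φ.natDegree → v (φ.coeff i) < 1)
    {x y : K} (hx : v x ≤ 1) (hy : v y ≤ 1) (h : v (ph φ x - ph φ y) < 1) : v (x - y) < 1 := by
  obtain ⟨Q, hQ, a, b, hab⟩ := red_iter hv hp hpv hdeg hmid 1
  have hchar := charP_res (K := K) hp hpv
  have hfact : Fact p.Prime := ⟨hp⟩
  rw [pow_one] at hab
  have hitp : itp φ 1 = φ := by rw [itp_succ]; simp [itp]
  rw [hitp] at hQ
  have he : ∀ z : v.integer, ((Q.eval z : v.integer) : K) = ph φ (z : K) := by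
    intro z
    rw [ph_eq_eval]
    conv_rhs => rw [← hQ]
    exact (eval_map_apply (f := v.integer.subtype) (p := Q) _).symm
  have h1 : (Ideal.Quotient.mk (mI v)) (Q.eval (⟨x, hx⟩ : v.integer) - Q.eval ⟨y, hy⟩) = 0 := by
    rw [Ideal.Quotient.eq_zero_iff_mem, mem_mI]
    push_cast
    rw [he, he]
    exact h
  rw [map_sub, ← eval_map_apply, ← eval_map_apply, hab] at h1
  simp only [eval_add, eval_mul, eval_C, eval_pow, eval_X] at h1
  have h2 : a * ((Ideal.Quotient.mk (mI v)) (⟨x, hx⟩ - ⟨y, hy⟩ : v.integer)) ^ φ.natDegree = 0 := by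
    rw [map_sub]
    conv_lhs => rw [hdeg]
    rw [sub_pow_char_pow, ← hdeg]
    linear_combination h1
  have ha : a ≠ 0 := by
    intro ha
    have h3 := congrArg (fun P => P.coeff φ.natDegree) hab
    simp only [coeff_map, ha, map_zero, zero_mul, zero_add] at h3
    have hd0 : φ.natDegree ≠ 0 := by rw [hdeg]; exact (pow_pos hp.pos _).ne'
    rw [coeff_C, if_neg hd0, Ideal.Quotient.eq_zero_iff_mem, mem_mI] at h3
    have h4 : ((Q.coeff φ.natDegree : v.integer) : K) = φ.leadingCoeff := by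
      rw [leadingCoeff]
      conv_rhs => rw [← hQ]
      rw [coeff_map]
      rw [hQ]; rfl
    rw [h4, hv.2] at h3
    exact lt_irrefl _ h3
  have h3 := (mul_eq_zero.mp h2).resolve_left ha
  have h4 := pow_eq_zero_iff (by rw [hdeg]; exact (pow_pos hp.pos _).ne') |>.mp h3
  rw [Ideal.Quotient.eq_zero_iff_mem, mem_mI] at h4
  exact h4

end

theorem exists_period_of_inj {K : Type} [Field K] [NumberField K] {φ : K[X]}
    (v : HeightOneSpectrum (𝓞 K)) (hv : Good (v.valuation K) φ)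
    (hinj : ∀ x y : K, v.valuation K x ≤ 1 → v.valuation K y ≤ 1 →
      v.valuation K (ph φ x - ph φ y) < 1 → v.valuation K (x - y) < 1)
    {γ : K} (hγ : v.valuation K γ ≤ 1) :
    ∃ m, 0 < m ∧ v.valuation K ((ph φ)^[m] γ - γ) < 1 := by
  have hint : ∀ n, v.valuation K ((ph φ)^[n] γ) ≤ 1 := fun n =>
    (overSelf (v.valuation K)).iter_le hv hγ n
  have hfin := fin_res v
  obtain ⟨m, n, hmn, he⟩ := Finite.exists_ne_map_eq_of_infinite
    (fun n : ℕ => Ideal.Quotient.mk (mI (v.valuation K))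
      (⟨(ph φ)^[n] γ, hint n⟩ : (v.valuation K).integer))
  wlog hlt : m < n generalizing m n
  · exact this n m hmn.symm he.symm (by omega)
  have h1 : v.valuation K ((ph φ)^[n] γ - (ph φ)^[m] γ) < 1 := by
    have h2 := (Ideal.Quotient.mk_eq_mk_iff_sub_mem _ _).mp he.symm
    exact h2
  have hinj2 : ∀ (j : ℕ) (x y : K), v.valuation K x ≤ 1 → v.valuation K y ≤ 1 →
      v.valuation K ((ph φ)^[j] x - (ph φ)^[j] y) < 1 → v.valuation K (x - y) < 1 := by
    intro j
    induction j with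
    | zero => intro x y _ _ h; exact h
    | succ j ih =>
      intro x y hx hy h
      rw [Function.iterate_succ_apply, Function.iterate_succ_apply] at h
      have hx' := (overSelf (v.valuation K)).iter_le hv (x := x) hx 1
      have hy' := (overSelf (v.valuation K)).iter_le hv (x := y) hy 1
      exact hinj x y hx hy (ih _ _ hx' hy' h)
  refine ⟨n - m, by omega, hinj2 m _ _ (hint _) hγ ?_⟩
  rw [← Function.iterate_add_apply, Nat.add_sub_cancel' hlt.le]
  exact h1

/-- **Bijective reduction.** -/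
theorem grow_of_bij {K : Type} [Field K] [NumberField K] {φ : K[X]} (hd : 2 ≤ φ.natDegree)
    {γ : K} (v : HeightOneSpectrum (𝓞 K)) (hv : Good (v.valuation K) φ)
    (hbij : BijRed (v.valuation K) φ) (hne : ∀ n, 0 < n → (ph φ)^[n] γ ≠ γ) :
    ∃ A, Grow φ γ A := by
  obtain ⟨p, r, hp, hpv, hdeg, hmid⟩ := hbij
  rcases le_or_gt (v.valuation K γ) 1 with hγ | hγ
  · obtain ⟨m, hm, hper⟩ := exists_period_of_inj v hv
      (fun x y hx hy h => bij_inj hv hp hpv hdeg hmid hx hy h) hγ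
    exact grow_of_totInv hd v hv hγ m hm
      (fun k hk hkd => bij_hasse hv hp hpv hdeg hmid m hγ k hk hkd) hper (hne m hm)
  · exact grow_of_nonint v hv hγ

end Pool.Agent.Arb2
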