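import Pool.Agent.Arb2.Primes
import Pool.Agent.Arb.Degree

/-!
# Base change
-/

set_option autoImplicit false

open Polynomial NumberField IsDedekindDomain Module
open scoped WithZero

namespace Pool.Agent.Arb2

open Pool.Agent.TameArb

section

variable {K F : Type*} [Field K] [Field F] [Algebra K F] (φ : K[X])

theorem ph_map_eq {A : Type*} [CommRing A] [Algebra K A] [Algebra F A] [IsScalarTower K F A] :
    (ph (φ.map (algebraMap K F)) : A → A) = ph φ := by
  funext x
  rw [ph, ph, aeval_map_algebraMap]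

theorem itp_map (n : ℕ) : itp (φ.map (algebraMap K F)) n = (itp φ n).map (algebraMap K F) := by
  induction n with
  | zero => simp [itp]
  | succ n ih => rw [itp_succ, itp_succ, ih, Polynomial.map_comp]

end

theorem Grow.map {K F : Type} [Field K] [Field F] [CharZero F] [Algebra K F]
    [FiniteDimensional K F] {φ : K[X]}
    (hd : 2 ≤ φ.natDegree) {γ : K} {A : ℕ} (h : Grow φ γ A) :
    Grow (φ.map (algebraMap K F)) (algebraMap K F γ) (A * finrank K F) := by
  intro n p hp hpd
  obtain ⟨x, hx⟩ := IsAlgClosed.exists_aeval_eq_zero (AlgebraicClosure F) p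
    (by rw [degree_eq_natDegree hp.ne_zero]; exact_mod_cast hp.natDegree_pos.ne')
  have hx2 : (ph φ)^[n] x = algebraMap K (AlgebraicClosure F) γ := by
    obtain ⟨q, hq⟩ := hpd
    have h4 : aeval x (itp (φ.map (algebraMap K F)) n - C (algebraMap K F γ)) = 0 := by
      rw [hq, map_mul, hx, zero_mul]
    rw [map_sub, itp_aeval, aeval_C, sub_eq_zero, ph_map_eq,
      ← IsScalarTower.algebraMap_apply] at h4
    exact h4
  have h1 := h.ext (E := F) hd hx2
  have hint : IsIntegral F x := Algebra.IsIntegral.isIntegral x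
  have h4 : (minpoly F x).natDegree = p.natDegree := by
    have h5 : minpoly F x ∣ p := minpoly.dvd F x hx
    have h6 : Associated (minpoly F x) p :=
      (minpoly.irreducible hint).associated_of_dvd hp h5
    exact natDegree_eq_of_degree_eq (degree_eq_degree_of_associated h6)
  rwa [natDegree_map, ← h4]

/-- the theorem over a field from the property over an extension -/
theorem posDens_of_ext {K F : Type} [Field K] [NumberField K] [Field F] [NumberField F]
    [Algebra K F] {φ : K[X]} (hA : AutoProp F (φ.map (algebraMap K F)))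
    (hd : 2 ≤ φ.natDegree) (Γ Γ0 : Finset K)
    (hΓ : ∀ γ ∈ Γ, ∀ n, 0 < n → (ph φ)^[n] γ ≠ γ)
    (hgrow : ∀ γ ∈ Γ, γ ∉ Γ0 → ∃ A, Grow φ γ A)
    (v0 : HeightOneSpectrum (𝓞 K)) (hv0 : Good (v0.valuation K) φ)
    (hΓ0 : ∀ γ ∈ Γ0, v0.valuation K γ ≤ 1 ∧ ¬ PerMod (v0.valuation K) φ γ) :
    PosDens (GP φ Γ) := by
  classical
  set φ' := φ.map (algebraMap K F) with hφ'
  have hd' : 2 ≤ φ'.natDegree := by rwa [hφ', natDegree_map]
  have hiter : ∀ (n : ℕ) (x : K), (ph φ')^[n] (algebraMap K F x) =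
      algebraMap K F ((ph φ)^[n] x) := by
    intro n x
    rw [hφ', ph_map_eq, iter_algebraMap]
  -- comparison of the conditions at primes
  have hgood : ∀ (v : Valuation K ℤᵐ⁰) (w : Valuation F ℤᵐ⁰) (e : ℕ), Over v w e →
      (Good w φ' ↔ Good v φ) := by
    intro v w e ho
    constructor
    · intro h
      refine ⟨fun i => ?_, ?_⟩
      · have := h.int i
        rw [hφ', coeff_map] at this
        exact ho.le_one.mp this
      · have := h.lead
        rw [hφ', leadingCoeff_map] at this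
        exact ho.eq_one.mp this
    · intro h
      exact ⟨ho.intP h.int, ho.lead h⟩
  have hper : ∀ (v : Valuation K ℤᵐ⁰) (w : Valuation F ℤᵐ⁰) (e : ℕ), Over v w e → ∀ γ : K,
      (PerMod w φ' (algebraMap K F γ) ↔ PerMod v φ γ) := by
    intro v w e ho γ
    have key : ∀ n : ℕ, w ((ph φ')^[n] (algebraMap K F γ) - algebraMap K F γ) < 1 ↔
        v ((ph φ)^[n] γ - γ) < 1 := by
      intro n
      rw [hiter, ← map_sub, ho.lt_one]
    constructor
    · rintro ⟨n, hn, h⟩
      exact ⟨n, hn, (key n).mp h⟩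
    · rintro ⟨n, hn, h⟩
      exact ⟨n, hn, (key n).mpr h⟩
  obtain ⟨w0, e0, he0, -, hval0⟩ := Pool.Agent.Arb.exists_above v0 F
  have ho0 : Over (v0.valuation K) (w0.valuation F) e0 := ⟨he0.ne', hval0⟩
  have h1 : PosDens (GP φ' (Γ.image (algebraMap K F))) := by
    refine posDens_of_autoProp hA hd' (Γ.image (algebraMap K F)) (Γ0.image (algebraMap K F)) ?_ ?_
      w0 ((hgood _ _ _ ho0).mpr hv0) ?_
    · intro γ' hγ' n hn h
      obtain ⟨γ, hγ, rfl⟩ := Finset.mem_image.mp hγ'
      rw [hiter] at h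
      exact hΓ γ hγ n hn ((algebraMap K F).injective h)
    · intro γ' hγ' hγ0
      obtain ⟨γ, hγ, rfl⟩ := Finset.mem_image.mp hγ'
      obtain ⟨A, hA⟩ := hgrow γ hγ (fun h => hγ0 (Finset.mem_image_of_mem _ h))
      exact ⟨_, hA.map hd⟩
    · intro γ' hγ'
      obtain ⟨γ, hγ, rfl⟩ := Finset.mem_image.mp hγ'
      exact ⟨ho0.le_one.mpr (hΓ0 γ hγ).1, fun h => (hΓ0 γ hγ).2 ((hper _ _ _ ho0 γ).mp h)⟩
  obtain ⟨w, hw1, hw2⟩ := h1.infinite.nonempty
  obtain ⟨e, he, hval⟩ := under_le_one_iff (K := K) w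
  have ho : Over ((w.under (𝓞 K)).valuation K) (w.valuation F) e := ⟨he, hval⟩
  refine main φ hd Γ hΓ ∅ (by simp) (w.under (𝓞 K)) ((hgood _ _ _ ho).mp hw1) ?_
  intro γ hγ
  obtain ⟨h2, h3⟩ := hw2 _ (Finset.mem_image_of_mem _ hγ)
  exact Or.inr (Or.inr ⟨ho.le_one.mp h2, fun h => h3 ((hper _ _ _ ho γ).mpr h)⟩)

/-- **Polynomials with a simple critical point of infinite orbit that the other critical points
do not meet.** -/
theorem posDens_of_crit {K : Type} [Field K] [NumberField K] {φ : K[X]}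
    (hd : 2 ≤ φ.natDegree) (c : AlgebraicClosure K) (hc : aeval c (derivative φ) = 0)
    (hc2 : aeval c (derivative (derivative φ)) ≠ 0)
    (hinj : Function.Injective fun n : ℕ => (ph φ)^[n] c)
    (hdist : ∀ a : AlgebraicClosure K, aeval a (derivative φ) = 0 → a ≠ c → ∀ i j : ℕ, 1 ≤ i →
      i ≤ j → (ph φ)^[i] a ≠ (ph φ)^[j] c) (Γ Γ0 : Finset K)
    (hΓ : ∀ γ ∈ Γ, ∀ n, 0 < n → (ph φ)^[n] γ ≠ γ)
    (hgrow : ∀ γ ∈ Γ, γ ∉ Γ0 → ∃ A, Grow φ γ A)
    (v0 : HeightOneSpectrum (𝓞 K)) (hv0 : Good (v0.valuation K) φ)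
    (hΓ0 : ∀ γ ∈ Γ0, v0.valuation K γ ≤ 1 ∧ ¬ PerMod (v0.valuation K) φ γ) :
    PosDens (GP φ Γ) := by
  obtain ⟨F, _, _, _, _, hs⟩ := exists_split K (derivative φ)
  set φ' := φ.map (algebraMap K F) with hφ'
  have hd' : 2 ≤ φ'.natDegree := by rwa [hφ', natDegree_map]
  have hne : derivative φ ≠ 0 := by
    intro h
    have h1 := derivative_eq_zero.mp h
    omega
  let ι : F →ₐ[K] AlgebraicClosure K := IsAlgClosed.lift
  have hιinj : ∀ x y : F, ι x = ι y → x = y := fun x y h => ι.toRingHom.injective h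
  have hdφ : derivative φ' = (derivative φ).map (algebraMap K F) := by
    rw [hφ', derivative_map]
  obtain ⟨c', hc'⟩ : ∃ c' : F, ι c' = c := by
    have h1 : (((derivative φ).map (algebraMap K F)).map (ι : F →+* AlgebraicClosure K)).IsRoot c := by
      rw [IsRoot.def, map_map, eval_map]
      have h2 : (ι : F →+* AlgebraicClosure K).comp (algebraMap K F) =
          algebraMap K (AlgebraicClosure K) := ι.comp_algebraMap
      rw [h2, ← aeval_def]
      exact hc
    obtain ⟨c', hc'⟩ := hs.mem_range_of_isRoot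
      ((Polynomial.map_ne_zero_iff (algebraMap K F).injective).mpr hne) h1
    exact ⟨c', hc'⟩
  have hev : ∀ (P : K[X]) (x : F), ι ((P.map (algebraMap K F)).eval x) = aeval (ι x) P := by
    intro P x
    rw [eval_map_algebraMap, aeval_algHom_apply]
  have hit : ∀ (n : ℕ) (x : F), ι ((ph φ')^[n] x) = (ph φ)^[n] (ι x) := by
    intro n x
    rw [hφ', ph_map_eq, iter_hom]
  have hA : AutoProp F φ' := by
    intro Γ hΓ hgrow E _ _ _ _ g1
    refine auto hd' (by rw [hdφ]; exact hs) (c := c') ?_ ?_ ?_ ?_ Γ hΓ hgrow E g1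
    · apply hιinj
      rw [hdφ, hev, hc', map_zero]
      exact hc
    · intro h
      apply hc2
      have h1 : derivative (derivative φ') = 2 • hasseDeriv 2 φ' := by
        have h2 := congrFun (factorial_smul_hasseDeriv (R := F) 2) φ'
        simpa using h2.symm
      have h3 : (derivative (derivative φ')).eval c' = 0 := by
        rw [h1, eval_smul, h, smul_zero]
      have h4 : derivative (derivative φ') = (derivative (derivative φ)).map (algebraMap K F) := by
        rw [hdφ, derivative_map]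
      rw [h4] at h3
      rw [← hc', ← hev, h3, map_zero]
    · intro i j hij
      apply hinj
      have h1 : (ph φ')^[i] c' = (ph φ')^[j] c' := hij
      show (ph φ)^[i] c = (ph φ)^[j] c
      rw [← hc', ← hit, ← hit, h1]
    · intro a ha hac i j hi hij h
      refine hdist (ι a) ?_ ?_ i j hi hij ?_
      · rw [← hev, ← hdφ, ha, map_zero]
      · intro h1
        exact hac (hιinj _ _ (by rw [h1, hc']))
      · rw [← hc', ← hit, ← hit, h]
  exact posDens_of_ext hA hd Γ Γ0 hΓ hgrow v0 hv0 hΓ0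

end Pool.Agent.Arb2
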