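import Pool.Agent.Arb2.Bij
import Pool.Agent.Arb2.Ext

/-!
# Growth over extensions and for conjugate polynomials
-/

set_option autoImplicit false

open Polynomial NumberField IsDedekindDomain Module
open scoped WithZero

namespace Pool.Agent.Arb2

open Pool.Agent.TameArb

/-- growth in terms of points -/
theorem grow_iff {K : Type} [Field K] [CharZero K] {φ : K[X]} {γ : K} {A : ℕ} :
    Grow φ γ A ↔ ∀ (n : ℕ) (x : AlgebraicClosure K),
      (ph φ)^[n] x = algebraMap K (AlgebraicClosure K) γ →
      φ.natDegree ^ n ≤ A * (minpoly K x).natDegree := by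
  constructor
  · intro h n x hx
    have hint : IsIntegral K x := Algebra.IsIntegral.isIntegral x
    refine h n (minpoly K x) (minpoly.irreducible hint) (minpoly.dvd K x ?_)
    rw [map_sub, itp_aeval, aeval_C, hx, sub_self]
  · intro h n p hp hpd
    obtain ⟨x, hx⟩ := IsAlgClosed.exists_aeval_eq_zero (AlgebraicClosure K) p
      (by rw [degree_eq_natDegree hp.ne_zero]; exact_mod_cast hp.natDegree_pos.ne')
    have hx2 : (ph φ)^[n] x = algebraMap K (AlgebraicClosure K) γ := by
      obtain ⟨q, hq⟩ := hpd
      have h4 : aeval x (itp φ n - C γ) = 0 := by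
        rw [hq, map_mul, hx, zero_mul]
      rwa [map_sub, itp_aeval, aeval_C, sub_eq_zero] at h4
    have hint : IsIntegral K x := Algebra.IsIntegral.isIntegral x
    have h4 : (minpoly K x).natDegree = p.natDegree := by
      have h5 : minpoly K x ∣ p := minpoly.dvd K x hx
      have h6 : Associated (minpoly K x) p :=
        (minpoly.irreducible hint).associated_of_dvd hp h5
      exact natDegree_eq_of_degree_eq (degree_eq_degree_of_associated h6)
    rw [← h4]
    exact h n x hx2

/-- growth over an extension implies growth -/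
theorem grow_of_ext {K F : Type} [Field K] [Field F] [CharZero K] [CharZero F] [Algebra K F]
    {φ : K[X]} {γ : K} {A : ℕ}
    (h : Grow (φ.map (algebraMap K F)) (algebraMap K F γ) A) : Grow φ γ A := by
  rw [grow_iff] at h ⊢
  intro n x hx
  let ι : AlgebraicClosure K →ₐ[K] AlgebraicClosure F := IsAlgClosed.lift
  have h1 : (ph (φ.map (algebraMap K F)))^[n] (ι x) =
      algebraMap F (AlgebraicClosure F) (algebraMap K F γ) := by
    rw [ph_map_eq, ← iter_hom, hx, ι.commutes, ← IsScalarTower.algebraMap_apply]
  have h2 := h n (ι x) h1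
  rw [natDegree_map] at h2
  refine h2.trans (Nat.mul_le_mul_left _ ?_)
  have hint : IsIntegral K x := Algebra.IsIntegral.isIntegral x
  have h3 : minpoly F (ι x) ∣ (minpoly K x).map (algebraMap K F) := by
    apply minpoly.dvd
    rw [aeval_map_algebraMap, aeval_algHom_apply, minpoly.aeval, map_zero]
  have h4 := natDegree_le_of_dvd h3
    ((Polynomial.map_ne_zero_iff (algebraMap K F).injective).mpr (minpoly.ne_zero hint))
  rwa [natDegree_map] at h4

/-- the conjugate of `φ` by the affine map `x ↦ a x + b` -/
noncomputable def cj {F : Type*} [Field F] (φ : F[X]) (a b : F) : F[X] :=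
  C a⁻¹ * (φ.comp (C a * X + C b) - C b)

theorem cj_ph {F : Type*} [Field F] {A : Type*} [Field A] [Algebra F A] (φ : F[X]) {a b : F}
    (ha : a ≠ 0) (y : A) :
    algebraMap F A a * ph (cj φ a b) y + algebraMap F A b =
      ph φ (algebraMap F A a * y + algebraMap F A b) := by
  have ha' : algebraMap F A a ≠ 0 := (_root_.map_ne_zero _).mpr ha
  have h1 : ph (cj φ a b) y = (algebraMap F A a)⁻¹ *
      (ph φ (algebraMap F A a * y + algebraMap F A b) - algebraMap F A b) := by
    simp only [ph, cj, map_mul, map_sub, aeval_comp, map_add, aeval_C, aeval_X, map_inv₀]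
  rw [h1, mul_inv_cancel_left₀ ha', sub_add_cancel]

theorem cj_iter {F : Type*} [Field F] {A : Type*} [Field A] [Algebra F A] (φ : F[X]) {a b : F}
    (ha : a ≠ 0) (n : ℕ) (y : A) :
    algebraMap F A a * (ph (cj φ a b))^[n] y + algebraMap F A b =
      (ph φ)^[n] (algebraMap F A a * y + algebraMap F A b) := by
  induction n with
  | zero => rfl
  | succ n ih =>
    rw [Function.iterate_succ_apply', Function.iterate_succ_apply', cj_ph φ ha, ih]

theorem cj_natDegree {F : Type*} [Field F] {φ : F[X]} {a b : F} (ha : a ≠ 0) :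
    (cj φ a b).natDegree = φ.natDegree := by
  rw [cj, natDegree_C_mul (inv_ne_zero ha), natDegree_sub_C, natDegree_comp]
  have : (C a * X + C b : F[X]).natDegree = 1 := natDegree_linear ha
  rw [this, mul_one]

/-- growth for a conjugate polynomial implies growth -/
theorem grow_of_cj {F : Type} [Field F] [CharZero F] {φ : F[X]} {a b γ : F} (ha : a ≠ 0) {A : ℕ}
    (h : Grow (cj φ a b) (a⁻¹ * (γ - b)) A) : Grow φ γ A := by
  rw [grow_iff] at h ⊢
  intro n x hx
  have ha' : algebraMap F (AlgebraicClosure F) a ≠ 0 := (_root_.map_ne_zero _).mpr ha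
  set y : AlgebraicClosure F := (algebraMap F (AlgebraicClosure F) a)⁻¹ * (x - algebraMap F (AlgebraicClosure F) b) with hy
  have hxy : algebraMap F (AlgebraicClosure F) a * y + algebraMap F (AlgebraicClosure F) b = x := by
    rw [hy, mul_inv_cancel_left₀ ha', sub_add_cancel]
  have h1 := cj_iter φ (b := b) ha n y
  rw [hxy, hx] at h1
  have h2 : (ph (cj φ a b))^[n] y = algebraMap F (AlgebraicClosure F) (a⁻¹ * (γ - b)) := by
    rw [map_mul, map_sub, map_inv₀, ← h1, add_sub_cancel_right, inv_mul_cancel_left₀ ha']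
  have h3 := h n y h2
  rw [cj_natDegree ha] at h3
  refine h3.trans (Nat.mul_le_mul_left _ ?_)
  have hintx : IsIntegral F x := Algebra.IsIntegral.isIntegral x
  -- `y` is a root of the polynomial of `a y + b`
  have h4 : minpoly F y ∣ (minpoly F x).comp (C a * X + C b) := by
    apply minpoly.dvd
    rw [aeval_comp]
    simp only [map_add, map_mul, aeval_C, aeval_X]
    rw [hxy, minpoly.aeval]
  have hlin : (C a * X + C b : F[X]).natDegree = 1 := natDegree_linear ha
  have h5 : ((minpoly F x).comp (C a * X + C b)).natDegree = (minpoly F x).natDegree := by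
    rw [natDegree_comp, hlin, mul_one]
  have h6 : (minpoly F x).comp (C a * X + C b) ≠ 0 := by
    intro h0
    rw [h0, natDegree_zero] at h5
    exact (minpoly.natDegree_pos hintx).ne' h5.symm
  have h7 := natDegree_le_of_dvd h4 h6
  rwa [h5] at h7

/-- growth gives eventual stability -/
theorem evSt_of_grow {K : Type} [Field K] {φ : K[X]} (hd : 2 ≤ φ.natDegree) {γ : K} {A : ℕ}
    (h : Grow φ γ A) : EvSt φ γ := by
  classical
  refine ⟨A, ?_⟩
  intro n s hs
  have hP0 : itp φ n - C γ ≠ 0 := by
    have h1 := itp_sub_ne_zero (L := K) hd n γ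
    rwa [Algebra.algebraMap_self, Polynomial.map_id] at h1
  have hdeg : (itp φ n - C γ).natDegree = φ.natDegree ^ n := by
    rw [natDegree_sub_C, itp_natDegree]
  have hdvd : ∏ p ∈ s, p ∣ itp φ n - C γ := by
    apply Finset.prod_dvd_of_coprime
    · intro p hp q hq hpq
      obtain ⟨h1, h2, -⟩ := hs p hp
      obtain ⟨h3, h4, -⟩ := hs q hq
      have h5 : IsCoprime p q := by
        rw [h1.coprime_iff_not_dvd]
        intro h6
        exact hpq (eq_of_monic_of_associated h2 h4 (h1.associated_of_dvd h3 h6))
      exact h5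
    · intro p hp
      exact (hs p hp).2.2
  have h1 := natDegree_le_of_dvd hdvd hP0
  rw [natDegree_prod _ _ (fun p hp => (hs p hp).1.ne_zero), hdeg] at h1
  have h2 : s.card * φ.natDegree ^ n ≤ A * ∑ p ∈ s, p.natDegree := by
    rw [Finset.mul_sum, ← smul_eq_mul, ← Finset.sum_const]
    exact Finset.sum_le_sum fun p hp => h n p (hs p hp).1 (hs p hp).2.2
  have h3 : s.card * φ.natDegree ^ n ≤ A * φ.natDegree ^ n := h2.trans (Nat.mul_le_mul_left _ h1)
  exact Nat.le_of_mul_le_mul_right h3 (pow_pos (by omega) _)

end Pool.Agent.Arb2
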