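import Mathlib

/-!
# Few elements of a coset of a tree group have fixed points

A finite group acts on a rooted tree, transitively on each level, and for each vertex there is an
element acting on its level as a transposition of this vertex with a sibling.  Then the proportion
of elements of a coset with a fixed vertex at a high level is small.
-/

set_option autoImplicit false

namespace Pool.Agent.Arb2

open Finset

section level

variable {G Ω : Type*} [Group G] [MulAction G Ω]

/-- One level `T` of the tree with parent map `f` and previous level `U`; `σ x` is the partner of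
`x` and `ν x` acts on `T` as the transposition of `x` and `σ x`. -/
structure Lvl (H : Subgroup G) (s : G) (f : Ω → Ω) (d : ℕ) (T U : Finset Ω) (σ : Ω → Ω)
    (ν : Ω → G) : Prop where
  hf : ∀ (g : G) (x : Ω), f (g • x) = g • f x
  par : ∀ x ∈ T, f x ∈ U
  inv : ∀ g ∈ H, ∀ x ∈ T, g • x ∈ T
  sinv : ∀ x ∈ T, s⁻¹ • x ∈ T
  tr : ∀ x ∈ T, ∀ y ∈ T, ∃ g ∈ H, g • x = y
  sib : ∀ x ∈ T, ∀ S ⊆ T, (∀ y ∈ S, f y = f x) → S.card ≤ d
  νH : ∀ x ∈ T, ν x ∈ H
  σT : ∀ x ∈ T, σ x ∈ T
  σne : ∀ x ∈ T, σ x ≠ x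
  σf : ∀ x ∈ T, f (σ x) = f x
  ν1 : ∀ x ∈ T, ν x • x = σ x
  ν2 : ∀ x ∈ T, ν x • σ x = x
  ν3 : ∀ x ∈ T, ∀ z ∈ T, z ≠ x → z ≠ σ x → ν x • z = z

variable {H : Subgroup G} {s : G} {f : Ω → Ω} {d : ℕ} {T U : Finset Ω} {σ : Ω → Ω} {ν : Ω → G}

open Classical in
/-- the number of `x ∈ T` with `s g τ(x) = x` -/
noncomputable def cnt (s : G) (T : Finset Ω) (τ : Ω → Ω) (g : G) : ℕ :=
  (T.filter (fun x => (s * g) • τ x = x)).card

open Classical in
/-- the elements of `H` as a finite set -/
noncomputable def HH [Fintype G] (H : Subgroup G) : Finset G := univ.filter (fun g => g ∈ H)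

theorem mem_HH [Fintype G] {H : Subgroup G} {g : G} : g ∈ HH H ↔ g ∈ H := by
  classical
  simp [HH]

open Classical in
theorem card_hit [Fintype G] (hL : Lvl H s f d T U σ ν) {y z : Ω} (hy : y ∈ T) (hz : z ∈ T) :
    T.card * ((HH H).filter (fun g => g • y = z)).card = (HH H).card := by
  have h1 : (HH H).card = ∑ z' ∈ T, ((HH H).filter (fun g => g • y = z')).card :=
    card_eq_sum_card_fiberwise (fun g hg => hL.inv g (mem_HH.mp hg) y hy)
  rw [h1, ← smul_eq_mul, ← sum_const]
  refine sum_congr rfl fun z' hz' => ?_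
  obtain ⟨k, hk, hkz⟩ := hL.tr z hz z' hz'
  refine card_bij (fun g _ => k * g) ?_ ?_ ?_
  · intro g hg
    rw [mem_filter] at hg ⊢
    exact ⟨mem_HH.mpr (H.mul_mem hk (mem_HH.mp hg.1)), by rw [mul_smul, hg.2, hkz]⟩
  · intro a _ b _ hab
    exact mul_left_cancel hab
  · intro g hg
    rw [mem_filter] at hg
    refine ⟨k⁻¹ * g, ?_, by group⟩
    rw [mem_filter]
    refine ⟨mem_HH.mpr (H.mul_mem (H.inv_mem hk) (mem_HH.mp hg.1)), ?_⟩
    rw [mul_smul, hg.2, ← hkz, inv_smul_smul]

theorem sum_cnt [Fintype G] (hL : Lvl H s f d T U σ ν) (hT : T.Nonempty) {τ : Ω → Ω}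
    (hτ : ∀ x ∈ T, τ x ∈ T) : ∑ g ∈ HH H, cnt s T τ g = (HH H).card := by
  classical
  have h1 : ∑ g ∈ HH H, cnt s T τ g =
      ∑ x ∈ T, ((HH H).filter (fun g => g • τ x = s⁻¹ • x)).card := by
    simp only [cnt, card_filter]
    rw [sum_comm]
    refine sum_congr rfl fun x _ => sum_congr rfl fun g _ => ?_
    have : ((s * g) • τ x = x) ↔ (g • τ x = s⁻¹ • x) := by
      rw [mul_smul, smul_eq_iff_eq_inv_smul]
    simp only [this]
  have h2 : ∀ x ∈ T, T.card * ((HH H).filter (fun g => g • τ x = s⁻¹ • x)).card = (HH H).card :=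
    fun x hx => card_hit hL (hτ x hx) (hL.sinv x hx)
  have h3 : T.card * ∑ g ∈ HH H, cnt s T τ g = T.card * (HH H).card := by
    rw [h1, mul_sum, sum_congr rfl h2, sum_const, smul_eq_mul]
  exact Nat.eq_of_mul_eq_mul_left hT.card_pos h3

open Classical in
theorem markov [Fintype G] (hL : Lvl H s f d T U σ ν) (hT : T.Nonempty) {τ : Ω → Ω}
    (hτ : ∀ x ∈ T, τ x ∈ T) (m : ℕ) :
    (m + 1) * ((HH H).filter (fun g => m < cnt s T τ g)).card ≤ (HH H).card := by
  rw [← sum_cnt hL hT hτ, mul_comm, ← smul_eq_mul, ← sum_const]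
  refine (sum_le_sum (f := fun _ => m + 1) (g := fun g => cnt s T τ g) ?_).trans
    (sum_le_sum_of_subset (filter_subset _ _))
  intro g hg
  exact (mem_filter.mp hg).2

/-- the constants -/
def cc (d : ℕ) : ℕ → ℕ → ℕ
  | 0, _ => 0
  | m + 1, M => (M + d) * (cc d m (M + d) + 1)

/-- a fixed vertex of the previous level -/
def FixU (s : G) (U : Finset Ω) (g : G) : Prop := ∃ u ∈ U, (s * g) • u = u

open Classical in
theorem drop_aux [Fintype G] (hL : Lvl H s f d T U σ ν) (hT : T.Nonempty) (m M : ℕ) :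
    ((HH H).filter (fun g => 1 ≤ cnt s T id g ∧ cnt s T id g ≤ m ∧ cnt s T σ g ≤ M)).card ≤
      cc d m M * ((HH H).filter (fun g => cnt s T id g = 0 ∧ FixU s U g)).card := by
  induction m generalizing M with
  | zero =>
    rw [cc, Nat.zero_mul, Nat.le_zero, card_eq_zero, filter_eq_empty_iff]
    rintro g - ⟨h1, h2, -⟩
    omega
  | succ m ih =>
    set S := (HH H).filter (fun g => 1 ≤ cnt s T id g ∧ cnt s T id g ≤ m + 1 ∧
      cnt s T σ g ≤ M) with hS
    set S1 := (HH H).filter (fun g => 1 ≤ cnt s T id g ∧ cnt s T id g ≤ m ∧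
      cnt s T σ g ≤ M + d) with hS1
    set S0 := (HH H).filter (fun g => cnt s T id g = 0 ∧ FixU s U g) with hS0
    -- a fixed vertex
    obtain ⟨x0, _⟩ := hT
    have hx : ∀ g, ∃ x, 1 ≤ cnt s T id g → x ∈ T ∧ (s * g) • x = x := by
      intro g
      by_cases h : 1 ≤ cnt s T id g
      · obtain ⟨x, hx⟩ := card_pos.mp h
        rw [mem_filter] at hx
        exact ⟨x, fun _ => hx⟩
      · exact ⟨x0, fun h' => absurd h' h⟩
    choose x hx using hx
    -- the modified element
    have hswap : ∀ g, 1 ≤ cnt s T id g → ∀ z ∈ T, (s * (g * ν (x g))) • z = z →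
        z ≠ x g ∧ (s * g) • z = z := by
      intro g hg z hz hfix
      obtain ⟨hxT, hxf⟩ := hx g hg
      rw [← mul_assoc, mul_smul] at hfix
      by_cases h1 : z = x g
      · exfalso
        rw [h1, hL.ν1 _ hxT] at hfix
        have h2 : (s * g) • σ (x g) = (s * g) • x g := by rw [hfix, hxf]
        exact hL.σne _ hxT (MulAction.injective _ h2)
      by_cases h2 : z = σ (x g)
      · exfalso
        rw [h2, hL.ν2 _ hxT, hxf] at hfix
        exact hL.σne _ hxT hfix.symm
      rw [hL.ν3 _ hxT z hz h1 h2] at hfix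
      exact ⟨h1, hfix⟩
    have hcnt : ∀ g, 1 ≤ cnt s T id g → cnt s T id (g * ν (x g)) + 1 ≤ cnt s T id g := by
      intro g hg
      obtain ⟨hxT, hxf⟩ := hx g hg
      have h1 : insert (x g) (T.filter (fun z => (s * (g * ν (x g))) • z = z)) ⊆
          T.filter (fun z => (s * g) • z = z) := by
        intro z hz
        rcases mem_insert.mp hz with rfl | hz
        · exact mem_filter.mpr ⟨hxT, hxf⟩
        · rw [mem_filter] at hz ⊢
          exact ⟨hz.1, (hswap g hg z hz.1 hz.2).2⟩
      have h2 := card_le_card h1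
      rw [card_insert_of_notMem] at h2
      · exact h2
      · intro hz
        rw [mem_filter] at hz
        exact (hswap g hg _ hz.1 hz.2).1 rfl
    have hcnt2 : ∀ g, 1 ≤ cnt s T id g → cnt s T σ (g * ν (x g)) ≤ cnt s T σ g + d := by
      intro g hg
      obtain ⟨hxT, hxf⟩ := hx g hg
      have h1 : T.filter (fun z => (s * (g * ν (x g))) • σ z = z) ⊆
          T.filter (fun z => (s * g) • σ z = z) ∪ T.filter (fun z => f z = f (x g)) := by
        intro z hz
        rw [mem_filter, ← mul_assoc, mul_smul] at hz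
        obtain ⟨hzT, hz⟩ := hz
        rw [mem_union, mem_filter, mem_filter]
        by_cases h1 : σ z = x g
        · right
          exact ⟨hzT, by rw [← hL.σf z hzT, h1]⟩
        by_cases h2 : σ z = σ (x g)
        · right
          exact ⟨hzT, by rw [← hL.σf z hzT, h2, hL.σf _ hxT]⟩
        left
        rw [hL.ν3 _ hxT _ (hL.σT z hzT) h1 h2] at hz
        exact ⟨hzT, hz⟩
      refine (card_le_card h1).trans ((card_union_le _ _).trans ?_)
      exact Nat.add_le_add_left (hL.sib (x g) hxT _ (filter_subset _ _)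
        (fun y hy => (mem_filter.mp hy).2)) _
    have hmaps : ∀ g ∈ S, g * ν (x g) ∈ S1 ∪ S0 := by
      intro g hg
      rw [hS, mem_filter] at hg
      obtain ⟨hgH, h1, h2, h3⟩ := hg
      obtain ⟨hxT, hxf⟩ := hx g h1
      have hH : g * ν (x g) ∈ HH H := mem_HH.mpr (H.mul_mem (mem_HH.mp hgH) (hL.νH _ hxT))
      have h4 := hcnt g h1
      rcases Nat.eq_zero_or_pos (cnt s T id (g * ν (x g))) with h5 | h5
      · apply mem_union_right
        rw [hS0, mem_filter]
        refine ⟨hH, h5, f (x g), hL.par _ hxT, ?_⟩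
        rw [← mul_assoc, mul_smul, ← hL.hf (ν (x g)), hL.ν1 _ hxT, hL.σf _ hxT, ← hL.hf, hxf]
      · apply mem_union_left
        rw [hS1, mem_filter]
        exact ⟨hH, h5, by omega, (hcnt2 g h1).trans (by omega)⟩
    have hfib : ∀ g' ∈ S1 ∪ S0, (S.filter (fun g => g * ν (x g) = g')).card ≤ M + d := by
      intro g' _
      rcases (S.filter (fun g => g * ν (x g) = g')).eq_empty_or_nonempty with h0 | ⟨g1, hg1⟩
      · rw [h0, card_empty]; exact Nat.zero_le _
      · have hb : cnt s T σ g' ≤ M + d := by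
          rw [mem_filter, hS, mem_filter] at hg1
          obtain ⟨⟨_, h1, _, h3⟩, rfl⟩ := hg1
          exact (hcnt2 g1 h1).trans (by omega)
        refine le_trans ?_ hb
        refine card_le_card_of_injOn x ?_ ?_
        · intro g hg
          rw [mem_coe, mem_filter, hS, mem_filter] at hg
          obtain ⟨⟨_, h1, _, _⟩, rfl⟩ := hg
          obtain ⟨hxT, hxf⟩ := hx g h1
          rw [mem_coe, mem_filter]
          refine ⟨hxT, ?_⟩
          rw [← mul_assoc, mul_smul, hL.ν2 _ hxT, hxf]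
        · intro a ha b hb hab
          rw [mem_coe, mem_filter] at ha hb
          have h1 : a * ν (x a) = b * ν (x b) := ha.2.trans hb.2.symm
          rw [hab] at h1
          exact mul_right_cancel h1
    have h1 := card_le_mul_card_image_of_maps_to hmaps (M + d) hfib
    have h2 : (S1 ∪ S0).card ≤ (cc d m (M + d) + 1) * S0.card :=
      calc (S1 ∪ S0).card ≤ S1.card + S0.card := card_union_le _ _
        _ ≤ cc d m (M + d) * S0.card + S0.card := Nat.add_le_add_right (ih (M + d)) _
        _ = _ := by ring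
    calc S.card ≤ (M + d) * (S1 ∪ S0).card := h1
      _ ≤ (M + d) * ((cc d m (M + d) + 1) * S0.card) := Nat.mul_le_mul_left _ h2
      _ = cc d (m + 1) M * S0.card := by rw [cc]; ring

open Classical in
/-- the number of elements with a fixed vertex of the level drops -/
theorem drop [Fintype G] (hL : Lvl H s f d T U σ ν) (hT : T.Nonempty) {ε : ℝ} (hε : 0 < ε) {m : ℕ}
    (hm : 4 / ε ≤ m + 1)
    (h : ε * (HH H).card ≤ ((HH H).filter (fun g => FixU s T g)).card) :
    ((HH H).filter (fun g => FixU s T g)).card + ε / (2 * (cc d m m + 1)) * (HH H).card ≤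
      ((HH H).filter (fun g => FixU s U g)).card := by
  set A := (HH H).filter (fun g => FixU s T g) with hA
  set D := (HH H).filter (fun g => FixU s U g) with hD
  set S0 := (HH H).filter (fun g => cnt s T id g = 0 ∧ FixU s U g) with hS0
  set S := (HH H).filter (fun g => 1 ≤ cnt s T id g ∧ cnt s T id g ≤ m ∧ cnt s T σ g ≤ m) with hS
  set P := (HH H).filter (fun g => m < cnt s T id g) with hP
  set Q := (HH H).filter (fun g => m < cnt s T σ g) with hQ
  have hfix : ∀ g, FixU s T g ↔ 1 ≤ cnt s T id g := by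
    intro g
    constructor
    · rintro ⟨x, hx, hxf⟩
      exact card_pos.mpr ⟨x, mem_filter.mpr ⟨hx, hxf⟩⟩
    · intro h
      obtain ⟨x, hx⟩ := card_pos.mp h
      rw [mem_filter] at hx
      exact ⟨x, hx⟩
  have h1 : A ⊆ S ∪ (P ∪ Q) := by
    intro g hg
    rw [hA, mem_filter, hfix] at hg
    rw [mem_union, mem_union, hS, hP, hQ, mem_filter, mem_filter, mem_filter]
    by_cases h2 : cnt s T id g ≤ m
    · by_cases h3 : cnt s T σ g ≤ m
      · exact Or.inl ⟨hg.1, hg.2, h2, h3⟩
      · exact Or.inr (Or.inr ⟨hg.1, not_le.mp h3⟩)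
    · exact Or.inr (Or.inl ⟨hg.1, not_le.mp h2⟩)
  have h2 : A.card ≤ S.card + (P.card + Q.card) :=
    (card_le_card h1).trans ((card_union_le _ _).trans (Nat.add_le_add_left (card_union_le _ _) _))
  have h3 : A.card + S0.card ≤ D.card := by
    rw [← card_union_of_disjoint]
    · apply card_le_card
      intro g hg
      rcases mem_union.mp hg with hg | hg
      · rw [hA, mem_filter] at hg
        obtain ⟨hgH, x, hx, hxf⟩ := hg
        rw [hD, mem_filter]
        exact ⟨hgH, f x, hL.par x hx, by rw [← hL.hf, hxf]⟩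
      · rw [hS0, mem_filter] at hg
        rw [hD, mem_filter]
        exact ⟨hg.1, hg.2.2⟩
    · rw [disjoint_left]
      intro g hg hg'
      rw [hA, mem_filter, hfix] at hg
      rw [hS0, mem_filter] at hg'
      omega
  have h4 := drop_aux hL hT m m
  have h5 := markov hL hT (τ := id) (fun x hx => hx) m
  have h6 := markov hL hT (τ := σ) hL.σT m
  have hn0 : (0 : ℝ) ≤ (HH H).card := Nat.cast_nonneg _
  have h2' : (A.card : ℝ) ≤ S.card + (P.card + Q.card) := by exact_mod_cast h2
  have h3' : (A.card : ℝ) + S0.card ≤ D.card := by exact_mod_cast h3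
  have h4' : (S.card : ℝ) ≤ cc d m m * S0.card := by exact_mod_cast h4
  have h5' : ((m : ℝ) + 1) * P.card ≤ (HH H).card := by exact_mod_cast h5
  have h6' : ((m : ℝ) + 1) * Q.card ≤ (HH H).card := by exact_mod_cast h6
  have hm' : 4 ≤ ((m : ℝ) + 1) * ε := by rwa [div_le_iff₀ hε] at hm
  have hP' : (P.card : ℝ) ≤ ε / 4 * (HH H).card := by
    have h7 : (0 : ℝ) ≤ P.card := Nat.cast_nonneg _
    nlinarith
  have hQ' : (Q.card : ℝ) ≤ ε / 4 * (HH H).card := by
    have h7 : (0 : ℝ) ≤ Q.card := Nat.cast_nonneg _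
    nlinarith
  have h8 : ε / 2 * (HH H).card ≤ cc d m m * S0.card := by linarith
  have h9 : (cc d m m : ℝ) * S0.card ≤ (cc d m m + 1) * S0.card := by
    have : (0 : ℝ) ≤ S0.card := Nat.cast_nonneg _
    linarith
  have h10 : ε / (2 * (cc d m m + 1)) * (HH H).card ≤ S0.card := by
    have hpos : (0 : ℝ) < 2 * (cc d m m + 1) := by positivity
    rw [div_mul_eq_mul_div, div_le_iff₀ hpos]
    linarith
  linarith

end level

open Classical in
/-- **Few fixed vertices.** -/
theorem kill (d : ℕ) (ε : ℝ) (hε : 0 < ε) : ∃ B : ℕ, ∀ (G Ω : Type) [Group G] [Fintype G]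
    [MulAction G Ω] (H : Subgroup G) (s : G) (f : Ω → Ω) (T : ℕ → Finset Ω)
    (σ : ℕ → Ω → Ω) (ν : ℕ → Ω → G),
    (∀ h < B, (T (h + 1)).Nonempty ∧ Lvl H s f d (T (h + 1)) (T h) (σ h) (ν h)) →
    (((HH H).filter (fun g => FixU s (T B) g)).card : ℝ) ≤ ε * (HH H).card := by
  obtain ⟨m, hm⟩ := exists_nat_ge (4 / ε)
  have hm' : 4 / ε ≤ (m : ℝ) + 1 := by linarith
  set δ : ℝ := ε / (2 * (cc d m m + 1)) with hδ
  have hδ0 : 0 < δ := by positivity
  obtain ⟨B, hB⟩ := exists_nat_gt (1 / δ)
  refine ⟨B, ?_⟩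
  intro G Ω _ _ _ H s f T σ ν hT
  by_contra hcon
  push Not at hcon
  set t : ℕ → ℕ := fun h => ((HH H).filter (fun g => FixU s (T h) g)).card with ht
  have hpos : (0 : ℝ) < (HH H).card := by
    have : (1 : G) ∈ HH H := mem_HH.mpr H.one_mem
    exact_mod_cast card_pos.mpr ⟨1, this⟩
  have key : ∀ k ≤ B, ε * (HH H).card + k * (δ * (HH H).card) ≤ t (B - k) := by
    intro k
    induction k with
    | zero =>
      intro _
      simp only [Nat.cast_zero, zero_mul, add_zero, Nat.sub_zero]
      exact hcon.le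
    | succ k ih =>
      intro hk
      have h1 := ih (by omega)
      obtain ⟨h2, h3⟩ := hT (B - (k + 1)) (by omega)
      rw [show B - (k + 1) + 1 = B - k by omega] at h2 h3
      have h4 := drop h3 h2 hε hm' (le_trans (by
        have : (0 : ℝ) ≤ k * (δ * (HH H).card) := by positivity
        linarith) h1)
      push_cast
      have h5 : (t (B - k) : ℝ) + δ * (HH H).card ≤ t (B - (k + 1)) := h4
      linarith
  have h1 := key B le_rfl
  rw [Nat.sub_self] at h1
  have h2 : t 0 ≤ (HH H).card := card_le_card (filter_subset _ _)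
  have h2' : (t 0 : ℝ) ≤ (HH H).card := by exact_mod_cast h2
  rw [div_lt_iff₀ hδ0] at hB
  have h3 : (HH H).card < B * (δ * (HH H).card) := by
    have := mul_lt_mul_of_pos_right hB hpos
    linarith
  have h4 : 0 < ε * (HH H).card := mul_pos hε hpos
  linarith

end Pool.Agent.Arb2
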