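import Pool.Agent.Arb2.SwapL
import Pool.Agent.Arb2.Kill

/-!
# Counting automorphisms without fixed points
-/

set_option autoImplicit false

open Polynomial NumberField IsDedekindDomain
open scoped WithZero

namespace Pool.Agent.Arb2

open Pool.Agent.TameArb

section abs

variable {G Ω : Type} [Group G] [Fintype G] [MulAction G Ω]

open Classical in
/-- the union bound -/
theorem count_bound (H : Subgroup G) (s0 : G) (W : Finset Ω) (q C : ℕ) (hq : 0 < q)
    (hW : W.card ≤ q) (T : Ω → Finset Ω) (ε : ℝ) (hε : 0 ≤ ε)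
    (hH : ∀ w ∈ W, q * (HH (H ⊓ MulAction.stabilizer G w)).card ≤ C * (HH H).card)
    (htop : ∀ w ∈ W, ∀ y ∈ T w, ∀ g : G, g • y = y → g • w = w)
    (hkill : ∀ w ∈ W, ∀ s : G, s • w = w →
      (((HH (H ⊓ MulAction.stabilizer G w)).filter (fun g => FixU s (T w) g)).card : ℝ) ≤
        ε * (HH (H ⊓ MulAction.stabilizer G w)).card) :
    (((HH H).filter (fun g => ∃ w ∈ W, FixU s0 (T w) g)).card : ℝ) ≤ ε * C * (HH H).card := by
  set A : Ω → Finset G := fun w => (HH H).filter (fun g => FixU s0 (T w) g) with hA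
  -- the bound for one point
  have hone : ∀ w ∈ W, ((A w).card : ℝ) ≤ ε * (HH (H ⊓ MulAction.stabilizer G w)).card := by
    intro w hw
    rcases (A w).eq_empty_or_nonempty with h0 | ⟨h, hh⟩
    · rw [h0, Finset.card_empty]
      push_cast
      positivity
    · have hh' := Finset.mem_filter.mp hh
      obtain ⟨y, hy, hyf⟩ := hh'.2
      have hsw : (s0 * h) • w = w := htop w hw y hy _ hyf
      refine le_trans ?_ (hkill w hw (s0 * h) hsw)
      norm_cast
      refine Finset.card_le_card_of_injOn (fun g => h⁻¹ * g) ?_ ?_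
      · intro g hg
        obtain ⟨hgH, y', hy', hyf'⟩ := Finset.mem_filter.mp (Finset.mem_coe.mp hg)
        have hgw : (s0 * g) • w = w := htop w hw y' hy' _ hyf'
        rw [Finset.mem_coe, Finset.mem_filter, mem_HH, Subgroup.mem_inf,
          MulAction.mem_stabilizer_iff]
        refine ⟨⟨H.mul_mem (H.inv_mem (mem_HH.mp hh'.1)) (mem_HH.mp hgH), ?_⟩, y', hy', ?_⟩
        · have h2 : (s0 * g) • w = (s0 * h) • w := by rw [hgw, hsw]
          rw [mul_smul, mul_smul] at h2
          have h3 := MulAction.injective s0 h2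
          rw [mul_smul, h3, inv_smul_smul]
        · have h2 : s0 * h * (h⁻¹ * g) = s0 * g := by group
          rw [h2]
          exact hyf'
      · intro a _ b _ hab
        exact mul_left_cancel hab
  have h1 : (HH H).filter (fun g => ∃ w ∈ W, FixU s0 (T w) g) ⊆ W.biUnion A := by
    intro g hg
    obtain ⟨hgH, w, hw, h⟩ := Finset.mem_filter.mp hg
    exact Finset.mem_biUnion.mpr ⟨w, hw, Finset.mem_filter.mpr ⟨hgH, h⟩⟩
  have h2 : ((((HH H).filter (fun g => ∃ w ∈ W, FixU s0 (T w) g)).card : ℕ) : ℝ) ≤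
      ∑ w ∈ W, ((A w).card : ℝ) := by
    rw [← Nat.cast_sum]
    exact_mod_cast (Finset.card_le_card h1).trans Finset.card_biUnion_le
  refine h2.trans ((Finset.sum_le_sum hone).trans ?_)
  have hqR : (0 : ℝ) < q := by exact_mod_cast hq
  have h3 : ∀ w ∈ W, ε * ((HH (H ⊓ MulAction.stabilizer G w)).card : ℝ) ≤
      ε * (C * (HH H).card / q) := by
    intro w hw
    refine mul_le_mul_of_nonneg_left ?_ hε
    rw [le_div_iff₀ hqR]
    have h4 := hH w hw
    have h5 : (q : ℝ) * (HH (H ⊓ MulAction.stabilizer G w)).card ≤ C * (HH H).card := by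
      exact_mod_cast h4
    linarith
  refine (Finset.sum_le_sum h3).trans ?_
  rw [Finset.sum_const, nsmul_eq_mul]
  have h4 : (W.card : ℝ) ≤ q := by exact_mod_cast hW
  have h5 : (0 : ℝ) ≤ ε * (C * (HH H).card / q) := by positivity
  calc (W.card : ℝ) * (ε * (C * (HH H).card / q)) ≤ q * (ε * (C * (HH H).card / q)) :=
        mul_le_mul_of_nonneg_right h4 h5
    _ = ε * C * (HH H).card := by field_simp

open Classical in
/-- partition by the image of a point -/
theorem card_orbit (H : Subgroup G) (w : Ω) (O : Finset Ω) (hO1 : ∀ g ∈ H, g • w ∈ O)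
    (hO2 : ∀ z ∈ O, ∃ k ∈ H, k • w = z) :
    O.card * (HH (H ⊓ MulAction.stabilizer G w)).card = (HH H).card := by
  have h1 : (HH H).card = ∑ z ∈ O, ((HH H).filter (fun g => g • w = z)).card :=
    Finset.card_eq_sum_card_fiberwise (fun g hg => hO1 g (mem_HH.mp hg))
  rw [h1, ← smul_eq_mul, ← Finset.sum_const]
  refine Finset.sum_congr rfl fun z hz => ?_
  obtain ⟨k, hk, hkz⟩ := hO2 z hz
  refine Finset.card_bij (fun g _ => k * g) ?_ ?_ ?_
  · intro g hg
    rw [mem_HH, Subgroup.mem_inf, MulAction.mem_stabilizer_iff] at hg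
    rw [Finset.mem_filter]
    exact ⟨mem_HH.mpr (H.mul_mem hk hg.1), by rw [mul_smul, hg.2, hkz]⟩
  · intro a _ b _ hab
    exact mul_left_cancel hab
  · intro g hg
    rw [Finset.mem_filter] at hg
    refine ⟨k⁻¹ * g, ?_, by group⟩
    rw [mem_HH, Subgroup.mem_inf, MulAction.mem_stabilizer_iff]
    refine ⟨H.mul_mem (H.inv_mem hk) (mem_HH.mp hg.1), ?_⟩
    rw [mul_smul, hg.2, ← hkz, inv_smul_smul]

end abs

section fib

variable {K : Type} [Field K] {L : Type} [Field L] [Algebra K L]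

/-- the fibre -/
noncomputable def fib (φ : K[X]) (hd : 2 ≤ φ.natDegree) (m : ℕ) (y : L) : Finset L :=
  (exists_fibre φ hd m y).choose

theorem mem_fib {φ : K[X]} (hd : 2 ≤ φ.natDegree) {m : ℕ} {y x : L} :
    x ∈ fib φ hd m y ↔ (ph φ)^[m] x = y := (exists_fibre φ hd m y).choose_spec.2 x

theorem card_fib {φ : K[X]} (hd : 2 ≤ φ.natDegree) {m : ℕ} {y : L} :
    (fib φ hd m y).card ≤ φ.natDegree ^ m := (exists_fibre φ hd m y).choose_spec.1

end fib

section gal

variable {K E L : Type} [Field K] [Field E] [Field L] [Algebra K E] [Algebra K L] [Algebra E L]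
  [IsScalarTower K E L]

/-- the automorphisms over `E` -/
def HE (K E L : Type) [Field K] [Field E] [Field L] [Algebra K L] [Algebra E L] :
    Subgroup (L ≃ₐ[K] L) where
  carrier := {g | ∀ x : E, g (algebraMap E L x) = algebraMap E L x}
  mul_mem' := by
    intro a b ha hb x
    rw [AlgEquiv.mul_apply, hb x, ha x]
  one_mem' := fun x => rfl
  inv_mem' := by
    intro a ha x
    have h1 := ha x
    calc a⁻¹ (algebraMap E L x) = a⁻¹ (a (algebraMap E L x)) := by rw [h1]
      _ = _ := a.symm_apply_apply _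

omit [Algebra K E] [IsScalarTower K E L] in
theorem mem_HE {g : L ≃ₐ[K] L} : g ∈ HE K E L ↔ ∀ x : E, g (algebraMap E L x) = algebraMap E L x :=
  Iff.rfl

/-- conjugate elements -/
theorem exists_HE [Normal E L] {x y : L} (h : minpoly E x = minpoly E y) :
    ∃ g ∈ HE K E L, g x = y := by
  obtain ⟨s, hs⟩ := (isConjRoot_iff_exists_algEquiv (K := E) (x := y) (y := x)).mp h.symm
  exact ⟨s.restrictScalars K, fun z => s.commutes z, hs⟩

omit [Algebra K E] [IsScalarTower K E L] in
theorem minpoly_HE {g : L ≃ₐ[K] L} (hg : g ∈ HE K E L) (x : L) :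
    minpoly E (g x) = minpoly E x := by
  let s : L ≃ₐ[E] L := { g with commutes' := hg }
  exact minpoly.algEquiv_eq s x

open Classical in
/-- orbit and stabilizer -/
theorem card_HE [CharZero E] [FiniteDimensional K L] [FiniteDimensional E L] [Normal E L]
    (w : L) : (minpoly E w).natDegree *
      (HH (HE K E L ⊓ MulAction.stabilizer (L ≃ₐ[K] L) w)).card = (HH (HE K E L)).card := by
  have hint : ∀ y : L, IsIntegral E y := fun y => Algebra.IsIntegral.isIntegral y
  have hsep : (minpoly E w).Separable := (minpoly.irreducible (hint w)).separable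
  have hspl : ((minpoly E w).map (algebraMap E L)).Splits := Normal.splits inferInstance w
  have hcr := card_rootSet_eq_natDegree hsep hspl
  simp_rw [rootSet_def, Finset.coe_sort_coe, Fintype.card_coe] at hcr
  rw [← hcr]
  have hmem : ∀ y : L, y ∈ ((minpoly E w).aroots L).toFinset ↔ minpoly E w = minpoly E y := by
    intro y
    rw [Multiset.mem_toFinset, mem_aroots]
    constructor
    · rintro ⟨-, h⟩
      exact minpoly.eq_of_irreducible_of_monic (minpoly.irreducible (hint w)) h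
        (minpoly.monic (hint w))
    · intro h
      exact ⟨minpoly.ne_zero (hint w), by rw [h]; exact minpoly.aeval E y⟩
  apply card_orbit
  · intro g hg
    rw [hmem]
    exact (minpoly_HE hg w).symm
  · intro z hz
    rw [hmem] at hz
    exact exists_HE hz

/-- the data of one level -/
theorem exists_lvl [Normal E L] {φ : K[X]} (hd : 2 ≤ φ.natDegree) (w : L) (h : ℕ)
    (htr : ∀ y y' : L, (ph φ)^[h + 1] y = w → (ph φ)^[h + 1] y' = w →
      minpoly E y = minpoly E y')
    (hsw : ∃ t ∈ HE K E L, t w = w ∧ ∃ y1 y2 : L, (ph φ)^[h + 1] y1 = w ∧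
      (ph φ)^[h + 1] y2 = w ∧ y1 ≠ y2 ∧ ph φ y1 = ph φ y2 ∧ t y1 = y2 ∧ t y2 = y1 ∧
      ∀ z, (ph φ)^[h + 1] z = w → z ≠ y1 → z ≠ y2 → t z = z)
    (s : L ≃ₐ[K] L) (hs : s • w = w) :
    ∃ (σ : L → L) (ν : L → L ≃ₐ[K] L), Lvl (HE K E L ⊓ MulAction.stabilizer (L ≃ₐ[K] L) w) s
      (ph φ) φ.natDegree (fib φ hd (h + 1) w) (fib φ hd h w) σ ν := by
  classical
  obtain ⟨t, htH, htw, y1, y2, hy1, hy2, hne, hφ, ht1, ht2, ht3⟩ := hsw
  have hit : ∀ (g : L ≃ₐ[K] L) (n : ℕ) (x : L), g ((ph φ)^[n] x) = (ph φ)^[n] (g x) :=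
    fun g n x => iter_hom φ (g : L →ₐ[K] L) n x
  have hf : ∀ (g : L ≃ₐ[K] L) (x : L), g (ph φ x) = ph φ (g x) := fun g x => hit g 1 x
  have htrg : ∀ y y' : L, (ph φ)^[h + 1] y = w → (ph φ)^[h + 1] y' = w →
      ∃ g ∈ HE K E L ⊓ MulAction.stabilizer (L ≃ₐ[K] L) w, g • y = y' := by
    intro y y' hy hy'
    obtain ⟨g, hg, hgy⟩ := exists_HE (K := K) (htr y y' hy hy')
    refine ⟨g, Subgroup.mem_inf.mpr ⟨hg, ?_⟩, hgy⟩
    rw [MulAction.mem_stabilizer_iff]
    change g w = w
    conv_lhs => rw [← hy]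
    rw [hit, hgy, hy']
  have hinv : ∀ g ∈ HE K E L ⊓ MulAction.stabilizer (L ≃ₐ[K] L) w, g w = w := by
    intro g hg
    have h2 := (Subgroup.mem_inf.mp hg).2
    rw [MulAction.mem_stabilizer_iff] at h2
    exact h2
  -- conjugates of the transposition
  have hconj : ∀ x : L, ∃ (x' : L) (n : L ≃ₐ[K] L), (ph φ)^[h + 1] x = w →
      n ∈ HE K E L ⊓ MulAction.stabilizer (L ≃ₐ[K] L) w ∧ (ph φ)^[h + 1] x' = w ∧ x' ≠ x ∧
      ph φ x' = ph φ x ∧ n x = x' ∧ n x' = x ∧
      ∀ z, (ph φ)^[h + 1] z = w → z ≠ x → z ≠ x' → n z = z := by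
    intro x
    by_cases hx : (ph φ)^[h + 1] x = w
    · obtain ⟨g, hg, hgx⟩ := htrg y1 x hy1 hx
      have hgx' : g y1 = x := hgx
      have htm : t ∈ HE K E L ⊓ MulAction.stabilizer (L ≃ₐ[K] L) w := by
        refine Subgroup.mem_inf.mpr ⟨htH, ?_⟩
        rw [MulAction.mem_stabilizer_iff]
        exact htw
      have hgi : g⁻¹ x = y1 := by
        rw [← hgx']; exact g.symm_apply_apply _
      have hgi2 : ∀ z, g⁻¹ (g z) = z := fun z => g.symm_apply_apply z
      have hgi3 : ∀ z, g (g⁻¹ z) = z := fun z => g.apply_symm_apply z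
      refine ⟨g y2, g * t * g⁻¹, fun _ => ⟨?_, ?_, ?_, ?_, ?_, ?_, ?_⟩⟩
      · exact Subgroup.mul_mem _ (Subgroup.mul_mem _ hg htm) (Subgroup.inv_mem _ hg)
      · rw [← hit, hy2, hinv g hg]
      · intro h2
        rw [← hgx'] at h2
        exact hne (g.injective h2).symm
      · rw [← hf, ← hφ, hf, hgx']
      · rw [AlgEquiv.mul_apply, AlgEquiv.mul_apply, hgi, ht1]
      · rw [AlgEquiv.mul_apply, AlgEquiv.mul_apply, hgi2, ht2, hgx']
      · intro z hz hz1 hz2
        rw [AlgEquiv.mul_apply, AlgEquiv.mul_apply, ht3, hgi3]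
        · rw [← hit, hz]
          exact hinv _ (Subgroup.inv_mem _ hg)
        · intro h2
          apply hz1
          rw [← hgi3 z, h2, hgx']
        · intro h2
          apply hz2
          rw [← hgi3 z, h2]
    · exact ⟨0, 1, fun h2 => absurd h2 hx⟩
  choose σ ν hσν using hconj
  refine ⟨σ, ν, ?_⟩
  have hmem : ∀ x, x ∈ fib φ hd (h + 1) w ↔ (ph φ)^[h + 1] x = w := fun x => mem_fib hd
  constructor
  · intro g x
    exact (hf g x).symm
  · intro x hx
    rw [hmem] at hx
    rw [mem_fib, ← hx, Function.iterate_succ_apply]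
  · intro g hg x hx
    rw [hmem] at hx ⊢
    change (ph φ)^[h + 1] (g x) = w
    rw [← hit, hx, hinv g hg]
  · intro x hx
    rw [hmem] at hx ⊢
    change (ph φ)^[h + 1] (s⁻¹ x) = w
    rw [← hit, hx]
    have h2 : s⁻¹ (s w) = w := s.symm_apply_apply w
    have h3 : s w = w := hs
    rw [h3] at h2
    exact h2
  · intro x hx y hy
    rw [hmem] at hx hy
    exact htrg x y hx hy
  · intro x _ S _ hS2
    have h2 : S ⊆ fib φ hd 1 (ph φ x) := by
      intro y hy
      rw [mem_fib, Function.iterate_one]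
      exact hS2 y hy
    refine (Finset.card_le_card h2).trans ?_
    have h3 := card_fib (L := L) hd (m := 1) (y := ph φ x)
    rwa [pow_one] at h3
  · intro x hx
    exact (hσν x ((hmem x).mp hx)).1
  · intro x hx
    rw [hmem]
    exact (hσν x ((hmem x).mp hx)).2.1
  · intro x hx
    exact (hσν x ((hmem x).mp hx)).2.2.1
  · intro x hx
    exact (hσν x ((hmem x).mp hx)).2.2.2.1
  · intro x hx
    exact (hσν x ((hmem x).mp hx)).2.2.2.2.1
  · intro x hx
    exact (hσν x ((hmem x).mp hx)).2.2.2.2.2.1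
  · intro x hx z hz
    exact (hσν x ((hmem x).mp hx)).2.2.2.2.2.2 z ((hmem z).mp hz)

end gal

end Pool.Agent.Arb2
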