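import Pool.Agent.Arb2.Auto
import Pool.Agent.Arb.Degree

/-!
# Eventually stable points
-/

set_option autoImplicit false

open Polynomial NumberField IsDedekindDomain Module
open scoped WithZero

namespace Pool.Agent.Arb2

open Pool.Agent.TameArb

/-- the number of distinct irreducible factors is bounded -/
def EvSt {K : Type} [Field K] (φ : K[X]) (γ : K) : Prop :=
  ∃ A : ℕ, ∀ n, ∀ s : Finset K[X],
    (∀ p ∈ s, Irreducible p ∧ p.Monic ∧ p ∣ itp φ n - C γ) → s.card ≤ A

theorem grow_of_evSt {K : Type} [Field K] [CharZero K] {φ : K[X]} (hd : 2 ≤ φ.natDegree) {γ : K}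
    (hγ : ∀ n, 0 < n → (ph φ)^[n] γ ≠ γ) (h : EvSt φ γ) : ∃ A, Grow φ γ A := by
  classical
  obtain ⟨A, hA⟩ := h
  have hPx : ∀ (n : ℕ) (x : AlgebraicClosure K),
      (ph φ)^[n] x = algebraMap K (AlgebraicClosure K) γ → aeval x (itp φ n - C γ) = 0 := by
    intro n x hx
    rw [map_sub, itp_aeval, aeval_C, hx, sub_self]
  obtain ⟨n1, h1⟩ := stab' (E := K) (Ω := AlgebraicClosure K) hd γ A (by
    intro n S hS
    apply hA n S
    intro p hp
    obtain ⟨x, hx, rfl⟩ := hS p hp
    have hint : IsIntegral K x := Algebra.IsIntegral.isIntegral x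
    exact ⟨minpoly.irreducible hint, minpoly.monic hint, minpoly.dvd K x (hPx n x hx)⟩)
  obtain ⟨n2, h2⟩ := exists_noncrit hd hγ
  set m := max n1 n2 with hm
  have h3 := stab_degree (E := K) (Ω := AlgebraicClosure K) hd γ (n1 := m)
    (fun n hn => h1 n ((le_max_left _ _).trans hn))
    (fun n hn w hw => h2 n ((le_max_right _ _).trans hn) (AlgebraicClosure K) w hw)
  refine ⟨φ.natDegree ^ m, ?_⟩
  intro n p hp hpd
  have hpdeg : 1 ≤ p.natDegree := hp.natDegree_pos
  rcases Nat.lt_or_ge n m with hnm | hnm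
  · calc φ.natDegree ^ n ≤ φ.natDegree ^ m := Nat.pow_le_pow_right (by omega) hnm.le
      _ = φ.natDegree ^ m * 1 := (mul_one _).symm
      _ ≤ _ := Nat.mul_le_mul_left _ hpdeg
  · obtain ⟨k, rfl⟩ : ∃ k, n = m + k := ⟨n - m, by omega⟩
    obtain ⟨x, hx⟩ := IsAlgClosed.exists_aeval_eq_zero (AlgebraicClosure K) p
      (by rw [degree_eq_natDegree hp.ne_zero]; exact_mod_cast (by omega : p.natDegree ≠ 0))
    have hx2 : (ph φ)^[m + k] x = algebraMap K (AlgebraicClosure K) γ := by
      obtain ⟨q, hq⟩ := hpd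
      have h4 : aeval x (itp φ (m + k) - C γ) = 0 := by
        rw [hq, map_mul, hx, zero_mul]
      rw [map_sub, itp_aeval, aeval_C, sub_eq_zero] at h4
      exact h4
    have hint : IsIntegral K x := Algebra.IsIntegral.isIntegral x
    have h4 : (minpoly K x).natDegree = p.natDegree := by
      have h5 : minpoly K x ∣ p := minpoly.dvd K x hx
      have h6 : Associated (minpoly K x) p :=
        (minpoly.irreducible hint).associated_of_dvd hp h5
      exact natDegree_eq_of_degree_eq (degree_eq_degree_of_associated h6)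
    have h5 := h3 m le_rfl k x hx2
    rw [← h4, h5, pow_add]
    have hint2 : IsIntegral K ((ph φ)^[k] x) := Algebra.IsIntegral.isIntegral _
    have h6 : 1 ≤ (minpoly K ((ph φ)^[k] x)).natDegree := minpoly.natDegree_pos hint2
    calc φ.natDegree ^ m * φ.natDegree ^ k = φ.natDegree ^ m * (φ.natDegree ^ k * 1) := by ring
      _ ≤ _ := Nat.mul_le_mul_left _ (Nat.mul_le_mul_left _ h6)

/-- the growth condition from bounds of the degrees of fields -/
theorem grow_of_fields {K : Type} [Field K] [NumberField K] {φ : K[X]} {γ : K} {A : ℕ}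
    (h : ∀ (E : Type) [Field E] [NumberField E] [Algebra K E] (x : E) (n : ℕ),
      (ph φ)^[n] x = algebraMap K E γ → φ.natDegree ^ n ≤ A * finrank K E) : Grow φ γ A := by
  intro n p hp hpd
  have hf : Fact (Irreducible p) := ⟨hp⟩
  have hfd : FiniteDimensional K (AdjoinRoot p) := (AdjoinRoot.powerBasis hp.ne_zero).finite
  have hnf : NumberField (AdjoinRoot p) := NumberField.of_module_finite K _
  have hfin : finrank K (AdjoinRoot p) = p.natDegree := by
    rw [(AdjoinRoot.powerBasis hp.ne_zero).finrank, AdjoinRoot.powerBasis_dim]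
  rw [← hfin]
  apply h (AdjoinRoot p) (AdjoinRoot.root p) n
  obtain ⟨q, hq⟩ := hpd
  have h4 : aeval (AdjoinRoot.root p) (itp φ n - C γ) = 0 := by
    have h5 : aeval (AdjoinRoot.root p) p = 0 := by
      rw [AdjoinRoot.aeval_eq, AdjoinRoot.mk_self]
    rw [hq, map_mul, h5, zero_mul]
  rw [map_sub, itp_aeval, aeval_C, sub_eq_zero] at h4
  exact h4

/-- points that are not integral at a good prime -/
theorem grow_of_nonint {K : Type} [Field K] [NumberField K] {φ : K[X]}
    {γ : K} (v : HeightOneSpectrum (𝓞 K)) (hv : Good (v.valuation K) φ)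
    (hγ : 1 < v.valuation K γ) : ∃ A, Grow φ γ A := by
  have hγ0 : v.valuation K γ ≠ 0 := (lt_trans zero_lt_one hγ).ne'
  refine ⟨(WithZero.log (v.valuation K γ)).toNat, grow_of_fields ?_⟩
  intro E _ _ _ x n hx
  obtain ⟨W, e, he0, he, hval⟩ := Pool.Agent.Arb.exists_above v E
  have ho : Over (v.valuation K) (W.valuation E) e := ⟨he0.ne', hval⟩
  have hx1 : ∀ k, 1 < W.valuation E ((ph φ)^[k] x) →
      W.valuation E ((ph φ)^[k] x) = W.valuation E x ^ φ.natDegree ^ k := by
    intro k
    induction k with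
    | zero => intro _; simp
    | succ k ih =>
      intro hk
      rw [Function.iterate_succ_apply'] at hk ⊢
      have h1 : 1 < W.valuation E ((ph φ)^[k] x) := by
        by_contra hcon
        push Not at hcon
        exact absurd hk (not_lt.mpr (ho.good_le hv hcon))
      rw [ho.gt hv h1, ih h1, ← pow_mul, pow_succ]
  have hW : 1 < W.valuation E (algebraMap K E γ) := by
    rw [← hval]; exact one_lt_pow₀ hγ he0.ne'
  have h2 := hx1 n (by rw [hx]; exact hW)
  rw [hx, ← hval] at h2
  have hx0 : W.valuation E x ≠ 0 := by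
    intro h0
    rw [h0] at h2
    have h3 : v.valuation K γ ^ e ≠ 0 := pow_ne_zero _ hγ0
    rw [h2] at h3
    rcases Nat.eq_zero_or_pos (φ.natDegree ^ n) with h4 | h4
    · rw [h4, pow_zero] at h2
      exact absurd h2 (one_lt_pow₀ hγ he0.ne').ne'
    · exact h3 (zero_pow h4.ne')
  rw [← WithZero.exp_log hγ0, ← WithZero.exp_log hx0, ← WithZero.exp_nsmul,
    ← WithZero.exp_nsmul, WithZero.exp_inj] at h2
  simp only [nsmul_eq_mul] at h2
  set a := WithZero.log (v.valuation K γ) with ha
  set b := WithZero.log (W.valuation E x) with hb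
  have ha0 : 0 < a := by
    have h3 : WithZero.exp (0 : ℤ) < v.valuation K γ := by simpa using hγ
    rw [← WithZero.exp_log hγ0, WithZero.exp_lt_exp] at h3
    exact h3
  have hb0 : 0 < b := by
    have h3 : 0 < (e : ℤ) * a := by positivity
    rw [h2] at h3
    by_contra hcon
    push Not at hcon
    have h4 : ((φ.natDegree ^ n : ℕ) : ℤ) * b ≤ 0 :=
      mul_nonpos_of_nonneg_of_nonpos (by positivity) hcon
    linarith
  have h3 : ((φ.natDegree ^ n : ℕ) : ℤ) ≤ ((a.toNat * finrank K E : ℕ) : ℤ) := by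
    rw [Nat.cast_mul a.toNat, Int.toNat_of_nonneg ha0.le]
    calc ((φ.natDegree ^ n : ℕ) : ℤ) = ((φ.natDegree ^ n : ℕ) : ℤ) * 1 := (mul_one _).symm
      _ ≤ ((φ.natDegree ^ n : ℕ) : ℤ) * b := by
          apply mul_le_mul_of_nonneg_left (by omega) (by positivity)
      _ = e * a := h2.symm
      _ ≤ finrank K E * a := by
          apply mul_le_mul_of_nonneg_right (by exact_mod_cast he) ha0.le
      _ = a * finrank K E := mul_comm _ _
  exact_mod_cast h3

end Pool.Agent.Arb2
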