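import Pool.Agent.Arb2.Auto
import Pool.Agent.TameArb.OnePrime

/-!
# From automorphisms without fixed points to primes
-/

set_option autoImplicit false

open Polynomial NumberField IsDedekindDomain Module
open scoped WithZero

namespace Pool.Agent.Arb2

open Pool.Agent.TameArb

theorem primes_of_auto {K L : Type} [Field K] [NumberField K] [Field L] [NumberField L]
    [Algebra K L] (φ : K[X]) (hd : 2 ≤ φ.natDegree) (Γ : Finset K) (lev : K → ℕ)
    (hsp : ∀ γ ∈ Γ, ((itp φ (lev γ)).map (algebraMap K L) - C (algebraMap K L γ)).Splits)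
    (g : L ≃ₐ[K] L)
    (hg : ∀ γ ∈ Γ, ∀ z : L, (ph φ)^[lev γ] z = algebraMap K L γ → g z ≠ z) :
    PosDens (GP φ Γ) := by
  classical
  -- the order of `g`
  have hfinG : Finite (L ≃ₐ[K] L) := inferInstance
  obtain ⟨N, hN, hgN⟩ : ∃ N, 0 < N ∧ g ^ N = 1 :=
    ⟨orderOf g, orderOf_pos g, pow_orderOf_eq_one g⟩
  have hdens : PosDens {v : HeightOneSpectrum (𝓞 K) | ∃ w : HeightOneSpectrum (𝓞 L),
      w.under (𝓞 K) = v ∧ ∀ z : L, w.valuation L (g z) = w.valuation L z} :=
    fixed_primes K L g N hN hgN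
  -- the bad primes
  set B : Set (HeightOneSpectrum (𝓞 K)) := {v | ¬ Good (v.valuation K) φ} ∪
    ((⋃ γ ∈ Γ, {v | ¬ v.valuation K γ ≤ 1}) ∪
      (fun w : HeightOneSpectrum (𝓞 L) => w.under (𝓞 K)) ''
        (⋃ γ ∈ Γ, ⋃ x ∈ fib φ hd (lev γ) (algebraMap K L γ),
          {w | w.valuation L (g x - x) < 1})) with hB
  have hBfin : B.Finite := by
    refine (finite_bad hd).union (Set.Finite.union ?_ (Set.Finite.image _ ?_))
    · exact Set.Finite.biUnion (Finset.finite_toSet Γ) fun γ _ => finite_gt γ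
    · refine Set.Finite.biUnion (Finset.finite_toSet Γ) fun γ hγ => ?_
      refine Set.Finite.biUnion (Finset.finite_toSet _) fun x hx => ?_
      apply finite_lt
      have h1 := hg γ (Finset.mem_coe.mp hγ) x ((mem_fib hd).mp (Finset.mem_coe.mp hx))
      exact sub_ne_zero.mpr h1
  refine hdens.mono hBfin ?_
  rintro v ⟨w, hwv, hw⟩
  by_cases hvB : v ∈ B
  · exact Or.inl hvB
  right
  rw [hB] at hvB
  simp only [Set.mem_union, not_or] at hvB
  obtain ⟨hgood', hint', hclose'⟩ := hvB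
  have hgood : Good (v.valuation K) φ := by
    by_contra h; exact hgood' h
  refine ⟨hgood, ?_⟩
  intro γ hγ
  have hγ1 : v.valuation K γ ≤ 1 := by
    by_contra h
    apply hint'
    simp only [Set.mem_iUnion]
    exact ⟨γ, hγ, h⟩
  refine ⟨hγ1, ?_⟩
  rintro ⟨k, hk, hper⟩
  -- the valuation above
  have hlo : w.asIdeal.LiesOver v.asIdeal := by
    rw [← hwv]; exact ⟨rfl⟩
  set e := v.asIdeal.ramificationIdx' w.asIdeal with he
  have he0 : e ≠ 0 :=
    Ideal.IsDedekindDomain.ramificationIdx'_ne_zero_of_liesOver w.asIdeal v.ne_bot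
  have ho : Over (v.valuation K) (w.valuation L) e :=
    ⟨he0, fun x => HeightOneSpectrum.valuation_liesOver L v w x⟩
  -- a preimage of `γ` modulo `v` in `K`
  set n := lev γ with hn
  obtain ⟨m, hm⟩ : ∃ m, k * n + k = n + m := ⟨k * n + k - n, by
    have : n ≤ k * n := Nat.le_mul_of_pos_left n hk
    omega⟩
  have hcong := per_cong hgood hγ1 hper 0 (n + 1)
  rw [zero_add, show k * (n + 1) = n + m by rw [← hm]; ring, Function.iterate_add_apply] at hcong
  have hcong' : v.valuation K ((ph φ)^[n] ((ph φ)^[m] γ) - γ) < 1 := hcong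
  have h1 := ho.lt_one.mpr hcong'
  rw [map_sub, iter_algebraMap] at h1
  obtain ⟨x, hx, hax⟩ := ho.exists_root_close hgood hd (hsp γ hγ) h1
  apply hclose'
  refine ⟨w, ?_, hwv⟩
  simp only [Set.mem_iUnion]
  refine ⟨γ, hγ, x, (mem_fib hd).mpr hx, ?_⟩
  have h2 : w.valuation L (g (algebraMap K L ((ph φ)^[m] γ) - x)) < 1 := by rw [hw]; exact hax
  rw [map_sub, g.commutes] at h2
  have e1 : g x - x = (algebraMap K L ((ph φ)^[m] γ) - x) -
      (algebraMap K L ((ph φ)^[m] γ) - g x) := by ring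
  show w.valuation L (g x - x) < 1
  rw [e1]
  exact Valuation.map_sub_lt _ hax h2

/-- the property supplied by the group theory -/
def AutoProp (K : Type) [Field K] [NumberField K] (φ : K[X]) : Prop :=
  ∀ Γ : Finset K, (∀ γ ∈ Γ, ∀ n, 0 < n → (ph φ)^[n] γ ≠ γ) → (∀ γ ∈ Γ, ∃ A, Grow φ γ A) →
    ∀ (E : Type) [Field E] [NumberField E] [Algebra K E] [IsGalois K E] (g1 : E ≃ₐ[K] E),
    ∃ (n : ℕ) (L : Type) (_ : Field L) (_ : NumberField L) (_ : Algebra K L) (_ : Algebra E L)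
      (_ : IsScalarTower K E L) (_ : IsGalois K L) (g : L ≃ₐ[K] L),
      (∀ x : E, g (algebraMap E L x) = algebraMap E L (g1 x)) ∧
      (∀ γ ∈ Γ, ((itp φ n).map (algebraMap K L) - C (algebraMap K L γ)).Splits) ∧
      ∀ γ ∈ Γ, ∀ y : L, (ph φ)^[n] y = algebraMap K L γ → g y ≠ y

/-- the theorem over a field with the property -/
theorem posDens_of_autoProp {K : Type} [Field K] [NumberField K] {φ : K[X]}
    (hA : AutoProp K φ) (hd : 2 ≤ φ.natDegree) (Γ Γ0 : Finset K)
    (hΓ : ∀ γ ∈ Γ, ∀ n, 0 < n → (ph φ)^[n] γ ≠ γ)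
    (hgrow : ∀ γ ∈ Γ, γ ∉ Γ0 → ∃ A, Grow φ γ A)
    (v0 : HeightOneSpectrum (𝓞 K)) (hv0 : Good (v0.valuation K) φ)
    (hΓ0 : ∀ γ ∈ Γ0, v0.valuation K γ ≤ 1 ∧ ¬ PerMod (v0.valuation K) φ γ) :
    PosDens (GP φ Γ) := by
  classical
  obtain ⟨n0, hn0⟩ := exists_auto hd (Γ.filter (fun γ => γ ∈ Γ0))
    (fun γ hγ => hΓ γ (Finset.mem_filter.mp hγ).1) ∅ (by simp) v0 hv0
    (fun γ hγ => Or.inr (Or.inr (hΓ0 γ (Finset.mem_filter.mp hγ).2)))
  set f : K[X] := ∏ γ ∈ Γ, (itp φ n0 - C γ) with hf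
  obtain ⟨E, _, _, _, _, hsplit⟩ := exists_split K f
  obtain ⟨g1, hg1⟩ := hn0 E
  have hf0 : f ≠ 0 := by
    rw [hf]
    apply Finset.prod_ne_zero_iff.mpr
    intro γ _
    have h1 := itp_sub_ne_zero (L := K) hd n0 γ
    rwa [Algebra.algebraMap_self, Polynomial.map_id] at h1
  have hsp : ∀ γ ∈ Γ, ((itp φ n0).map (algebraMap K E) - C (algebraMap K E γ)).Splits := by
    intro γ hγ
    have h1 : (itp φ n0 - C γ).map (algebraMap K E) ∣ f.map (algebraMap K E) :=
      Polynomial.map_dvd _ (Finset.dvd_prod_of_mem _ hγ)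
    have h2 := hsplit.of_dvd ((Polynomial.map_ne_zero_iff (algebraMap K E).injective).mpr hf0) h1
    rwa [Polynomial.map_sub, map_C] at h2
  obtain ⟨n, L, _, _, _, _, _, _, g, hgc, hLs, hgf⟩ := hA (Γ.filter (fun γ => γ ∉ Γ0))
    (fun γ hγ => hΓ γ (Finset.mem_filter.mp hγ).1)
    (fun γ hγ => hgrow γ (Finset.mem_filter.mp hγ).1 (Finset.mem_filter.mp hγ).2) E g1
  apply primes_of_auto φ hd Γ (fun γ => if γ ∈ Γ0 then n0 else n) _ g
  · intro γ hγ z hz
    by_cases h0 : γ ∈ Γ0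
    · simp only [if_pos h0] at hz
      -- `z` comes from `E`
      have h1 : (((itp φ n0).map (algebraMap K E) - C (algebraMap K E γ)).map
          (algebraMap E L)).IsRoot z := by
        rw [IsRoot.def, Polynomial.map_sub, map_C, map_map, ← IsScalarTower.algebraMap_eq,
          eval_sub, eval_C, eval_map_algebraMap, itp_aeval, hz,
          ← IsScalarTower.algebraMap_apply, sub_self]
      obtain ⟨z0, rfl⟩ := (hsp γ hγ).mem_range_of_isRoot (itp_sub_ne_zero hd _ _) h1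
      intro h2
      have h3 : algebraMap E L (g1 z0) = algebraMap E L z0 := by rw [← hgc]; exact h2
      have h4 := (algebraMap E L).injective h3
      refine hg1 γ (Finset.mem_filter.mpr ⟨hγ, h0⟩) z0 ?_ h4
      apply (algebraMap E L).injective
      have h5 : algebraMap E L ((ph φ)^[n0] z0) = (ph φ)^[n0] (algebraMap E L z0) :=
        iter_hom φ (IsScalarTower.toAlgHom K E L) n0 z0
      rw [h5, ← IsScalarTower.algebraMap_apply]
      exact hz
    · simp only [if_neg h0] at hz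
      exact hgf γ (Finset.mem_filter.mpr ⟨hγ, h0⟩) z hz
  · intro γ hγ
    by_cases h0 : γ ∈ Γ0
    · simp only [if_pos h0]
      have h1 := (hsp γ hγ).map (algebraMap E L)
      rwa [Polynomial.map_sub, map_C, map_map, ← IsScalarTower.algebraMap_eq,
        ← IsScalarTower.algebraMap_apply] at h1
    · simp only [if_neg h0]
      exact hLs γ (Finset.mem_filter.mpr ⟨hγ, h0⟩)

end Pool.Agent.Arb2
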