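import Pool.Agent.Arb2.Runge1
import Pool.Agent.Arb.Few

/-!
# Runge's method: a bounded number of square values in windows
-/

set_option autoImplicit false

open Filter Topology NumberField Polynomial

namespace Pool.Agent.Arb2

open Pool.Agent.Arb (av wt wt_pos plS prod_ge small_zero exists_bound)
open Pool.Agent.TameArb (itp itp_succ itp_natDegree)

section glob

variable {M : Type*} [Field M] [NumberField M]

theorem fin_eval_le (w : FinitePlace M) {P : M[X]} (hP : ∀ i, w (P.coeff i) ≤ 1) {x : M}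
    (hx : w x ≤ 1) : w (P.eval x) ≤ 1 := by
  rw [eval_eq_sum_range]
  have key : ∀ s : Finset ℕ, w (∑ i ∈ s, P.coeff i * x ^ i) ≤ 1 := by
    intro s
    classical
    induction s using Finset.induction_on with
    | empty => simp
    | insert a s has ih =>
      rw [Finset.sum_insert has]
      refine (FinitePlace.add_le w _ _).trans (max_le ?_ ih)
      rw [map_mul, map_pow]
      exact mul_le_one₀ (hP a) (pow_nonneg (apply_nonneg w x) _)
        (pow_le_one₀ (apply_nonneg w x) hx)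
  exact key _

/-- outside a finite set all coefficients are integral -/
theorem exists_T (P : M[X]) : ∃ T : Finset (FinitePlace M), ∀ w ∉ T, ∀ i, w (P.coeff i) ≤ 1 := by
  classical
  have h : ∀ i, ∃ T : Finset (FinitePlace M), ∀ w ∉ T, w (P.coeff i) ≤ 1 := by
    intro i
    by_cases h0 : P.coeff i = 0
    · exact ⟨∅, fun w _ => by rw [h0, map_zero]; exact zero_le_one⟩
    · have f2 : (Function.mulSupport fun w : FinitePlace M => w (P.coeff i)).Finite :=
        FinitePlace.hasFiniteMulSupport h0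
      refine ⟨f2.toFinset, fun w hw => ?_⟩
      rw [Set.Finite.mem_toFinset, Function.mem_mulSupport, not_not] at hw
      exact hw.le
  choose T hT using h
  refine ⟨P.support.biUnion T, fun w hw i => ?_⟩
  by_cases hi : i ∈ P.support
  · exact hT i w fun h => hw (Finset.mem_biUnion.mpr ⟨i, hi, h⟩)
  · rw [notMem_support_iff.mp hi, map_zero]
    exact zero_le_one

theorem orbit_le_one {φ : M[X]} {z : ℕ → M} (hz : ∀ n, z (n + 1) = φ.eval (z n))
    {w : FinitePlace M} (hφ : ∀ i, w (φ.coeff i) ≤ 1) (h0 : w (z 0) ≤ 1) (n : ℕ) :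
    w (z n) ≤ 1 := by
  induction n with
  | zero => exact h0
  | succ n ih =>
    rw [hz]
    exact fin_eval_le w hφ ih

/-- there is a place at which the orbit is unbounded -/
theorem exists_esc {φ : M[X]} (hd : 2 ≤ φ.natDegree) {z : ℕ → M}
    (hz : ∀ n, z (n + 1) = φ.eval (z n)) (hinj : Function.Injective z)
    {T : Finset (FinitePlace M)} (hT : ∀ w ∉ T, (∀ i, w (φ.coeff i) ≤ 1) ∧ w (z 0) ≤ 1) :
    ∃ p ∈ plS T, Esc (av p) z := by
  by_contra hcon
  push Not at hcon
  have hb : ∀ p : InfinitePlace M ⊕ FinitePlace M, ∃ R : ℝ, p ∈ plS T →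
      ∀ n, av p (z n) ≤ R := by
    intro p
    by_cases hp : p ∈ plS T
    · obtain ⟨R, -, hR⟩ := (esc_or (av p) hd hz).resolve_left (hcon p hp)
      exact ⟨R, fun _ => hR⟩
    · exact ⟨0, fun h => absurd h hp⟩
  choose R hR using hb
  obtain ⟨ε, hε, h1⟩ := small_zero T fun p => 2 * R p
  obtain ⟨w⟩ : Nonempty (InfinitePlace M) := inferInstance
  have hw : (Sum.inl w : InfinitePlace M ⊕ FinitePlace M) ∈ plS T := by
    rw [plS, Finset.inl_mem_disjSum]
    exact Finset.mem_univ _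
  -- a convergent subsequence
  have h2 : ∀ n, w.embedding (z n) ∈ Metric.closedBall (0 : ℂ) (R (Sum.inl w)) := by
    intro n
    rw [mem_closedBall_zero_iff, InfinitePlace.norm_embedding_eq]
    exact hR _ hw n
  obtain ⟨a, -, ψ, hψ, h3⟩ := (isCompact_closedBall (0 : ℂ) (R (Sum.inl w))).tendsto_subseq h2
  have h4 := h3.cauchySeq
  rw [Metric.cauchySeq_iff] at h4
  obtain ⟨N, hN⟩ := h4 ε hε
  have h5 := hN N le_rfl (N + 1) (Nat.le_succ N)
  rw [dist_eq_norm] at h5
  have h6 : z (ψ N) - z (ψ (N + 1)) = 0 := by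
    refine h1 _ (fun w' hw' => ?_) (fun p hp => ?_) ⟨Sum.inl w, hw, ?_⟩
    · rw [sub_eq_add_neg]
      refine (FinitePlace.add_le w' _ _).trans (max_le
        (orbit_le_one hz (hT w' hw').1 (hT w' hw').2 _) ?_)
      rw [map_neg_eq_map]
      exact orbit_le_one hz (hT w' hw').1 (hT w' hw').2 _
    · rw [sub_eq_add_neg]
      refine ((av p).add_le _ _).trans ?_
      rw [(av p).map_neg, two_mul]
      exact add_le_add (hR p hp _) (hR p hp _)
    · have h7 : av (Sum.inl w) (z (ψ N) - z (ψ (N + 1))) =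
          ‖w.embedding (z (ψ N) - z (ψ (N + 1)))‖ :=
        (InfinitePlace.norm_embedding_eq w _).symm
      rw [h7, map_sub]
      exact h5.le
  have h7 := hinj (sub_eq_zero.1 h6)
  have h8 : ψ N < ψ (N + 1) := hψ (Nat.lt_succ_self N)
  omega

omit [NumberField M] in
theorem orbit_itp {φ : M[X]} {z : ℕ → M} (hz : ∀ n, z (n + 1) = φ.eval (z n)) (n i : ℕ) :
    z (n + i) = (itp φ i).eval (z n) := by
  induction i with
  | zero => simp [itp]
  | succ i ih =>
    rw [itp_succ, eval_comp, ← ih, ← hz]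
    rfl

/-- Two square values with the same pattern of signs cannot be at the distance `j`. -/
theorem claim {φ : M[X]} (hd : 2 ≤ φ.natDegree) {z : ℕ → M}
    (hz : ∀ n, z (n + 1) = φ.eval (z n)) (hinj : Function.Injective z)
    {g : M[X]} {E : ℕ} {b : M} (hb : b ≠ 0)
    (hg : Nr g (C (b * b) * X ^ (2 * E)) (2 * E))
    {T : Finset (FinitePlace M)} (hT : ∀ w ∉ T, (∀ i, w (φ.coeff i) ≤ 1) ∧ w (z 0) ≤ 1)
    {j : ℕ} (hns : ¬ IsSquare (g * g.comp (itp φ j))) :
    ∃ N, ∀ n ≥ N, ∀ s s', s * s = g.eval (z n) → s' * s' = g.eval (z (n + j)) →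
      (∀ p ∈ plS T, (Sg (av p) E b (z n) s ↔ Sg (av p) E b (z (n + j)) s')) → False := by
  classical
  have h2 : (2 : M) ≠ 0 := two_ne_zero
  set ψ := itp φ j with hψdef
  have hψ : 0 < ψ.natDegree := by
    rw [hψdef, itp_natDegree]
    exact pow_pos (by omega) _
  have hψ0 : ψ ≠ 0 := by rintro h; rw [h] at hψ; simp at hψ
  have hl0 := leadingCoeff_ne_zero.mpr hψ0
  set D := E + E * ψ.natDegree with hD
  set β := b * b * ψ.leadingCoeff ^ E with hβ
  have hβ0 : β ≠ 0 := by positivity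
  have hg0 : g.coeff (2 * E) = b * b ∧ ∀ m, 2 * E < m → g.coeff m = 0 := by
    have h3 := (degree_lt_iff_coeff_zero _ _).mp hg
    constructor
    · have h4 := h3 (2 * E) le_rfl
      rw [coeff_sub, coeff_C_mul_X_pow, if_pos rfl, sub_eq_zero] at h4
      exact h4
    · intro m hm
      have h4 := h3 m hm.le
      rw [coeff_sub, coeff_C_mul_X_pow, if_neg (by omega), sub_zero] at h4
      exact h4
  have hgd : g.natDegree = 2 * E := by
    refine le_antisymm ?_ ?_
    · rw [natDegree_le_iff_coeff_eq_zero]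
      exact hg0.2
    · exact le_natDegree_of_ne_zero (by rw [hg0.1]; exact mul_ne_zero hb hb)
  have hgl : g.leadingCoeff = b * b := by rw [leadingCoeff, hgd, hg0.1]
  have hgne : g ≠ 0 := by
    intro h
    rw [h, leadingCoeff_zero] at hgl
    exact mul_ne_zero hb hb hgl.symm
  have hG : Nr (g * g.comp ψ) (C (β * β) * X ^ (2 * D)) (2 * D) := by
    have hc0 : g.comp ψ ≠ 0 := by
      intro h
      have h3 := leadingCoeff_comp (p := g) (q := ψ) hψ.ne'
      rw [h, leadingCoeff_zero, hgl] at h3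
      exact mul_ne_zero (mul_ne_zero hb hb) (pow_ne_zero _ hl0) h3.symm
    have h3 := degree_sub_lead (mul_ne_zero hgne hc0)
    rw [natDegree_mul hgne hc0, natDegree_comp, leadingCoeff_mul, leadingCoeff_comp hψ.ne', hgl,
      hgd] at h3
    have h4 : b * b * (b * b * ψ.leadingCoeff ^ (2 * E)) = β * β := by
      rw [hβ, two_mul, pow_add]; ring
    have h5 : 2 * E + 2 * E * ψ.natDegree = 2 * D := by rw [hD]; ring
    rwa [h4, h5] at h3
  obtain ⟨Q, hQ1, hQ2⟩ := exists_sqrt (g * g.comp ψ) h2 hβ0 hG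
  -- a larger set of places
  obtain ⟨T₁, hT₁⟩ := exists_T Q
  obtain ⟨T₂, hT₂⟩ := exists_T g
  set T' := T ∪ (T₁ ∪ T₂) with hT'
  have hw' : ∀ w ∉ T', ((∀ i, w (φ.coeff i) ≤ 1) ∧ w (z 0) ≤ 1) ∧ (∀ i, w (Q.coeff i) ≤ 1) ∧
      ∀ i, w (g.coeff i) ≤ 1 := by
    intro w hw
    rw [hT', Finset.mem_union, Finset.mem_union, not_or, not_or] at hw
    exact ⟨hT w hw.1, hT₁ w hw.2.1, hT₂ w hw.2.2⟩
  have hesc : ∀ p ∈ plS T', Esc (av p) z → p ∈ plS T := by
    intro p hp h
    rcases p with w | w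
    · rw [plS, Finset.inl_mem_disjSum]
      exact Finset.mem_univ _
    · rw [plS, Finset.inr_mem_disjSum]
      by_contra hw
      have h3 := (tends_v (av (Sum.inr w))).comp h
      have h4 := h3.eventually_gt_atTop 1
      obtain ⟨n, hn⟩ := h4.exists
      exact absurd (orbit_le_one hz (hT w hw).1 (hT w hw).2 n) (not_le.mpr hn)
  -- bounds at the places where the orbit is bounded
  have hB : ∀ p : InfinitePlace M ⊕ FinitePlace M, ∃ B : ℝ, (∃ R : ℝ, 0 ≤ R ∧
      ∀ n, av p (z n) ≤ R) → ∀ n s s', s * s = g.eval (z n) → s' * s' = g.eval (z (n + j)) →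
      av p (s * s' - Q.eval (z n)) ≤ B := by
    intro p
    by_cases h : ∃ R : ℝ, 0 ≤ R ∧ ∀ n, av p (z n) ≤ R
    · obtain ⟨R, hR0, hR⟩ := h
      obtain ⟨C₁, hC₁, h3⟩ := eval_bound (av p) g
      obtain ⟨C₂, hC₂, h4⟩ := eval_bound (av p) Q
      set A := C₁ * max 1 R ^ g.natDegree with hA
      have hA0 : 0 ≤ A := by positivity
      have hgb : ∀ n, av p (g.eval (z n)) ≤ A := by
        intro n
        refine (h3 _ _ le_rfl).trans ?_
        exact mul_le_mul_of_nonneg_left (pow_le_pow_left₀ (by positivity)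
          (max_le_max le_rfl (hR n)) _) hC₁
      have hs : ∀ n s, s * s = g.eval (z n) → av p s ≤ A + 1 := by
        intro n s hs
        have h5 := hgb n
        rw [← hs, map_mul] at h5
        by_contra hcon
        push Not at hcon
        nlinarith
      refine ⟨(A + 1) * (A + 1) + C₂ * max 1 R ^ Q.natDegree, fun _ n s s' h5 h6 => ?_⟩
      rw [sub_eq_add_neg]
      refine ((av p).add_le _ _).trans (add_le_add ?_ ?_)
      · rw [map_mul]
        exact mul_le_mul (hs n s h5) (hs _ s' h6) ((av p).nonneg _) (by positivity)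
      · rw [(av p).map_neg]
        refine (h4 _ _ le_rfl).trans ?_
        exact mul_le_mul_of_nonneg_left (pow_le_pow_left₀ (by positivity)
          (max_le_max le_rfl (hR n)) _) hC₂
    · exact ⟨0, fun h' => absurd h' h⟩
  choose B hB using hB
  obtain ⟨ε, hε, h1⟩ := small_zero T' fun p => max 1 (B p)
  obtain ⟨p₀, hp₀, hesc₀⟩ := exists_esc hd hz hinj (T := T') fun w hw => (hw' w hw).1
  obtain ⟨N₁, hN₁⟩ := exists_bound (plS T')
      (P := fun p N => Esc (av p) z → ∀ n ≥ N, ∀ s s', s * s = g.eval (z n) →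
        s' * s' = g.eval (z (n + j)) →
        (Sg (av p) E b (z n) s ↔ Sg (av p) E b (z (n + j)) s') →
        av p (s * s' - Q.eval (z n)) ≤ min ε 1)
      (fun p m n hmn h h3 k hk => h h3 k (hmn.trans hk))
      (fun p _ => by
        by_cases hv : Esc (av p) z
        · have h3 := loc_small (av p) h2 hb hψ hg hQ1 hQ2 (lt_min hε one_pos)
          obtain ⟨N, hN⟩ := eventually_atTop.mp (hv.eventually h3)
          refine ⟨N, fun _ n hn s s' h4 h5 h6 => ?_⟩
          rw [orbit_itp hz n j] at h5 h6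
          exact hN n hn s s' h4 h5 h6
        · exact ⟨0, fun h => absurd h hv⟩)
  -- the polynomial `R`
  have hR0 : g * g.comp ψ - Q * Q ≠ 0 := fun h => hns ⟨Q, sub_eq_zero.mp h⟩
  have hfin : {n : ℕ | (g * g.comp ψ - Q * Q).eval (z n) = 0}.Finite := by
    have h3 : {n : ℕ | (g * g.comp ψ - Q * Q).eval (z n) = 0} ⊆
        z ⁻¹' ((g * g.comp ψ - Q * Q).roots.toFinset : Set M) := by
      intro n hn
      rw [Set.mem_preimage, Finset.mem_coe, Multiset.mem_toFinset, mem_roots hR0]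
      exact hn
    exact (Set.Finite.preimage (hinj.injOn) (Finset.finite_toSet _)).subset h3
  obtain ⟨N₂, hN₂⟩ : ∃ N, ∀ n ≥ N, (g * g.comp ψ - Q * Q).eval (z n) ≠ 0 := by
    obtain ⟨N, hN⟩ := hfin.bddAbove
    refine ⟨N + 1, fun n hn h => ?_⟩
    have := hN h
    omega
  refine ⟨max N₁ N₂, fun n hn s s' hs hs' hsg => ?_⟩
  have hn1 : N₁ ≤ n := (le_max_left _ _).trans hn
  have hn2 : N₂ ≤ n := (le_max_right _ _).trans hn
  have h3 : s * s' - Q.eval (z n) = 0 := by
    refine h1 _ (fun w hw => ?_) (fun p hp => ?_) ⟨p₀, hp₀, ?_⟩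
    · obtain ⟨⟨w1, w2⟩, w3, w4⟩ := hw' w hw
      have hsq : ∀ m t, t * t = g.eval (z m) → w t ≤ 1 := by
        intro m t ht
        have h3 : w t * w t ≤ 1 := by
          rw [← map_mul, ht]
          exact fin_eval_le w w4 (orbit_le_one hz w1 w2 m)
        by_contra hcon
        push Not at hcon
        have := mul_lt_mul'' hcon hcon zero_le_one zero_le_one
        linarith
      rw [sub_eq_add_neg]
      refine (FinitePlace.add_le w _ _).trans (max_le ?_ ?_)
      · rw [map_mul]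
        exact mul_le_one₀ (hsq n s hs) (apply_nonneg w _) (hsq _ s' hs')
      · rw [map_neg_eq_map]
        exact fin_eval_le w w3 (orbit_le_one hz w1 w2 n)
    · rcases esc_or (av p) hd hz with hv | hR
      · exact ((hN₁ p hp hv n hn1 s s' hs hs' (hsg p (hesc p hp hv))).trans
          (min_le_right _ _)).trans (le_max_left _ _)
      · exact (hB p hR n s s' hs hs').trans (le_max_right _ _)
    · exact (hN₁ p₀ hp₀ hesc₀ n hn1 s s' hs hs' (hsg p₀ (hesc p₀ hp₀ hesc₀))).trans
        (min_le_left _ _)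
  refine hN₂ n hn2 ?_
  have h4 : s * s' = Q.eval (z n) := sub_eq_zero.mp h3
  rw [eval_sub, eval_mul, eval_mul, eval_comp, ← orbit_itp hz n j, ← hs, ← hs', ← h4]
  ring

/-- **Few squares**: in every window far out there are at most `C` square values. -/
theorem few_squares {φ : M[X]} (hd : 2 ≤ φ.natDegree) {z : ℕ → M}
    (hz : ∀ n, z (n + 1) = φ.eval (z n)) (hinj : Function.Injective z)
    {g : M[X]} {E : ℕ} {b : M} (hb : b ≠ 0) (hgd : g.natDegree = 2 * E)
    (hgl : g.leadingCoeff = b * b)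
    (hns : ∀ j, 0 < j → ¬ IsSquare (g * g.comp (itp φ j))) :
    ∃ C : ℕ, ∀ W : ℕ, ∃ n0 : ℕ, ∀ n ≥ n0, ∀ I ⊆ Finset.Icc n (n + W),
      (∀ i ∈ I, IsSquare (g.eval (z i))) → I.card ≤ C := by
  classical
  have hgne : g ≠ 0 := by
    rintro rfl
    rw [leadingCoeff_zero] at hgl
    exact mul_ne_zero hb hb hgl.symm
  have hg : Nr g (C (b * b) * X ^ (2 * E)) (2 * E) := by
    have h := degree_sub_lead hgne
    rwa [hgd, hgl] at h
  obtain ⟨T₁, hT₁⟩ := exists_T φ
  obtain ⟨T₂, hT₂⟩ := exists_T (C (z 0))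
  set T := T₁ ∪ T₂ with hTdef
  have hT : ∀ w ∉ T, (∀ i, w (φ.coeff i) ≤ 1) ∧ w (z 0) ≤ 1 := by
    intro w hw
    rw [hTdef, Finset.mem_union, not_or] at hw
    refine ⟨hT₁ w hw.1, ?_⟩
    have h := hT₂ w hw.2 0
    rwa [coeff_C_zero] at h
  refine ⟨2 ^ (plS T).card, fun W => ?_⟩
  obtain ⟨N, hN⟩ := exists_bound (Finset.Icc 1 W)
      (P := fun j N => ∀ n ≥ N, ∀ s s', s * s = g.eval (z n) → s' * s' = g.eval (z (n + j)) →
      (∀ p ∈ plS T, (Sg (av p) E b (z n) s ↔ Sg (av p) E b (z (n + j)) s')) → False)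
      (fun j m n hmn h k hk => h k (hmn.trans hk))
      (fun j hj => claim hd hz hinj hb hg hT (hns j (Finset.mem_Icc.1 hj).1))
  refine ⟨N, fun n hn I hI hsq => ?_⟩
  by_contra hcon
  push Not at hcon
  choose! t ht using hsq
  set pat : ℕ → Finset (InfinitePlace M ⊕ FinitePlace M) := fun i =>
    (plS T).filter fun p => Sg (av p) E b (z i) (t i) with hpat
  have hmap : Set.MapsTo pat I (plS T).powerset := fun i _ =>
    Finset.mem_coe.2 (Finset.mem_powerset.2 (Finset.filter_subset _ _))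
  rw [← Finset.card_powerset] at hcon
  obtain ⟨i₁, hi₁, i₂, hi₂, hne, heq⟩ := Finset.exists_ne_map_eq_of_card_lt_of_maps_to hcon hmap
  have main : ∀ i₁ ∈ I, ∀ i₂ ∈ I, i₁ < i₂ → pat i₁ = pat i₂ → False := by
    intro i₁ hi₁ i₂ hi₂ hlt heq
    have h3 := Finset.mem_Icc.1 (hI hi₁)
    have h4 := Finset.mem_Icc.1 (hI hi₂)
    have h5 : i₁ + (i₂ - i₁) = i₂ := by omega
    refine hN (i₂ - i₁) (Finset.mem_Icc.2 ⟨by omega, by omega⟩) i₁ (by omega) (t i₁) (t i₂)
      (ht i₁ hi₁).symm ?_ ?_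
    · rw [h5]
      exact (ht i₂ hi₂).symm
    · intro p hp
      rw [h5]
      have h6 := Finset.ext_iff.1 heq p
      simp only [hpat, Finset.mem_filter] at h6
      constructor
      · intro h
        exact (h6.1 ⟨hp, h⟩).2
      · intro h
        exact (h6.2 ⟨hp, h⟩).2
  rcases lt_or_gt_of_ne hne with h | h
  · exact main i₁ hi₁ i₂ hi₂ h heq
  · exact main i₂ hi₂ i₁ hi₁ h heq.symm

end glob

end Pool.Agent.Arb2
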