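import Pool.Agent.TameArb.Iter

/-!
# Runge's method: local analysis at one absolute value
-/

set_option autoImplicit false

open Filter Topology Polynomial

namespace Pool.Agent.Arb2

section loc

variable {F : Type*} [Field F] (v : AbsoluteValue F ℝ)

/-- `P` and `Q` agree in the degrees `≥ n` -/
def Nr (P Q : F[X]) (n : ℕ) : Prop := degree (P - Q) < (n : WithBot ℕ)

/-- the filter of large elements -/
def La : Filter F := comap v atTop

theorem tends_v : Tendsto v (La v) atTop := tendsto_comap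

theorem eval_bound (P : F[X]) : ∃ C : ℝ, 0 ≤ C ∧ ∀ z, ∀ n, P.natDegree ≤ n →
    v (P.eval z) ≤ C * max 1 (v z) ^ n := by
  refine ⟨∑ i ∈ Finset.range (P.natDegree + 1), v (P.coeff i),
    Finset.sum_nonneg fun i _ => v.nonneg _, fun z n hn => ?_⟩
  rw [eval_eq_sum_range]
  refine (v.sum_le _ _).trans ?_
  rw [Finset.sum_mul]
  refine Finset.sum_le_sum fun i hi => ?_
  rw [map_mul, map_pow]
  refine mul_le_mul_of_nonneg_left ?_ (v.nonneg _)
  calc v z ^ i ≤ max 1 (v z) ^ i := pow_le_pow_left₀ (v.nonneg _) (le_max_right _ _) _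
    _ ≤ max 1 (v z) ^ n := pow_le_pow_right₀ (le_max_left _ _)
      (by rw [Finset.mem_range] at hi; omega)

theorem ev_bound (P : F[X]) {n : ℕ} (hn : P.natDegree ≤ n) : ∃ C : ℝ, 0 < C ∧ ∀ᶠ z in La v,
    v (P.eval z) ≤ C * v z ^ n := by
  obtain ⟨C, hC, h⟩ := eval_bound v P
  refine ⟨C + 1, by linarith, ?_⟩
  filter_upwards [(tends_v v).eventually_ge_atTop 1] with z hz
  have h1 := h z n hn
  rw [max_eq_right hz] at h1
  have h2 : 0 ≤ v z ^ n := pow_nonneg (v.nonneg _) _
  nlinarith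

theorem ev_small {P : F[X]} {n : ℕ} (h : P.degree < n) {ε : ℝ} (hε : 0 < ε) :
    ∀ᶠ z in La v, v (P.eval z) ≤ ε * v z ^ n := by
  by_cases hP : P = 0
  · subst hP
    filter_upwards with z
    rw [eval_zero, map_zero]
    exact mul_nonneg hε.le (pow_nonneg (v.nonneg _) _)
  have h1 : P.natDegree < n := by
    rwa [natDegree_lt_iff_degree_lt hP]
  obtain ⟨k, rfl⟩ : ∃ k, n = k + 1 := ⟨n - 1, by omega⟩
  obtain ⟨C, hC, h2⟩ := ev_bound v P (Nat.lt_succ_iff.mp h1)
  filter_upwards [h2, (tends_v v).eventually_ge_atTop (C / ε)] with z h3 h4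
  rw [div_le_iff₀ hε] at h4
  refine h3.trans ?_
  rw [pow_succ]
  have h5 : 0 ≤ v z ^ k := pow_nonneg (v.nonneg _) _
  nlinarith

/-- lower bound for the value of a polynomial -/
theorem ev_lower {P : F[X]} {n : ℕ} {a : F} (h : Nr P (C a * X ^ n) n) (ha : a ≠ 0) :
    ∀ᶠ z in La v, v a / 2 * v z ^ n ≤ v (P.eval z) := by
  have ha' : 0 < v a := v.pos ha
  filter_upwards [ev_small v h (by positivity : 0 < v a / 2)] with z h1
  have h2 : v (a * z ^ n) ≤ v (P.eval z) + v ((P - C a * X ^ n).eval z) := by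
    have h3 : a * z ^ n = P.eval z + -((P - C a * X ^ n).eval z) := by
      simp
    rw [h3]
    refine (v.add_le _ _).trans ?_
    rw [v.map_neg]
  rw [map_mul, map_pow] at h2
  linarith

theorem degree_sub_lead {P : F[X]} (hP : P ≠ 0) :
    Nr P (C P.leadingCoeff * X ^ P.natDegree) P.natDegree := by
  rw [Nr]
  rw [← degree_eq_natDegree hP]
  exact degree_sub_lt_left (by rw [degree_C_mul_X_pow _ (leadingCoeff_ne_zero.mpr hP),
    degree_eq_natDegree hP]) hP (by rw [leadingCoeff_C_mul_X_pow])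

theorem ev_grow {P : F[X]} (h : 2 ≤ P.natDegree) : ∀ᶠ z in La v, 2 * v z ≤ v (P.eval z) := by
  have hP : P ≠ 0 := by rintro rfl; simp at h
  have ha' : 0 < v P.leadingCoeff := v.pos (leadingCoeff_ne_zero.mpr hP)
  filter_upwards [ev_lower v (degree_sub_lead hP) (leadingCoeff_ne_zero.mpr hP),
    (tends_v v).eventually_ge_atTop (4 / v P.leadingCoeff),
    (tends_v v).eventually_ge_atTop 1] with z h1 h2 h3
  rw [div_le_iff₀ ha'] at h2
  refine le_trans ?_ h1
  obtain ⟨k, hk⟩ : ∃ k, P.natDegree = k + 2 := ⟨P.natDegree - 2, by omega⟩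
  rw [hk, pow_succ, pow_succ]
  have h4 : 1 ≤ v z ^ k := one_le_pow₀ h3
  have h5 : v z ≤ v z ^ k * v z := by nlinarith
  have h6 : 0 ≤ v z := v.nonneg _
  nlinarith

theorem tends_eval {P : F[X]} (h : 0 < P.natDegree) : Tendsto (fun z => P.eval z) (La v) (La v) := by
  have hP : P ≠ 0 := by rintro rfl; simp at h
  have ha' : 0 < v P.leadingCoeff := v.pos (leadingCoeff_ne_zero.mpr hP)
  rw [La, tendsto_comap_iff]
  have h1 : Tendsto (fun z => v P.leadingCoeff / 2 * v z ^ P.natDegree) (La v) atTop :=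
    Tendsto.const_mul_atTop (by positivity) ((tendsto_pow_atTop h.ne').comp (tends_v v))
  refine tendsto_atTop_mono' _ ?_ h1
  filter_upwards [ev_lower v (degree_sub_lead hP) (leadingCoeff_ne_zero.mpr hP)] with z h2
  exact h2

/-- the orbit is unbounded -/
def Esc (z : ℕ → F) : Prop := Tendsto z atTop (La v)

theorem esc_or {φ : F[X]} (hd : 2 ≤ φ.natDegree) {z : ℕ → F} (hz : ∀ n, z (n + 1) = φ.eval (z n)) :
    Esc v z ∨ ∃ R : ℝ, 0 ≤ R ∧ ∀ n, v (z n) ≤ R := by
  have h1 := ev_grow v hd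
  rw [La, eventually_comap, eventually_atTop] at h1
  obtain ⟨R, hR⟩ := h1
  by_cases h : ∀ n, v (z n) ≤ max R 1
  · exact Or.inr ⟨_, le_trans zero_le_one (le_max_right _ _), h⟩
  · left
    push Not at h
    obtain ⟨m, hm⟩ := h
    have key : ∀ k, 2 ^ k * max R 1 ≤ v (z (m + k)) := by
      intro k
      induction k with
      | zero => rw [pow_zero, one_mul]; exact hm.le
      | succ k ih =>
        have h2 : (1 : ℝ) ≤ 2 ^ k := one_le_pow₀ (by norm_num)
        have h3 : R ≤ v (z (m + k)) := by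
          refine le_trans ?_ ih
          have h4 : (1 : ℝ) ≤ max R 1 := le_max_right _ _
          calc R ≤ max R 1 := le_max_left _ _
            _ ≤ 2 ^ k * max R 1 := by nlinarith
        have h4 := hR _ h3 _ rfl
        rw [← add_assoc, hz]
        calc (2 : ℝ) ^ (k + 1) * max R 1 = 2 * (2 ^ k * max R 1) := by ring
          _ ≤ 2 * v (z (m + k)) := by linarith
          _ ≤ _ := h4
    rw [Esc, La, tendsto_comap_iff]
    have h2 : Tendsto (fun k : ℕ => (2 : ℝ) ^ k * max R 1) atTop atTop :=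
      (tendsto_pow_atTop_atTop_of_one_lt (by norm_num)).atTop_mul_const
        (lt_of_lt_of_le one_pos (le_max_right _ _))
    have h3 : Tendsto (fun k => v (z (m + k))) atTop atTop := tendsto_atTop_mono key h2
    have h4 : Tendsto (fun k => v (z (k + m))) atTop atTop := by
      simpa only [add_comm] using h3
    exact (tendsto_add_atTop_iff_nat (f := fun n => v (z n)) m).1 h4

/-! ### the polynomial part of a square root -/

theorem sqrt_aux (G : F[X]) (h2 : (2 : F) ≠ 0) {D : ℕ} {β : F} (hβ : β ≠ 0)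
    (hG : Nr G (C (β * β) * X ^ (2 * D)) (2 * D)) (k : ℕ) (hk : k ≤ D) :
    ∃ Q : F[X], Nr Q (C β * X ^ D) D ∧ Nr G (Q * Q) (2 * D - k) := by
  induction k with
  | zero =>
    refine ⟨C β * X ^ D, ?_, ?_⟩
    · rw [Nr, sub_self, degree_zero]
      exact WithBot.bot_lt_coe _
    · have h : G - C β * X ^ D * (C β * X ^ D) = G - C (β * β) * X ^ (2 * D) := by
        rw [C_mul]; ring
      rw [Nr, h, Nat.sub_zero]
      exact hG
  | succ k ih =>
    obtain ⟨Q, h3, h4⟩ := ih (by omega)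
    set N := 2 * D - (k + 1) with hN
    set c := (G - Q * Q).coeff N with hc
    set e := c / (2 * β) with he
    have hβ2 : 2 * β ≠ 0 := mul_ne_zero h2 hβ
    have hDk : (D - (k + 1)) + D = N := by omega
    refine ⟨Q + C e * X ^ (D - (k + 1)), ?_, ?_⟩
    · have h5 : Q + C e * X ^ (D - (k + 1)) - C β * X ^ D =
          (Q - C β * X ^ D) + C e * X ^ (D - (k + 1)) := by ring
      rw [Nr, h5]
      refine lt_of_le_of_lt (degree_add_le _ _) (max_lt h3 ?_)
      refine lt_of_le_of_lt (degree_C_mul_X_pow_le _ _) ?_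
      exact_mod_cast (by omega : D - (k + 1) < D)
    · have hQc : ∀ m, D ≤ m → Q.coeff m = if m = D then β else 0 := by
        intro m hm
        have h5 := (degree_lt_iff_coeff_zero _ _).mp h3 m hm
        rw [coeff_sub, coeff_C_mul_X_pow, sub_eq_zero] at h5
        exact h5
      rw [Nr, degree_lt_iff_coeff_zero]
      intro m hm
      have h5 : G - (Q + C e * X ^ (D - (k + 1))) * (Q + C e * X ^ (D - (k + 1))) =
          (G - Q * Q) - C (2 * e) * (Q * X ^ (D - (k + 1))) -
            C (e * e) * X ^ (2 * (D - (k + 1))) := by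
        rw [C_mul, C_mul, show (C (2 : F) : F[X]) = 2 from rfl]; ring
      rw [h5, coeff_sub, coeff_sub, coeff_C_mul, coeff_C_mul_X_pow, if_neg (by omega), sub_zero,
        coeff_mul_X_pow', if_pos (by omega), hQc _ (by omega)]
      rcases Nat.eq_or_lt_of_le hm with hm | hm
      · rw [if_pos (by omega), ← hm, ← hc, he]
        field_simp
        ring
      · rw [if_neg (by omega), mul_zero, sub_zero]
        exact (degree_lt_iff_coeff_zero _ _).mp h4 m (by omega)

theorem exists_sqrt (G : F[X]) (h2 : (2 : F) ≠ 0) {D : ℕ} {β : F} (hβ : β ≠ 0)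
    (hG : Nr G (C (β * β) * X ^ (2 * D)) (2 * D)) :
    ∃ Q : F[X], Nr Q (C β * X ^ D) D ∧ Nr G (Q * Q) D := by
  obtain ⟨Q, h3, h4⟩ := sqrt_aux G h2 hβ hG D le_rfl
  refine ⟨Q, h3, ?_⟩
  rwa [show 2 * D - D = D by omega] at h4

/-! ### signs -/

/-- the sign of a square root of `g(z)` -/
def Sg (E : ℕ) (b z s : F) : Prop := v (s - b * z ^ E) ≤ v (s + b * z ^ E)

theorem sg_small {g : F[X]} {E : ℕ} {b : F}
    (hg : Nr g (C (b * b) * X ^ (2 * E)) (2 * E)) {ε : ℝ} (hε : 0 < ε) :
    ∀ᶠ z in La v, ∀ s : F, s * s = g.eval z →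
      (Sg v E b z s → v (s - b * z ^ E) ≤ ε * v z ^ E) ∧
      (¬ Sg v E b z s → v (s + b * z ^ E) ≤ ε * v z ^ E) := by
  filter_upwards [ev_small v hg (mul_pos hε hε)] with z h1 s hs
  have h2 : v (s - b * z ^ E) * v (s + b * z ^ E) ≤ (ε * v z ^ E) * (ε * v z ^ E) := by
    rw [← map_mul]
    have h3 : (s - b * z ^ E) * (s + b * z ^ E) = (g - C (b * b) * X ^ (2 * E)).eval z := by
      rw [eval_sub, ← hs, eval_mul, eval_C, eval_pow, eval_X, two_mul E, pow_add]
      ring
    rw [h3]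
    refine h1.trans (le_of_eq ?_)
    rw [two_mul E, pow_add]
    ring
  have h4 : 0 ≤ ε * v z ^ E := mul_nonneg hε.le (pow_nonneg (v.nonneg _) _)
  constructor
  · intro h
    by_contra hcon
    push Not at hcon
    have h5 : ε * v z ^ E < v (s + b * z ^ E) := lt_of_lt_of_le hcon h
    have := mul_lt_mul'' hcon h5 h4 h4
    linarith
  · intro h
    rw [Sg, not_le] at h
    by_contra hcon
    push Not at hcon
    have h5 : ε * v z ^ E < v (s - b * z ^ E) := hcon.trans h
    have := mul_lt_mul'' h5 hcon h4 h4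
    linarith

/-- products of two roots with the same sign -/
theorem prod_small {g ψ : F[X]} {E : ℕ} {b : F} (hψ : 0 < ψ.natDegree)
    (hg : Nr g (C (b * b) * X ^ (2 * E)) (2 * E)) {ε : ℝ} (hε : 0 < ε) :
    ∀ᶠ z in La v, ∀ s s' : F, s * s = g.eval z → s' * s' = g.eval (ψ.eval z) →
      (Sg v E b z s ↔ Sg v E b (ψ.eval z) s') →
      v (s * s' - (C (b * b) * X ^ E * ψ ^ E).eval z) ≤ ε * v z ^ (E + E * ψ.natDegree) := by
  obtain ⟨C₁, hC₁, h1⟩ := ev_bound v ψ le_rfl
  -- the constant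
  set M := (2 * v b + 1) * C₁ ^ E with hM
  have hM0 : 0 < M := by
    have := v.nonneg b
    positivity
  set δ := min 1 (ε / M) with hδ
  have hδ0 : 0 < δ := lt_min one_pos (by positivity)
  have hδ1 : δ ≤ 1 := min_le_left _ _
  have hδM : δ * M ≤ ε := by
    calc δ * M ≤ ε / M * M := mul_le_mul_of_nonneg_right (min_le_right _ _) hM0.le
      _ = ε := by field_simp
  have h2 := sg_small v hg hδ0
  have h3 := (tends_eval v hψ).eventually h2
  filter_upwards [h1, h2, h3] with z h4 h5 h6 s s' hs hs' hsg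
  obtain ⟨h7, h8⟩ := h5 s hs
  obtain ⟨h9, h10⟩ := h6 s' hs'
  set w := ψ.eval z with hw
  have hpe : (C (b * b) * X ^ E * ψ ^ E).eval z = (b * z ^ E) * (b * w ^ E) := by
    rw [eval_mul, eval_mul, eval_C, eval_pow, eval_X, eval_pow]
    ring
  rw [hpe]
  have hvz : 0 ≤ v z ^ E := pow_nonneg (v.nonneg _) _
  have hvw : 0 ≤ v w ^ E := pow_nonneg (v.nonneg _) _
  have hvb : 0 ≤ v b := v.nonneg _
  -- both errors are small
  have key : ∀ e e' a a' : F, v e ≤ δ * v z ^ E → v e' ≤ δ * v w ^ E →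
      v a = v b * v z ^ E → v a' = v b * v w ^ E →
      v (e * a' + a * e' + e * e') ≤ ε * v z ^ (E + E * ψ.natDegree) := by
    intro e e' a a' he he' ha ha'
    have h11 : v (e * a' + a * e' + e * e') ≤ v e * v a' + v a * v e' + v e * v e' := by
      refine (v.add_le _ _).trans ?_
      rw [map_mul v e e']
      refine add_le_add ((v.add_le _ _).trans ?_) le_rfl
      rw [map_mul, map_mul]
    have h12 : v e * v a' + v a * v e' + v e * v e' ≤
        δ * (2 * v b + 1) * (v z ^ E * v w ^ E) := by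
      rw [ha, ha']
      have h13 : v e * (v b * v w ^ E) ≤ δ * v z ^ E * (v b * v w ^ E) :=
        mul_le_mul_of_nonneg_right he (by positivity)
      have h14 : v b * v z ^ E * v e' ≤ v b * v z ^ E * (δ * v w ^ E) :=
        mul_le_mul_of_nonneg_left he' (by positivity)
      have h15 : v e * v e' ≤ δ * v z ^ E * (1 * v w ^ E) :=
        mul_le_mul he (he'.trans (mul_le_mul_of_nonneg_right hδ1 hvw)) (v.nonneg _)
          (by positivity)
      nlinarith
    have h16 : v w ^ E ≤ C₁ ^ E * v z ^ (E * ψ.natDegree) := by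
      calc v w ^ E ≤ (C₁ * v z ^ ψ.natDegree) ^ E := pow_le_pow_left₀ (v.nonneg _) h4 _
        _ = _ := by rw [mul_pow, ← pow_mul, mul_comm ψ.natDegree]
    calc v (e * a' + a * e' + e * e') ≤ δ * (2 * v b + 1) * (v z ^ E * v w ^ E) :=
          h11.trans h12
      _ ≤ δ * (2 * v b + 1) * (v z ^ E * (C₁ ^ E * v z ^ (E * ψ.natDegree))) := by
          refine mul_le_mul_of_nonneg_left (mul_le_mul_of_nonneg_left h16 hvz) (by positivity)
      _ = δ * M * v z ^ (E + E * ψ.natDegree) := by rw [hM, pow_add]; ring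
      _ ≤ _ := mul_le_mul_of_nonneg_right hδM (pow_nonneg (v.nonneg _) _)
  by_cases hS : Sg v E b z s
  · have hS' := hsg.mp hS
    have h11 := key (s - b * z ^ E) (s' - b * w ^ E) (b * z ^ E) (b * w ^ E) (h7 hS) (h9 hS')
      (by rw [map_mul, map_pow]) (by rw [map_mul, map_pow])
    convert h11 using 2
    ring
  · have hS' : ¬ Sg v E b w s' := fun h => hS (hsg.mpr h)
    have h11 := key (s + b * z ^ E) (s' + b * w ^ E) (-(b * z ^ E)) (-(b * w ^ E)) (h8 hS)
      (h10 hS') (by rw [v.map_neg, map_mul, map_pow]) (by rw [v.map_neg, map_mul, map_pow])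
    convert h11 using 2
    ring

/-- the main local estimate -/
theorem loc_small {g ψ Q : F[X]} {E : ℕ} {b : F} (h2 : (2 : F) ≠ 0) (hb : b ≠ 0)
    (hψ : 0 < ψ.natDegree)
    (hg : Nr g (C (b * b) * X ^ (2 * E)) (2 * E))
    (hQ1 : Nr Q (C (b * b * ψ.leadingCoeff ^ E) * X ^ (E + E * ψ.natDegree))
      (E + E * ψ.natDegree))
    (hQ2 : Nr (g * g.comp ψ) (Q * Q) (E + E * ψ.natDegree)) {ε : ℝ} (hε : 0 < ε) :
    ∀ᶠ z in La v, ∀ s s' : F, s * s = g.eval z → s' * s' = g.eval (ψ.eval z) →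
      (Sg v E b z s ↔ Sg v E b (ψ.eval z) s') → v (s * s' - Q.eval z) ≤ ε := by
  set D := E + E * ψ.natDegree with hD
  set β := b * b * ψ.leadingCoeff ^ E with hβ
  have hψ0 : ψ ≠ 0 := by rintro rfl; simp at hψ
  have hβ0 : β ≠ 0 := by
    have := leadingCoeff_ne_zero.mpr hψ0
    positivity
  have hvβ : 0 < v β := v.pos hβ0
  have hv2 : 0 < v 2 := v.pos h2
  have hP1 : Nr (C (b * b) * X ^ E * ψ ^ E) (C β * X ^ D) D := by
    have h3 : (C (b * b) * X ^ E * ψ ^ E : F[X]).natDegree = D := by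
      rw [mul_assoc, natDegree_C_mul (mul_ne_zero hb hb), natDegree_mul (by simp)
        (pow_ne_zero _ hψ0), natDegree_X_pow, natDegree_pow]
    have h4 : (C (b * b) * X ^ E * ψ ^ E : F[X]).leadingCoeff = β := by
      rw [leadingCoeff_mul, leadingCoeff_mul, leadingCoeff_C, leadingCoeff_X_pow, mul_one,
        leadingCoeff_pow]
    have h5 : (C (b * b) * X ^ E * ψ ^ E : F[X]) ≠ 0 := by
      intro h
      rw [h, leadingCoeff_zero] at h4
      exact hβ0 h4.symm
    have h6 := degree_sub_lead h5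
    rwa [h3, h4] at h6
  have hPQ : Nr Q (C (b * b) * X ^ E * ψ ^ E) D := by
    rw [Nr]
    have h3 : Q - C (b * b) * X ^ E * ψ ^ E =
        (Q - C β * X ^ D) - (C (b * b) * X ^ E * ψ ^ E - C β * X ^ D) := by ring
    rw [h3]
    exact lt_of_le_of_lt (degree_sub_le _ _) (max_lt hQ1 hP1)
  set δ := v 2 * v β / 16 with hδ
  have hδ0 : 0 < δ := by positivity
  filter_upwards [prod_small v hψ hg hδ0, ev_small v hPQ hδ0, ev_lower v hQ1 hβ0,
    ev_small v hQ2 (by positivity : 0 < ε * (v 2 * v β / 4)),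
    (tends_v v).eventually_gt_atTop 0] with z h3 h4 h5 h6 h7 s s' hs hs' hsg
  have h8 := h3 s s' hs hs' hsg
  have hz : 0 < v z ^ D := pow_pos h7 _
  -- the two factors
  have h9 : v (s * s' - Q.eval z) ≤ 2 * δ * v z ^ D := by
    have h10 : s * s' - Q.eval z = (s * s' - (C (b * b) * X ^ E * ψ ^ E).eval z) +
        -((Q - C (b * b) * X ^ E * ψ ^ E).eval z) := by
      rw [eval_sub]; ring
    rw [h10]
    refine (v.add_le _ _).trans ?_
    rw [v.map_neg]
    linarith
  have h10 : v 2 * v β / 4 * v z ^ D ≤ v (s * s' + Q.eval z) := by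
    have h11 : 2 * Q.eval z = (s * s' + Q.eval z) + -(s * s' - Q.eval z) := by ring
    have h12 : v 2 * v (Q.eval z) ≤ v (s * s' + Q.eval z) + v (s * s' - Q.eval z) := by
      rw [← map_mul, h11]
      refine (v.add_le _ _).trans ?_
      rw [v.map_neg]
    have h13 : v 2 * (v β / 2 * v z ^ D) ≤ v 2 * v (Q.eval z) :=
      mul_le_mul_of_nonneg_left h5 hv2.le
    nlinarith
  have h11 : v (s * s' - Q.eval z) * v (s * s' + Q.eval z) ≤
      ε * (v 2 * v β / 4 * v z ^ D) := by
    rw [← map_mul]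
    have h12 : (s * s' - Q.eval z) * (s * s' + Q.eval z) = (g * g.comp ψ - Q * Q).eval z := by
      rw [eval_sub, eval_mul, eval_mul, eval_comp, ← hs, ← hs']
      ring
    rw [h12]
    refine h6.trans (le_of_eq ?_)
    ring
  have h12 : v (s * s' - Q.eval z) * (v 2 * v β / 4 * v z ^ D) ≤
      ε * (v 2 * v β / 4 * v z ^ D) :=
    (mul_le_mul_of_nonneg_left h10 (v.nonneg _)).trans h11
  exact le_of_mul_le_mul_right h12 (by positivity)

end loc

end Pool.Agent.Arb2
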