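import Pool.Agent.Arb2.Runge

/-!
# The set of square values is sparse
-/

set_option autoImplicit false

open Polynomial

namespace Pool.Agent.Arb2

open Pool.Agent.TameArb (itp itp_succ itp_natDegree itp_eval itp_aeval ph ph_eq_eval)

/-- few pairs at each distance: few elements -/
theorem sparse (A : ℕ → Prop)
    (h : ∀ j, 0 < j → ∃ C : ℕ, ∀ W : ℕ, ∃ n0 : ℕ, ∀ n ≥ n0, ∀ I ⊆ Finset.Icc n (n + W),
      (∀ i ∈ I, A i ∧ A (i + j)) → I.card ≤ C) (J : ℕ) :
    ∃ C : ℕ, ∀ W : ℕ, ∃ n0 : ℕ, ∀ n ≥ n0, ∀ I ⊆ Finset.Icc n (n + W),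
      (∀ i ∈ I, A i) → (J + 1) * I.card ≤ C + W := by
  classical
  have h' : ∀ j, ∃ C : ℕ, 0 < j → ∀ W : ℕ, ∃ n0 : ℕ, ∀ n ≥ n0, ∀ I ⊆ Finset.Icc n (n + W),
      (∀ i ∈ I, A i ∧ A (i + j)) → I.card ≤ C := by
    intro j
    by_cases hj : 0 < j
    · obtain ⟨C, hC⟩ := h j hj
      exact ⟨C, fun _ => hC⟩
    · exact ⟨0, fun h => absurd h hj⟩
  choose C hC using h'
  refine ⟨(J + 1) * (∑ j ∈ Finset.Icc 1 J, C j) + (J + 1), fun W => ?_⟩
  have h'' : ∀ j, ∃ n0 : ℕ, 0 < j → ∀ n ≥ n0, ∀ I ⊆ Finset.Icc n (n + W),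
      (∀ i ∈ I, A i ∧ A (i + j)) → I.card ≤ C j := by
    intro j
    by_cases hj : 0 < j
    · obtain ⟨n0, hn0⟩ := hC j hj W
      exact ⟨n0, fun _ => hn0⟩
    · exact ⟨0, fun h => absurd h hj⟩
  choose n0 hn0 using h''
  refine ⟨∑ j ∈ Finset.Icc 1 J, n0 j, fun n hn I hI hA => ?_⟩
  set I1 := I.filter (fun i => ∃ j ∈ Finset.Icc 1 J, i + j ∈ I) with hI1
  set I2 := I.filter (fun i => ¬ ∃ j ∈ Finset.Icc 1 J, i + j ∈ I) with hI2
  have hsum : I1.card + I2.card = I.card := by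
    rw [hI1, hI2]
    exact Finset.card_filter_add_card_filter_not _
  have h1 : I1.card ≤ ∑ j ∈ Finset.Icc 1 J, C j := by
    have hsub : I1 ⊆ (Finset.Icc 1 J).biUnion (fun j => I.filter (fun i => i + j ∈ I)) := by
      intro i hi
      rw [hI1, Finset.mem_filter] at hi
      obtain ⟨hi1, j, hj, hij⟩ := hi
      exact Finset.mem_biUnion.mpr ⟨j, hj, Finset.mem_filter.mpr ⟨hi1, hij⟩⟩
    refine (Finset.card_le_card hsub).trans (Finset.card_biUnion_le.trans ?_)
    refine Finset.sum_le_sum fun j hj => ?_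
    refine hn0 j (Finset.mem_Icc.mp hj).1 n ?_ _ ((Finset.filter_subset _ _).trans hI) ?_
    · exact (Finset.single_le_sum (f := n0) (fun _ _ => Nat.zero_le _) hj).trans hn
    · intro i hi
      rw [Finset.mem_filter] at hi
      exact ⟨hA i hi.1, hA _ hi.2⟩
  have h2 : (J + 1) * I2.card ≤ W + J + 1 := by
    have hdis : (I2 : Set ℕ).PairwiseDisjoint (fun i => Finset.Icc i (i + J)) := by
      have key : ∀ a ∈ I2, ∀ b ∈ I2, a < b → ¬ b ≤ a + J := by
        intro a ha b hb hab hle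
        rw [hI2, Finset.mem_filter] at ha hb
        apply ha.2
        refine ⟨b - a, Finset.mem_Icc.mpr ⟨by omega, by omega⟩, ?_⟩
        rw [Nat.add_sub_cancel' hab.le]
        exact hb.1
      intro a ha b hb hab
      rw [Function.onFun, Finset.disjoint_left]
      intro x hx hx'
      rw [Finset.mem_Icc] at hx hx'
      rcases lt_or_gt_of_ne hab with hlt | hlt
      · exact key a ha b hb hlt (by omega)
      · exact key b hb a ha hlt (by omega)
    have h3 := Finset.card_biUnion hdis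
    have h4 : ∀ i ∈ I2, (Finset.Icc i (i + J)).card = J + 1 := by
      intro i _
      rw [Nat.card_Icc]
      omega
    rw [Finset.sum_congr rfl h4, Finset.sum_const, smul_eq_mul] at h3
    have h5 : I2.biUnion (fun i => Finset.Icc i (i + J)) ⊆ Finset.Icc n (n + (W + J)) := by
      intro x hx
      obtain ⟨i, hi, hxi⟩ := Finset.mem_biUnion.mp hx
      have h6 := Finset.mem_Icc.mp (hI (Finset.mem_filter.mp hi).1)
      rw [Finset.mem_Icc] at hxi ⊢
      constructor <;> omega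
    have h6 := Finset.card_le_card h5
    rw [h3, Nat.card_Icc] at h6
    rw [mul_comm]
    omega
  rw [← hsum, mul_add]
  have h3 : (J + 1) * I1.card ≤ (J + 1) * ∑ j ∈ Finset.Icc 1 J, C j := Nat.mul_le_mul_left _ h1
  omega

section

variable {M : Type*} [Field M]

theorem itp_lc (φ : M[X]) (hd : 2 ≤ φ.natDegree) (n : ℕ) :
    ∃ e : ℕ, (itp φ n).leadingCoeff = φ.leadingCoeff ^ e := by
  induction n with
  | zero => exact ⟨0, by simp [itp]⟩
  | succ n ih =>
    obtain ⟨e, he⟩ := ih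
    refine ⟨1 + e * φ.natDegree, ?_⟩
    rw [itp_succ, leadingCoeff_comp, he, pow_add, pow_one, pow_mul]
    rw [itp_natDegree]
    exact (pow_pos (by omega) _).ne'

/-- the polynomial `(φ(X) - x)(φ^(j+1)(X) - x)` -/
noncomputable def gp (φ : M[X]) (x : M) (j : ℕ) : M[X] := (φ - C x) * (itp φ (j + 1) - C x)

theorem gp_data {φ : M[X]} (hd : 2 ≤ φ.natDegree) (hlc : IsSquare φ.leadingCoeff) (x : M) (j : ℕ) :
    ∃ (E : ℕ) (b : M), b ≠ 0 ∧ (gp φ x j).natDegree = 2 * E ∧ (gp φ x j).leadingCoeff = b * b := by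
  have hφ0 : φ ≠ 0 := by rintro rfl; simp at hd
  have h1 : ∀ n, (itp φ (n + 1) - C x).natDegree = φ.natDegree ^ (n + 1) := by
    intro n; rw [natDegree_sub_C, itp_natDegree]
  have h2 : ∀ n, (itp φ (n + 1) - C x).leadingCoeff = (itp φ (n + 1)).leadingCoeff := by
    intro n
    rw [leadingCoeff, leadingCoeff, natDegree_sub_C, coeff_sub, coeff_C_of_ne_zero, sub_zero]
    rw [itp_natDegree]
    exact (pow_pos (by omega) _).ne'
  have h3 : (φ - C x).natDegree = φ.natDegree := natDegree_sub_C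
  have h4 : (φ - C x).leadingCoeff = φ.leadingCoeff := by
    rw [leadingCoeff, leadingCoeff, natDegree_sub_C, coeff_sub, coeff_C_of_ne_zero, sub_zero]
    omega
  have h5 : φ - C x ≠ 0 := by
    intro h; rw [h, natDegree_zero] at h3; omega
  have h6 : itp φ (j + 1) - C x ≠ 0 := by
    intro h
    have h7 := h1 j
    rw [h, natDegree_zero] at h7
    have : 0 < φ.natDegree ^ (j + 1) := pow_pos (by omega) _
    omega
  obtain ⟨r, hr⟩ := hlc
  obtain ⟨e, he⟩ := itp_lc φ hd (j + 1)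
  have hr0 : r ≠ 0 := by
    rintro rfl
    rw [mul_zero] at hr
    exact hφ0 (leadingCoeff_eq_zero.mp hr)
  obtain ⟨E, hE⟩ : ∃ E, φ.natDegree + φ.natDegree ^ (j + 1) = 2 * E := by
    have h8 : Even (φ.natDegree + φ.natDegree ^ (j + 1)) := by
      rcases Nat.even_or_odd φ.natDegree with h | h
      · exact h.add (h.pow_of_ne_zero (by omega))
      · exact h.add_odd h.pow
    obtain ⟨E, hE⟩ := h8
    exact ⟨E, by omega⟩
  refine ⟨E, r ^ (1 + e), pow_ne_zero _ hr0, ?_, ?_⟩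
  · rw [gp, natDegree_mul h5 h6, h3, h1, hE]
  · rw [gp, leadingCoeff_mul, h4, h2, he, hr]
    ring

theorem gp_not_square {φ : M[X]} (hd : 2 ≤ φ.natDegree) {x : M}
    (hx : ∀ n, 0 < n → (ph φ)^[n] x ≠ x) (hs : (φ - C x).Separable) (j : ℕ) (hj : 0 < j) (i : ℕ)
    (hi : 0 < i) : ¬ IsSquare (gp φ x j * (gp φ x j).comp (itp φ i)) := by
  rintro ⟨s, hs2⟩
  set Ω := AlgebraicClosure M
  obtain ⟨u, hu⟩ := IsAlgClosed.exists_aeval_eq_zero Ω (φ - C x) (by
    rw [degree_sub_C (natDegree_pos_iff_degree_pos.mp (by omega))]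
    exact (natDegree_pos_iff_degree_pos.mp (by omega)).ne')
  have hφu : ph φ u = algebraMap M Ω x := by
    rw [map_sub, aeval_C, sub_eq_zero] at hu
    exact hu
  -- iterates of `u`
  have hit : ∀ n, 0 < n → (ph φ)^[n + 1] u ≠ algebraMap M Ω x := by
    intro n hn h
    rw [Function.iterate_succ_apply, hφu, ← Pool.Agent.TameArb.iter_algebraMap] at h
    exact hx n hn ((algebraMap M Ω).injective h)
  set Q := (itp φ (j + 1) - C x) * (gp φ x j).comp (itp φ i) with hQ
  have hQu : aeval u Q ≠ 0 := by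
    rw [hQ, map_mul, aeval_comp, itp_aeval, gp, map_mul, map_sub, map_sub, map_sub, itp_aeval,
      itp_aeval, aeval_C, aeval_C]
    refine mul_ne_zero (sub_ne_zero.mpr (hit j hj)) (mul_ne_zero (sub_ne_zero.mpr ?_)
      (sub_ne_zero.mpr ?_))
    · have h1 : aeval ((ph φ)^[i] u) φ = (ph φ)^[i + 1] u := by
        rw [Function.iterate_succ_apply']; rfl
      rw [h1]
      exact hit i hi
    · rw [← Function.iterate_add_apply, show j + 1 + i = (j + i) + 1 by omega]
      exact hit _ (by omega)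
  have hPQ : gp φ x j * (gp φ x j).comp (itp φ i) = (φ - C x) * Q := by
    rw [hQ, gp]; ring
  rw [hPQ] at hs2
  have h1 : aeval u s = 0 := by
    have h2 := congrArg (aeval u) hs2
    rw [map_mul, hu, zero_mul, map_mul] at h2
    exact mul_self_eq_zero.mp h2.symm
  have h2 := congrArg (fun p => aeval u (derivative p)) hs2
  simp only [derivative_mul, map_add, map_mul, h1, hu, zero_mul, mul_zero, add_zero] at h2
  rcases mul_eq_zero.mp h2 with h3 | h3
  · exact hs.aeval_derivative_ne_zero hu h3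
  · exact hQu h3

end

section

variable {M : Type*} [Field M] [NumberField M]

/-- the indices with square values form a sparse set -/
theorem sparse_squares {φ : M[X]} (hd : 2 ≤ φ.natDegree) {z : ℕ → M}
    (hz : ∀ n, z (n + 1) = φ.eval (z n)) (hinj : Function.Injective z)
    (hlc : IsSquare φ.leadingCoeff) {x : M}
    (hx : ∀ n, 0 < n → (ph φ)^[n] x ≠ x) (hs : (φ - C x).Separable) (J : ℕ) :
    ∃ C : ℕ, ∀ W : ℕ, ∃ n0 : ℕ, ∀ n ≥ n0, ∀ I ⊆ Finset.Icc n (n + W),
      (∀ i ∈ I, IsSquare (z (i + 1) - x)) → (J + 1) * I.card ≤ C + W := by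
  apply sparse (fun i => IsSquare (z (i + 1) - x))
  intro j hj
  obtain ⟨E, b, hb, hgd, hgl⟩ := gp_data hd hlc x j
  obtain ⟨C', hC⟩ := few_squares hd hz hinj hb hgd hgl
    (fun i hi => gp_not_square hd hx hs j hj i hi)
  refine ⟨C', fun W => ?_⟩
  obtain ⟨n0, hn0⟩ := hC W
  refine ⟨n0, fun n hn I hI h => hn0 n hn I hI fun i hi => ?_⟩
  obtain ⟨h1, h2⟩ := h i hi
  have h3 : (gp φ x j).eval (z i) = (z (i + 1) - x) * (z (i + j + 1) - x) := by
    rw [gp, eval_mul, eval_sub, eval_sub, eval_C, ← hz, ← orbit_itp hz i (j + 1)]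
    rfl
  rw [h3]
  exact h1.mul h2

end

end Pool.Agent.Arb2
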