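import Pool.Agent.Arb2.Swap

/-!
# Eventual stability over finite extensions
-/

set_option autoImplicit false

open Polynomial

namespace Pool.Agent.Arb2

open Pool.Agent.TameArb

/-- far preimages of a nonperiodic point are not critical values -/
theorem exists_noncrit {K : Type} [Field K] [CharZero K] {φ : K[X]} (hd : 2 ≤ φ.natDegree)
    {γ : K} (hγ : ∀ n, 0 < n → (ph φ)^[n] γ ≠ γ) :
    ∃ n2 : ℕ, ∀ n ≥ n2, ∀ (F : Type) [Field F] [Algebra K F] (w : F),
      (ph φ)^[n] w = algebraMap K F γ → (φ.map (algebraMap K F) - C w).Separable := by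
  classical
  set Ω := AlgebraicClosure K with hΩ
  have hd0 : derivative φ ≠ 0 := by
    intro h
    have h1 := natDegree_derivative φ
    rw [h, natDegree_zero] at h1
    omega
  have hdΩ : (derivative φ).map (algebraMap K Ω) ≠ 0 :=
    (Polynomial.map_ne_zero_iff (algebraMap K Ω).injective).mpr hd0
  have hone : ∀ a : Ω, {n : ℕ | (ph φ)^[n] a = algebraMap K Ω γ}.Subsingleton := by
    have key : ∀ a : Ω, ∀ m n : ℕ, m < n → (ph φ)^[m] a = algebraMap K Ω γ →
        (ph φ)^[n] a = algebraMap K Ω γ → False := by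
      intro a m n hmn h1 h2
      apply hγ (n - m) (by omega)
      apply (algebraMap K Ω).injective
      rw [iter_algebraMap, ← h1, ← Function.iterate_add_apply, show n - m + m = n by omega, h2,
        h1]
    intro a m hm n hn
    by_contra hne
    rcases lt_or_gt_of_ne hne with h | h
    · exact key a m n h hm hn
    · exact key a n m h hn hm
  have hfin : (⋃ a ∈ ((derivative φ).map (algebraMap K Ω)).roots.toFinset,
      {n : ℕ | (ph φ)^[n] a = algebraMap K Ω γ}).Finite :=
    Set.Finite.biUnion (Finset.finite_toSet _) fun a _ => (hone a).finite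
  obtain ⟨N, hN⟩ := hfin.bddAbove
  refine ⟨N, ?_⟩
  intro n hn F _ _ w hw
  refine (isCoprime_iff_aeval_ne_zero_of_isAlgClosed F (AlgebraicClosure F) _ _).mpr fun u => ?_
  by_contra hcon
  push Not at hcon
  obtain ⟨h1, h2⟩ := hcon
  rw [map_sub, aeval_C, aeval_map_algebraMap] at h1
  rw [derivative_sub, derivative_C, sub_zero, derivative_map, aeval_map_algebraMap] at h2
  -- an embedding
  let ι : Ω →ₐ[K] AlgebraicClosure F := IsAlgClosed.lift
  have hιi : ∀ x y : Ω, ι x = ι y → x = y := fun x y h => ι.toRingHom.injective h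
  have h3 : (((derivative φ).map (algebraMap K Ω)).map (ι : Ω →+* AlgebraicClosure F)).IsRoot
      u := by
    rw [IsRoot.def, map_map]
    have h4 : (ι : Ω →+* AlgebraicClosure F).comp (algebraMap K Ω) =
        algebraMap K (AlgebraicClosure F) := ι.comp_algebraMap
    rw [h4, eval_map_algebraMap]; exact h2
  obtain ⟨a, ha⟩ := (IsAlgClosed.splits ((derivative φ).map (algebraMap K Ω))).mem_range_of_isRoot
    hdΩ h3
  have ha' : ι a = u := ha
  have ha0 : a ∈ ((derivative φ).map (algebraMap K Ω)).roots.toFinset := by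
    rw [Multiset.mem_toFinset, mem_roots hdΩ, IsRoot.def]
    apply hιi
    rw [map_zero, eval_map_algebraMap, ← aeval_algHom_apply, ha']
    exact h2
  have h4 : (ph φ)^[n + 1] a = algebraMap K Ω γ := by
    apply hιi
    rw [iter_hom, ι.commutes, ha', Function.iterate_succ_apply]
    have h5 : ph φ u = algebraMap F (AlgebraicClosure F) w := sub_eq_zero.mp h1
    rw [h5]
    have h6 : algebraMap F (AlgebraicClosure F) ((ph φ)^[n] w) =
        (ph φ)^[n] (algebraMap F (AlgebraicClosure F) w) :=
      iter_hom φ (IsScalarTower.toAlgHom K F (AlgebraicClosure F)) n w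
    rw [← h6, hw, ← IsScalarTower.algebraMap_apply]
  have h5 := hN (Set.mem_biUnion (Finset.mem_coe.mpr ha0) h4)
  omega

section

variable {K E Ω : Type} [Field K] [Field E] [CharZero E] [Field Ω] [Algebra K E] [Algebra K Ω]
  [Algebra E Ω] [IsScalarTower K E Ω] [IsAlgClosure E Ω]

omit [CharZero E] in
theorem minpoly_ph (φ : K[X]) {x y : Ω} (h : minpoly E x = minpoly E y) :
    minpoly E (ph φ x) = minpoly E (ph φ y) := by
  have hN : Normal E Ω := IsAlgClosure.normal E Ω
  obtain ⟨s, hs⟩ := (isConjRoot_iff_exists_algEquiv (K := E) (x := x) (y := y)).mp h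
  have h1 : s (ph φ y) = ph φ (s y) := ph_hom φ (s.restrictScalars K : Ω →ₐ[K] Ω) y
  rw [← minpoly.algEquiv_eq s (ph φ y), h1, hs]

/-- the number of points with a given minimal polynomial -/
theorem card_minpoly [DecidableEq E[X]] (T : Finset Ω) {x : Ω}
    (hT : ∀ y, minpoly E y = minpoly E x → y ∈ T) :
    (T.filter (fun y => minpoly E y = minpoly E x)).card = (minpoly E x).natDegree := by
  classical
  have halg : Algebra.IsAlgebraic E Ω := IsAlgClosure.isAlgebraic
  have hcl : IsAlgClosed Ω := IsAlgClosure.isAlgClosed E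
  have hint : ∀ y : Ω, IsIntegral E y := fun y => Algebra.IsIntegral.isIntegral y
  have hsep : (minpoly E x).Separable := (minpoly.irreducible (hint x)).separable
  have hspl : ((minpoly E x).map (algebraMap E Ω)).Splits := IsAlgClosed.splits _
  have hcr := card_rootSet_eq_natDegree hsep hspl
  simp_rw [rootSet_def, Finset.coe_sort_coe, Fintype.card_coe] at hcr
  rw [← hcr]
  congr 1
  ext y
  rw [Finset.mem_filter, Multiset.mem_toFinset, mem_aroots]
  constructor
  · rintro ⟨-, h⟩
    refine ⟨minpoly.ne_zero (hint x), ?_⟩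
    rw [← h]; exact minpoly.aeval E y
  · rintro ⟨-, h⟩
    have h1 : minpoly E x = minpoly E y :=
      minpoly.eq_of_irreducible_of_monic (minpoly.irreducible (hint x)) h
        (minpoly.monic (hint x))
    exact ⟨hT y h1.symm, h1.symm⟩

/-- **Stability.** -/
theorem stab' {φ : K[X]} (hd : 2 ≤ φ.natDegree) (γ : K) (C : ℕ)
    (hbd : ∀ n, ∀ S : Finset E[X],
      (∀ p ∈ S, ∃ x : Ω, (ph φ)^[n] x = algebraMap K Ω γ ∧ minpoly E x = p) → S.card ≤ C) :
    ∃ n1 : ℕ, ∀ n ≥ n1, (∀ h, ∀ y y' : Ω, (ph φ)^[n + h] y = algebraMap K Ω γ →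
      (ph φ)^[n + h] y' = algebraMap K Ω γ →
      minpoly E ((ph φ)^[h] y) = minpoly E ((ph φ)^[h] y') → minpoly E y = minpoly E y') := by
  classical
  have halg : Algebra.IsAlgebraic E Ω := IsAlgClosure.isAlgebraic
  have hcl : IsAlgClosed Ω := IsAlgClosure.isAlgClosed E
  choose T hTc hT using fun n => exists_fibre φ hd n (algebraMap K Ω γ)
  have hphK : ∀ (n : ℕ) (x y : Ω), minpoly E x = minpoly E y →
      minpoly E ((ph φ)^[n] x) = minpoly E ((ph φ)^[n] y) := by
    intro n x y h
    induction n with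
    | zero => exact h
    | succ n ih =>
      rw [Function.iterate_succ_apply', Function.iterate_succ_apply']
      exact minpoly_ph φ ih
  have hclosed : ∀ n, ∀ x ∈ T n, ∀ y, minpoly E y = minpoly E x → y ∈ T n := by
    intro n x hx y h
    rw [hT] at hx ⊢
    have h1 := hphK n y x h
    rw [hx, IsScalarTower.algebraMap_apply K E Ω, minpoly.eq_X_sub_C] at h1
    have h2 := minpoly.aeval E ((ph φ)^[n] y)
    rw [h1, map_sub, aeval_X, aeval_C, sub_eq_zero] at h2
    rw [h2, ← IsScalarTower.algebraMap_apply]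
  set R : ℕ → Finset E[X] := fun n => (T n).image (minpoly E) with hR
  -- the bound
  have hbd : ∀ n, (R n).card ≤ C := by
    intro n
    apply hbd n
    intro p hp
    obtain ⟨x, hx, h⟩ := Finset.mem_image.mp hp
    exact ⟨x, (hT n x).mp hx, h⟩
  -- the map between the classes
  have hrep : ∀ n, ∀ p : E[X], ∃ x : Ω, p ∈ R n → x ∈ T n ∧ minpoly E x = p := by
    intro n p
    by_cases hp : p ∈ R n
    · obtain ⟨x, hx, h⟩ := Finset.mem_image.mp hp
      exact ⟨x, fun _ => ⟨hx, h⟩⟩
    · exact ⟨0, fun h => absurd h hp⟩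
  choose r hr using hrep
  set g : ℕ → E[X] → E[X] := fun n p => minpoly E (ph φ (r (n + 1) p)) with hg
  have hgval : ∀ n, ∀ y ∈ T (n + 1), g n (minpoly E y) = minpoly E (ph φ y) := by
    intro n y hy
    have h1 := (hr (n + 1) (minpoly E y) (Finset.mem_image_of_mem _ hy)).2
    exact minpoly_ph φ h1
  have hTs : ∀ n, ∀ y ∈ T (n + 1), ph φ y ∈ T n := by
    intro n y hy
    rw [hT] at hy ⊢
    rw [← hy, Function.iterate_succ_apply]
  have hmaps : ∀ n, Set.MapsTo (g n) (R (n + 1)) (R n) := by
    intro n p hp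
    obtain ⟨y, hy, rfl⟩ := Finset.mem_image.mp (Finset.mem_coe.mp hp)
    rw [hgval n y hy]
    exact Finset.mem_coe.mpr (Finset.mem_image_of_mem _ (hTs n y hy))
  have hsurj : ∀ n, Set.SurjOn (g n) (R (n + 1)) (R n) := by
    intro n p hp
    obtain ⟨w, hw, rfl⟩ := Finset.mem_image.mp (Finset.mem_coe.mp hp)
    obtain ⟨y, hy⟩ : ∃ y : Ω, ph φ y = w := by
      have hdeg : (φ.map (algebraMap K Ω) - Polynomial.C w).degree ≠ 0 := by
        have h1 : (φ.map (algebraMap K Ω) - Polynomial.C w).natDegree = φ.natDegree := by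
          rw [natDegree_sub_C, natDegree_map]
        intro h0
        have := natDegree_eq_zero_iff_degree_le_zero.mpr h0.le
        omega
      obtain ⟨y, hy⟩ := IsAlgClosed.exists_root _ hdeg
      refine ⟨y, ?_⟩
      rw [IsRoot.def, eval_sub, eval_C, sub_eq_zero] at hy
      rw [ph_eq_eval_map]; exact hy
    have hyT : y ∈ T (n + 1) := by
      rw [hT, Function.iterate_succ_apply, hy]
      exact (hT n w).mp hw
    refine ⟨minpoly E y, Finset.mem_coe.mpr (Finset.mem_image_of_mem _ hyT), ?_⟩
    rw [hgval n y hyT, hy]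
  have hmono : Monotone fun n => (R n).card := by
    apply monotone_nat_of_le_succ
    intro n
    have h1 : (R n) ⊆ (R (n + 1)).image (g n) := by
      intro p hp
      obtain ⟨q, hq, hqp⟩ := hsurj n (Finset.mem_coe.mpr hp)
      exact Finset.mem_image.mpr ⟨q, Finset.mem_coe.mp hq, hqp⟩
    exact (Finset.card_le_card h1).trans Finset.card_image_le
  -- the sequence is eventually constant
  obtain ⟨n1, hn1⟩ : ∃ n1, ∀ n, (R n).card ≤ (R n1).card := by
    by_contra hcon
    push Not at hcon
    have h1 : ∀ k, ∃ n, k ≤ (R n).card := by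
      intro k
      induction k with
      | zero => exact ⟨0, Nat.zero_le _⟩
      | succ k ih =>
        obtain ⟨n, hn⟩ := ih
        obtain ⟨m, hm⟩ := hcon n
        exact ⟨m, by omega⟩
    obtain ⟨n, hn⟩ := h1 (C + 1)
    have := hbd n
    omega
  have hinj : ∀ n ≥ n1, ∀ y ∈ T (n + 1), ∀ y' ∈ T (n + 1),
      minpoly E (ph φ y) = minpoly E (ph φ y') → minpoly E y = minpoly E y' := by
    intro n hn y hy y' hy' h
    have hcard : (R (n + 1)).card ≤ (R n).card := (hn1 (n + 1)).trans (hmono hn)
    have h1 := Finset.injOn_of_surjOn_of_card_le (g n) (hmaps n) (hsurj n) hcard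
    apply h1 (Finset.mem_coe.mpr (Finset.mem_image_of_mem _ hy))
      (Finset.mem_coe.mpr (Finset.mem_image_of_mem _ hy'))
    rw [hgval n y hy, hgval n y' hy', h]
  refine ⟨n1, fun n hn h => ?_⟩
  induction h with
  | zero => intro y y' _ _ h; exact h
  | succ h ih =>
    intro y y' hy hy' hm
    rw [Function.iterate_succ_apply, Function.iterate_succ_apply] at hm
    have h1 : (ph φ)^[n + h] (ph φ y) = algebraMap K Ω γ := by
      rw [← Function.iterate_succ_apply]; exact hy
    have h2 : (ph φ)^[n + h] (ph φ y') = algebraMap K Ω γ := by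
      rw [← Function.iterate_succ_apply]; exact hy'
    exact hinj (n + h) (by omega) y ((hT _ _).mpr hy) y' ((hT _ _).mpr hy') (ih _ _ h1 h2 hm)

/-- **Stability**, from the growth of the degrees. -/
theorem stab {φ : K[X]} (hd : 2 ≤ φ.natDegree) (γ : K) (C : ℕ)
    (hgrow : ∀ n, ∀ x : Ω, (ph φ)^[n] x = algebraMap K Ω γ →
      φ.natDegree ^ n ≤ C * (minpoly E x).natDegree) :
    ∃ n1 : ℕ, ∀ n ≥ n1, (∀ h, ∀ y y' : Ω, (ph φ)^[n + h] y = algebraMap K Ω γ →
      (ph φ)^[n + h] y' = algebraMap K Ω γ →
      minpoly E ((ph φ)^[h] y) = minpoly E ((ph φ)^[h] y') → minpoly E y = minpoly E y') := by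
  classical
  have halg : Algebra.IsAlgebraic E Ω := IsAlgClosure.isAlgebraic
  have hcl : IsAlgClosed Ω := IsAlgClosure.isAlgClosed E
  apply stab' hd γ C
  intro n S hS
  obtain ⟨T, hTc, hT⟩ := exists_fibre φ hd n (algebraMap K Ω γ)
  have hphK : ∀ (n : ℕ) (x y : Ω), minpoly E x = minpoly E y →
      minpoly E ((ph φ)^[n] x) = minpoly E ((ph φ)^[n] y) := by
    intro n x y h
    induction n with
    | zero => exact h
    | succ n ih =>
      rw [Function.iterate_succ_apply', Function.iterate_succ_apply']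
      exact minpoly_ph φ ih
  have hclosed : ∀ x, (ph φ)^[n] x = algebraMap K Ω γ → ∀ y, minpoly E y = minpoly E x →
      y ∈ T := by
    intro x hx y h
    rw [hT]
    have h1 := hphK n y x h
    rw [hx, IsScalarTower.algebraMap_apply K E Ω, minpoly.eq_X_sub_C] at h1
    have h2 := minpoly.aeval E ((ph φ)^[n] y)
    rw [h1, map_sub, aeval_X, aeval_C, sub_eq_zero] at h2
    rw [h2, ← IsScalarTower.algebraMap_apply]
  have h2 : S.card * φ.natDegree ^ n ≤ C * T.card := by
    have h1 : (T.filter (fun y => minpoly E y ∈ S)).card =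
        ∑ p ∈ S, ((T.filter (fun y => minpoly E y ∈ S)).filter (fun y => minpoly E y = p)).card :=
      Finset.card_eq_sum_card_fiberwise fun x hx => (Finset.mem_filter.mp hx).2
    have h3 : (T.filter (fun y => minpoly E y ∈ S)).card ≤ T.card :=
      Finset.card_le_card (Finset.filter_subset _ _)
    refine le_trans ?_ (Nat.mul_le_mul_left C h3)
    rw [h1, Finset.mul_sum, ← smul_eq_mul, ← Finset.sum_const]
    refine Finset.sum_le_sum fun p hp => ?_
    obtain ⟨x, hx, rfl⟩ := hS p hp
    rw [card_minpoly (T.filter (fun y => minpoly E y ∈ S)) (fun y hy => by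
      rw [Finset.mem_filter]
      exact ⟨hclosed x hx y hy, by rw [hy]; exact hp⟩)]
    exact hgrow n x hx
  have h3 : S.card * φ.natDegree ^ n ≤ C * φ.natDegree ^ n :=
    h2.trans (Nat.mul_le_mul_left _ hTc)
  exact Nat.le_of_mul_le_mul_right h3 (pow_pos (by omega) _)

/-- degrees of far preimages -/
theorem stab_degree {φ : K[X]} (hd : 2 ≤ φ.natDegree) (γ : K) {n1 : ℕ}
    (h1 : ∀ n ≥ n1, (∀ h, ∀ y y' : Ω, (ph φ)^[n + h] y = algebraMap K Ω γ →
      (ph φ)^[n + h] y' = algebraMap K Ω γ →
      minpoly E ((ph φ)^[h] y) = minpoly E ((ph φ)^[h] y') → minpoly E y = minpoly E y'))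
    (h2 : ∀ n ≥ n1, ∀ w : Ω, (ph φ)^[n] w = algebraMap K Ω γ →
      (φ.map (algebraMap K Ω) - Polynomial.C w).Separable) :
    ∀ n ≥ n1, ∀ h, ∀ y : Ω, (ph φ)^[n + h] y = algebraMap K Ω γ →
      (minpoly E y).natDegree = φ.natDegree ^ h * (minpoly E ((ph φ)^[h] y)).natDegree := by
  classical
  have halg : Algebra.IsAlgebraic E Ω := IsAlgClosure.isAlgebraic
  have hcl : IsAlgClosed Ω := IsAlgClosure.isAlgClosed E
  choose T hTc hT using fun n => exists_fibre φ hd n (algebraMap K Ω γ)
  have hphK : ∀ (n : ℕ) (x y : Ω), minpoly E x = minpoly E y →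
      minpoly E ((ph φ)^[n] x) = minpoly E ((ph φ)^[n] y) := by
    intro n x y h
    induction n with
    | zero => exact h
    | succ n ih =>
      rw [Function.iterate_succ_apply', Function.iterate_succ_apply']
      exact minpoly_ph φ ih
  have hclosed : ∀ n, ∀ x ∈ T n, ∀ y, minpoly E y = minpoly E x → y ∈ T n := by
    intro n x hx y h
    rw [hT] at hx ⊢
    have h1 := hphK n y x h
    rw [hx, IsScalarTower.algebraMap_apply K E Ω, minpoly.eq_X_sub_C] at h1
    have h2 := minpoly.aeval E ((ph φ)^[n] y)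
    rw [h1, map_sub, aeval_X, aeval_C, sub_eq_zero] at h2
    rw [h2, ← IsScalarTower.algebraMap_apply]
  have hfib : ∀ n ≥ n1, ∀ w ∈ T n, ((T (n + 1)).filter (fun y => ph φ y = w)).card =
      φ.natDegree := by
    intro n hn w hw
    set P : Polynomial Ω := φ.map (algebraMap K Ω) - Polynomial.C w with hP
    have hPd : P.natDegree = φ.natDegree := by rw [hP, natDegree_sub_C, natDegree_map]
    have hPsep : P.Separable := h2 n hn w ((hT n w).mp hw)
    have hspl : (P.map (algebraMap Ω Ω)).Splits := IsAlgClosed.splits _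
    have hcr := card_rootSet_eq_natDegree hPsep hspl
    simp_rw [rootSet_def, Finset.coe_sort_coe, Fintype.card_coe] at hcr
    rw [← hPd, ← hcr]
    congr 1
    ext y
    rw [Finset.mem_filter, Multiset.mem_toFinset, mem_aroots]
    have h3 : aeval y P = ph φ y - w := by
      rw [hP, map_sub, aeval_C, aeval_map_algebraMap]; rfl
    rw [h3, sub_eq_zero]
    constructor
    · rintro ⟨-, h⟩
      exact ⟨hPsep.ne_zero, h⟩
    · rintro ⟨-, h⟩
      refine ⟨?_, h⟩
      rw [hT, Function.iterate_succ_apply, h]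
      exact (hT n w).mp hw
  have hstep : ∀ n ≥ n1, ∀ y ∈ T (n + 1),
      (minpoly E y).natDegree = φ.natDegree * (minpoly E (ph φ y)).natDegree := by
    intro n hn y hy
    have hwT : ph φ y ∈ T n := by
      rw [hT] at hy ⊢
      rw [← hy, Function.iterate_succ_apply]
    rw [← card_minpoly (T (n + 1)) (hclosed _ y hy), ← card_minpoly (T n) (hclosed _ _ hwT)]
    have h3 : (T (n + 1)).filter (fun z => minpoly E z = minpoly E y) =
        ((T n).filter (fun z => minpoly E z = minpoly E (ph φ y))).biUnion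
          (fun w => (T (n + 1)).filter (fun z => ph φ z = w)) := by
      ext z
      rw [Finset.mem_filter, Finset.mem_biUnion]
      constructor
      · rintro ⟨hz, hm⟩
        refine ⟨ph φ z, ?_, ?_⟩
        · rw [Finset.mem_filter]
          refine ⟨?_, minpoly_ph φ hm⟩
          rw [hT] at hz ⊢
          rw [← hz, Function.iterate_succ_apply]
        · rw [Finset.mem_filter]
          exact ⟨hz, rfl⟩
      · rintro ⟨w, hw, hz⟩
        rw [Finset.mem_filter] at hw hz
        refine ⟨hz.1, ?_⟩
        have h4 := h1 n hn 1 z y ((hT _ _).mp hz.1) ((hT _ _).mp hy)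
        apply h4
        rw [Function.iterate_one, hz.2, hw.2]
    rw [h3, Finset.card_biUnion]
    · rw [Finset.sum_congr rfl (fun w hw => hfib n hn w (Finset.mem_filter.mp hw).1),
        Finset.sum_const, smul_eq_mul, mul_comm]
    · intro a _ b _ hab
      rw [Function.onFun, Finset.disjoint_left]
      intro z hz hz'
      rw [Finset.mem_filter] at hz hz'
      exact hab (hz.2.symm.trans hz'.2)
  intro n hn h
  induction h with
  | zero => intro y _; simp
  | succ h ih =>
    intro y hy
    have h3 : (ph φ)^[n + h] (ph φ y) = algebraMap K Ω γ := by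
      rw [← Function.iterate_succ_apply]; exact hy
    rw [hstep (n + h) (by omega) y ((hT _ _).mpr hy), ih _ h3, Function.iterate_succ_apply]
    ring

end

end Pool.Agent.Arb2
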