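import Pool.Agent.Arb2.Swap1

/-!
# Transpositions from inertia groups
-/

set_option autoImplicit false

open Polynomial NumberField IsDedekindDomain
open scoped WithZero Pointwise

namespace Pool.Agent.Arb2

open Pool.Agent.TameArb

theorem exists_inert (K L : Type) [Field K] [NumberField K] [Field L] [NumberField L]
    [Algebra K L] [IsGalois K L] (v : HeightOneSpectrum (𝓞 K)) :
    ∃ (w : HeightOneSpectrum (𝓞 L)) (e : ℕ), e ≠ 0 ∧
      (∀ x : K, v.valuation K x ^ e = w.valuation L (algebraMap K L x)) ∧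
      w.asIdeal.LiesOver v.asIdeal ∧ (1 < e → ∃ σ : L ≃ₐ[K] L, σ ≠ 1 ∧
        ∀ x, w.valuation L x ≤ 1 → w.valuation L (σ x - x) < 1) := by
  classical
  obtain ⟨w, hw⟩ := exists_above (L := L) v
  have hwp : w.asIdeal.IsPrime := w.isPrime
  have hvp : v.asIdeal.IsPrime := v.isPrime
  set e := v.asIdeal.ramificationIdx' w.asIdeal with he
  have he0 : e ≠ 0 :=
    Ideal.IsDedekindDomain.ramificationIdx'_ne_zero_of_liesOver w.asIdeal v.ne_bot
  have hval : ∀ x : K, v.valuation K x ^ e = w.valuation L (algebraMap K L x) :=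
    HeightOneSpectrum.valuation_liesOver L v w
  set I : Subgroup (L ≃ₐ[K] L) := w.asIdeal.inertia (L ≃ₐ[K] L) with hI
  have hIcard : Nat.card I = e := by
    rw [hI, Ideal.card_inertia_eq_ramificationIdxIn v.asIdeal w.asIdeal,
      Ideal.ramificationIdxIn_eq_ramificationIdx v.asIdeal w.asIdeal (L ≃ₐ[K] L),
      ← Ideal.ramificationIdx'_eq_ramificationIdx v.asIdeal w.asIdeal v.ne_bot]
  have hmem : ∀ σ ∈ I, ∀ x : 𝓞 L, σ • x - x ∈ w.asIdeal := fun σ hσ => hσ
  have hst : ∀ σ ∈ I, ∀ x : 𝓞 L, σ • x ∈ w.asIdeal ↔ x ∈ w.asIdeal := by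
    intro σ hσ x
    have h1 := hmem σ hσ x
    constructor
    · intro h2
      have h3 : x = σ • x - (σ • x - x) := by ring
      rw [h3]; exact sub_mem h2 h1
    · intro h2
      have h3 : σ • x = (σ • x - x) + x := by ring
      rw [h3]; exact add_mem h1 h2
  have hI2 : ∀ σ ∈ I, ∀ x, w.valuation L x ≤ 1 → w.valuation L (σ x - x) < 1 := by
    intro σ hσ x hx
    have h1 := valuation_frob_sub w σ 1 (hst σ hσ) (fun y => by
      rw [pow_one]; exact hmem σ hσ y) x hx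
    rwa [pow_one] at h1
  refine ⟨w, e, he0, hval, hw, fun he1 => ?_⟩
  have hne : I ≠ ⊥ := by
    intro h
    rw [h, Subgroup.card_bot] at hIcard
    omega
  obtain ⟨a, ha⟩ := Subgroup.ne_bot_iff_exists_ne_one.mp hne
  exact ⟨a.1, fun h => ha (Subtype.ext h), hI2 a.1 a.2⟩

/-- **A transposition from an odd valuation.** -/
theorem swap {K M E : Type} [Field K] [CharZero K] [Field M] [NumberField M] [Field E]
    [NumberField E] [Algebra K M] [Algebra K E] [Algebra M E] [IsScalarTower K M E]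
    [IsGalois M E] {φ : K[X]} {c : K} {B : ℕ} {D : Finset K}
    (hD : DD φ c B D) (hd : 2 ≤ φ.natDegree) (hs : (derivative φ).Splits)
    (hc : (derivative φ).eval c = 0) {h : ℕ} (h1 : 1 ≤ h) (hB : h ≤ B) (w : M)
    (T : Finset E) (hT : ∀ y, y ∈ T ↔ (ph φ)^[h] y = algebraMap M E w)
    (hsplit : ((itp φ h).map (algebraMap K E) - C (algebraMap M E w)).Splits)
    (hgen : ∀ σ : E ≃ₐ[M] E, (∀ y ∈ T, σ y = y) → σ = 1)
    (hcw : (ph φ)^[h] (algebraMap K M c) ≠ w)
    (v : HeightOneSpectrum (𝓞 M)) (hv : Un D v) (hvw : v.valuation M w ≤ 1)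
    (hodd : ¬ ∃ m : ℤ, v.valuation M ((ph φ)^[h] (algebraMap K M c) - w) =
      WithZero.exp (2 * m)) :
    ∃ σ : E ≃ₐ[M] E, ∃ y1 ∈ T, ∃ y2 ∈ T, y1 ≠ y2 ∧ ph φ y1 = ph φ y2 ∧ σ y1 = y2 ∧ σ y2 = y1 ∧
      ∀ z ∈ T, z ≠ y1 → z ≠ y2 → σ z = z := by
  classical
  obtain ⟨P, e, he0, hval, hP, hin⟩ := exists_inert M E v
  set V := P.valuation E with hVdef
  have hV : ∀ a ∈ D, V (algebraMap K E a) = 1 := by
    intro a ha
    rw [IsScalarTower.algebraMap_apply K M E, ← hval, hv a ha, one_pow]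
  have hVM : ∀ a ∈ D, v.valuation M (algebraMap K M a) = 1 := hv
  have hoM := overComap (K := K) (v.valuation M)
  have hgM := hD.good hd hVM
  have ho := overComap (K := K) V
  have hg := hD.good hd hV
  have hci : V (algebraMap K E c) ≤ 1 := hD.crit_le hV hc
  have hciM : v.valuation M (algebraMap K M c) ≤ 1 := hD.crit_le hVM hc
  set δ := (ph φ)^[h] (algebraMap K M c) - w with hδ
  have hδ0 : δ ≠ 0 := sub_ne_zero.mpr hcw
  have hδle : v.valuation M δ ≤ 1 := Valuation.map_sub_le _ (hoM.iter_le hgM hciM h) hvw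
  have hδlt : v.valuation M δ < 1 := by
    refine lt_of_le_of_ne hδle fun h2 => hodd ⟨0, ?_⟩
    rw [h2]; simp
  have hδE : algebraMap M E δ = (ph φ)^[h] (algebraMap K E c) - algebraMap M E w := by
    rw [hδ, map_sub, IsScalarTower.algebraMap_apply K M E]
    congr 1
    exact iter_hom φ (IsScalarTower.toAlgHom K M E) h _
  have hclose : V ((ph φ)^[h] (algebraMap K E c) - algebraMap M E w) < 1 := by
    rw [← hδE, ← hval]
    exact pow_lt_one₀ zero_le hδlt he0
  obtain ⟨y, hy, hcy⟩ := ho.exists_root_close hg hd hsplit hclose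
  rw [Valuation.map_sub_swap] at hcy
  -- the ramification index is even
  have hval2 := hD.val hd hV hs hc h1 hB hy hcy
  rw [← hδE, ← hval] at hval2
  have hvδ0 : v.valuation M δ ≠ 0 := (Valuation.ne_zero_iff _).mpr hδ0
  have hyc0 : V (y - algebraMap K E c) ≠ 0 := by
    intro h0
    rw [h0, zero_pow two_ne_zero] at hval2
    exact pow_ne_zero _ hvδ0 hval2
  have heven : Even e := by
    rw [← WithZero.exp_log hvδ0, ← WithZero.exp_log hyc0, ← WithZero.exp_nsmul,
      ← WithZero.exp_nsmul, WithZero.exp_inj] at hval2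
    simp only [nsmul_eq_mul, Nat.cast_ofNat] at hval2
    have hnotev : ¬ Even (WithZero.log (v.valuation M δ)) := by
      rintro ⟨m, hm⟩
      apply hodd
      refine ⟨m, ?_⟩
      rw [two_mul, ← hm, WithZero.exp_log hvδ0]
    have h2 : Even ((e : ℤ) * WithZero.log (v.valuation M δ)) := by
      rw [hval2]; exact even_two_mul _
    rcases Int.even_mul.mp h2 with h3 | h3
    · exact (Int.even_coe_nat _).mp h3
    · exact absurd h3 hnotev
  have he1 : 1 < e := by
    rcases heven with ⟨k, hk⟩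
    omega
  obtain ⟨σ, hσ1, hσ⟩ := hin he1
  -- the action on the fibre
  have hwE : V (algebraMap M E w) ≤ 1 := by
    rw [← hval]; exact pow_le_one' hvw _
  have hTi : ∀ z ∈ T, V z ≤ 1 := by
    intro z hz
    apply ho.le_of_iter hg hd (n := h)
    rw [(hT z).mp hz]; exact hwE
  have hσK : ∀ (n : ℕ) (x : E), σ ((ph φ)^[n] x) = (ph φ)^[n] (σ x) := by
    intro n x
    exact iter_hom φ (σ.restrictScalars K : E →ₐ[K] E) n x
  have hσT : ∀ z ∈ T, σ z ∈ T := by
    intro z hz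
    rw [hT, ← hσK, (hT z).mp hz, σ.commutes]
  have hcl : ∀ z z', V (z - algebraMap K E c) < 1 → V (z' - algebraMap K E c) < 1 →
      V (z - z') < 1 := by
    intro y y' a b
    have : y - y' = (y - algebraMap K E c) - (y' - algebraMap K E c) := by ring
    rw [this]; exact Valuation.map_sub_lt _ a b
  have hcoll : ∀ z ∈ T, ∀ z' ∈ T, z ≠ z' → V (z - z') < 1 →
      V (z - algebraMap K E c) < 1 ∧ ph φ z = ph φ z' := by
    intro z hz z' hz' hne hzz
    exact hD.coll hd hV hs hc h1 hB hclose ((hT z).mp hz) ((hT z').mp hz') (hTi z hz) (hTi z' hz')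
      hne hzz
  have hthree : ∀ z1 ∈ T, ∀ z2 ∈ T, ∀ z3 ∈ T, V (z1 - algebraMap K E c) < 1 →
      V (z2 - algebraMap K E c) < 1 → V (z3 - algebraMap K E c) < 1 → z1 ≠ z2 → z1 ≠ z3 →
      z2 ≠ z3 → False := by
    intro z1 h1' z2 h2' z3 h3' a1 a2 a3
    exact hD.three hd hV hs hc h1 hB hclose ((hT z1).mp h1') ((hT z2).mp h2') ((hT z3).mp h3')
      a1 a2 a3
  obtain ⟨y1, hy1, hy1σ⟩ : ∃ y1 ∈ T, σ y1 ≠ y1 := by
    by_contra hcon
    push Not at hcon
    exact hσ1 (hgen σ hcon)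
  have hmoved : ∀ z ∈ T, σ z ≠ z → V (z - algebraMap K E c) < 1 ∧
      V (σ z - algebraMap K E c) < 1 ∧ ph φ z = ph φ (σ z) := by
    intro z hz hne
    have h3 := hσ z (hTi z hz)
    have h4 := hcoll (σ z) (hσT z hz) z hz hne h3
    have h5 := hcoll z hz (σ z) (hσT z hz) hne.symm (by rw [Valuation.map_sub_swap]; exact h3)
    exact ⟨h5.1, h4.1, h5.2⟩
  obtain ⟨a1, a2, a3⟩ := hmoved y1 hy1 hy1σ
  refine ⟨σ, y1, hy1, σ y1, hσT y1 hy1, hy1σ.symm, a3, rfl, ?_, ?_⟩
  · by_contra hcon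
    have h3 : σ (σ y1) ≠ σ y1 := fun h => hy1σ (σ.injective h)
    obtain ⟨b1, b2, b3⟩ := hmoved (σ y1) (hσT y1 hy1) h3
    exact hthree y1 hy1 (σ y1) (hσT y1 hy1) (σ (σ y1)) (hσT _ (hσT y1 hy1)) a1 a2 b2 hy1σ.symm
      (fun h => hcon h.symm) h3.symm
  · intro z hz hz1 hz2
    by_contra hcon
    obtain ⟨b1, b2, b3⟩ := hmoved z hz hcon
    exact hthree y1 hy1 (σ y1) (hσT y1 hy1) z hz a1 a2 b1 hy1σ.symm (fun h => hz1 h.symm)
      (fun h => hz2 h.symm)

end Pool.Agent.Arb2
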