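import Pool.Agent.Arb2.NormEven
import Pool.Agent.TameArb.TameGen

/-!
# Two preimages near the critical point: local analysis
-/

set_option autoImplicit false

open Polynomial
open scoped WithZero

namespace Pool.Agent.Arb2

open Pool.Agent.TameArb

/-- The conditions on the finite set `D` of nonzero elements that have to be units. -/
structure DD {K : Type} [Field K] (φ : K[X]) (c : K) (B : ℕ) (D : Finset K) : Prop where
  ne : ∀ a ∈ D, a ≠ 0
  coeff : ∀ i, φ.coeff i ≠ 0 → φ.coeff i ∈ D
  deg : (φ.natDegree : K) ∈ D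
  crit : ∀ a, (derivative φ).eval a = 0 → a ≠ 0 → a ∈ D
  two : (hasseDeriv 2 φ).eval c ∈ D
  diff : ∀ a, (derivative φ).eval a = 0 → ∀ i j, 1 ≤ i → i ≤ j → j ≤ B →
    (a = c → i ≠ j) → (ph φ)^[i] a - (ph φ)^[j] c ∈ D

theorem hasse_map {R S : Type*} [CommRing R] [CommRing S] (f : R →+* S) (k : ℕ) (P : R[X]) :
    hasseDeriv k (P.map f) = (hasseDeriv k P).map f := by
  ext i
  rw [hasseDeriv_coeff, coeff_map, coeff_map, hasseDeriv_coeff, map_mul, map_natCast]

section

variable {L : Type*} [Field L] {V : Valuation L ℤᵐ⁰}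

/-- three close points with the same image -/
theorem three_roots {P : L[X]} (hP : IntP V P) {a y1 y2 y3 : L} (ha : V a ≤ 1)
    (h2 : V ((hasseDeriv 2 P).eval a) = 1) (c1 : V (y1 - a) < 1) (c2 : V (y2 - a) < 1)
    (c3 : V (y3 - a) < 1) (h12 : y1 ≠ y2) (h13 : y1 ≠ y3) (h23 : y2 ≠ y3)
    (e12 : P.eval y1 = P.eval y2) (e13 : P.eval y1 = P.eval y3) : False := by
  have hy1 : V y1 ≤ 1 := by
    have : y1 = (y1 - a) + a := by ring
    rw [this]; exact Valuation.map_add_le _ c1.le ha
  set T := taylor y1 P with hT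
  have hTi : IntP V T := hP.taylor hy1
  set S := divX T with hS
  have hSc : ∀ i, S.coeff i = T.coeff (i + 1) := fun i => coeff_divX
  have hSi : IntP V S := fun i => by rw [hSc]; exact hTi _
  have hTe : ∀ y, P.eval y = S.eval (y - y1) * (y - y1) + P.eval y1 := by
    intro y
    have h3 := congrArg (eval (y - y1)) (divX_mul_X_add T)
    rw [eval_add, eval_mul, eval_X, eval_C, hT, taylor_eval, taylor_coeff_zero,
      sub_add_cancel] at h3
    exact h3.symm
  have hz : ∀ y, y ≠ y1 → P.eval y1 = P.eval y → S.eval (y - y1) = 0 := by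
    intro y hy he
    have h3 := hTe y
    rw [← he] at h3
    have h4 : S.eval (y - y1) * (y - y1) = 0 := by linear_combination -h3
    exact (mul_eq_zero.mp h4).resolve_right (sub_ne_zero.mpr hy)
  have hcl : ∀ y, V (y - a) < 1 → V (y - y1) < 1 := by
    intro y hy
    have : y - y1 = (y - a) - (y1 - a) := by ring
    rw [this]; exact Valuation.map_sub_lt _ hy c1
  -- the derivative of `S` is a unit
  have hS0 : V ((derivative S).eval 0) = 1 := by
    have h3 : (derivative S).eval 0 = (hasseDeriv 2 P).eval y1 := by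
      rw [← coeff_zero_eq_eval_zero, coeff_derivative, hSc, hT, taylor_coeff]
      simp
    rw [h3]
    have h4 := cong_eval (hP.hasse 2) ha hy1
    have h5 : (hasseDeriv 2 P).eval y1 = (hasseDeriv 2 P).eval a +
        ((hasseDeriv 2 P).eval y1 - (hasseDeriv 2 P).eval a) := by ring
    rw [h5, Valuation.map_add_eq_of_lt_left, h2]
    rw [h2]; exact h4.trans_lt c1
  have hSy : V ((derivative S).eval (y2 - y1)) = 1 := by
    have h3 := cong_eval hSi.derivative (y := (0 : L)) (z := y2 - y1) (by simp) (hcl _ c2).le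
    have h5 : (derivative S).eval (y2 - y1) = (derivative S).eval 0 +
        ((derivative S).eval (y2 - y1) - (derivative S).eval 0) := by ring
    rw [h5, Valuation.map_add_eq_of_lt_left, hS0]
    rw [hS0]
    refine h3.trans_lt ?_
    rw [sub_zero]
    exact hcl _ c2
  have h6 := eq_of_simple hSi (hcl _ c2).le (z := y3 - y1) (by
    have : y3 - y1 - (y2 - y1) = (y3 - a) - (y2 - a) := by ring
    rw [this]; exact Valuation.map_sub_lt _ c3 c2) (by
    rw [hz y3 h13.symm e13, hz y2 h12.symm e12]) hSy
  exact h23 (by linear_combination -h6)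

/-- the value near a simple critical point -/
theorem val_near_crit {P : L[X]} (hP : IntP V P) {a y : L} (ha : V a ≤ 1)
    (h1 : (derivative P).eval a = 0) (h2 : V ((hasseDeriv 2 P).eval a) = 1)
    (hy : V (y - a) < 1) : V (P.eval y - P.eval a) = V (y - a) ^ 2 := by
  set T := taylor a P with hT
  have hTi : IntP V T := hP.taylor ha
  set S := divX T with hS
  have hSc : ∀ i, S.coeff i = T.coeff (i + 1) := fun i => coeff_divX
  have hSi : IntP V S := fun i => by rw [hSc]; exact hTi _
  have hTe : P.eval y = S.eval (y - a) * (y - a) + P.eval a := by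
    have h3 := congrArg (eval (y - a)) (divX_mul_X_add T)
    rw [eval_add, eval_mul, eval_X, eval_C, hT, taylor_eval, taylor_coeff_zero,
      sub_add_cancel] at h3
    exact h3.symm
  have hS0 : S.eval 0 = 0 := by
    rw [← coeff_zero_eq_eval_zero, hSc, hT, zero_add, taylor_coeff_one, h1]
  have hS1 : (derivative S).eval 0 = (hasseDeriv 2 P).eval a := by
    rw [← coeff_zero_eq_eval_zero, coeff_derivative, hSc, hT, taylor_coeff]
    simp
  obtain ⟨q, hq, hb⟩ := binom hSi (y := (0 : L)) (u := y - a) (by simp) hy.le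
  rw [zero_add, hS0, hS1, zero_add] at hb
  have h3 : P.eval y - P.eval a = ((hasseDeriv 2 P).eval a + q * (y - a)) * (y - a) ^ 2 := by
    rw [hTe, hb]; ring
  rw [h3, map_mul, map_pow, Valuation.map_add_eq_of_lt_left, h2, one_mul]
  rw [h2, map_mul]
  exact mul_lt_one_aux hq hy

/-- the difference of values near a noncritical point -/
theorem val_diff {P : L[X]} (hP : IntP V P) {a b : L} (hb : V b ≤ 1) (hab : V (a - b) < 1)
    (hd : V ((derivative P).eval b) = 1) : V (P.eval a - P.eval b) = V (a - b) := by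
  obtain ⟨q, hq, h⟩ := binom hP hb hab.le
  rw [add_sub_cancel] at h
  have h2 : P.eval a - P.eval b = (a - b) * ((derivative P).eval b + q * (a - b)) := by
    linear_combination h
  rw [h2, map_mul, Valuation.map_add_eq_of_lt_left, hd, mul_one]
  rw [hd, map_mul]
  exact mul_lt_one_aux hq hab

end

section

variable {K : Type} [Field K] [CharZero K] {L : Type*} [Field L] [Algebra K L]
  {V : Valuation L ℤᵐ⁰} {φ : K[X]} {c : K} {B : ℕ} {D : Finset K}

omit [CharZero K] in
theorem overComap (V : Valuation L ℤᵐ⁰) : Over (V.comap (algebraMap K L)) V 1 :=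
  ⟨one_ne_zero, fun x => by rw [pow_one]; rfl⟩

omit [CharZero K] in
theorem DD.good (hD : DD φ c B D) (hd : 2 ≤ φ.natDegree)
    (hV : ∀ a ∈ D, V (algebraMap K L a) = 1) : Good (V.comap (algebraMap K L)) φ := by
  refine ⟨fun i => ?_, ?_⟩
  · by_cases h : φ.coeff i = 0
    · rw [h, map_zero]; exact zero_le
    · exact (hV _ (hD.coeff i h)).le
  · have h : φ.leadingCoeff ≠ 0 := leadingCoeff_ne_zero.mpr (by rintro rfl; simp at hd)
    exact hV _ (hD.coeff _ h)

omit [CharZero K] in
theorem DD.crit_le (hD : DD φ c B D) (hV : ∀ a ∈ D, V (algebraMap K L a) = 1) {a : K}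
    (ha : (derivative φ).eval a = 0) : V (algebraMap K L a) ≤ 1 := by
  by_cases h : a = 0
  · rw [h, map_zero, map_zero]; exact zero_le
  · exact (hV _ (hD.crit a ha h)).le

theorem DD.crit_close (hD : DD φ c B D) (hd : 2 ≤ φ.natDegree)
    (hV : ∀ a ∈ D, V (algebraMap K L a) = 1) (hs : (derivative φ).Splits) {x : L}
    (hx : V (((derivative φ).map (algebraMap K L)).eval x) < 1) :
    ∃ a : K, (derivative φ).eval a = 0 ∧ V (x - algebraMap K L a) < 1 := by
  have hd0 : derivative φ ≠ 0 := by
    intro h
    have h1 := natDegree_derivative φ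
    rw [h, natDegree_zero] at h1
    omega
  have hl : V (algebraMap K L (derivative φ).leadingCoeff) = 1 := by
    have h1 := hV _ (hD.coeff φ.natDegree (leadingCoeff_ne_zero.mpr (by rintro rfl; simp at hd)))
    rw [coeff_natDegree] at h1
    rw [leadingCoeff_derivative, map_mul, map_mul, hV _ hD.deg, h1, mul_one]
  by_contra hcon
  push Not at hcon
  have hE : ((derivative φ).map (algebraMap K L)).eval x =
      algebraMap K L (derivative φ).leadingCoeff *
        (((derivative φ).roots.map (algebraMap K L)).map (x - ·)).prod := by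
    rw [(hs.map (algebraMap K L)).eval_eq_prod_roots, leadingCoeff_map, hs.roots_map]
  rw [hE, map_mul, hl, one_mul, map_multiset_prod, Multiset.map_map, Multiset.map_map] at hx
  have h1 : 1 ≤ (((derivative φ).roots.map ((⇑V ∘ fun y => x - y) ∘ ⇑(algebraMap K L)))).prod := by
    apply Multiset.one_le_prod_of_one_le
    intro y hy
    obtain ⟨a, ha, rfl⟩ := Multiset.mem_map.mp hy
    rw [mem_roots hd0] at ha
    exact hcon a ha
  exact absurd hx (not_lt.mpr h1)

variable (hD : DD φ c B D) (hd : 2 ≤ φ.natDegree) (hV : ∀ a ∈ D, V (algebraMap K L a) = 1)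
  (hs : (derivative φ).Splits) (hc : (derivative φ).eval c = 0)

include hD hd hV hs hc

/-- colliding points of a fibre are near the critical point -/
theorem DD.coll {h : ℕ} (h1 : 1 ≤ h) (hB : h ≤ B) {w y y' : L}
    (hcw : V ((ph φ)^[h] (algebraMap K L c) - w) < 1)
    (hy : (ph φ)^[h] y = w) (hy' : (ph φ)^[h] y' = w) (hyi : V y ≤ 1) (hyi' : V y' ≤ 1)
    (hne : y ≠ y') (hcl : V (y - y') < 1) :
    V (y - algebraMap K L c) < 1 ∧ ph φ y = ph φ y' := by
  classical
  have ho := overComap (K := K) V
  have hg := hD.good hd hV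
  have hci : V (algebraMap K L c) ≤ 1 := hD.crit_le hV hc
  have hex : ∃ i, (ph φ)^[i] y = (ph φ)^[i] y' := ⟨h, by rw [hy, hy']⟩
  set i := Nat.find hex with hi
  have hi1 : (ph φ)^[i] y = (ph φ)^[i] y' := Nat.find_spec hex
  have hih : i ≤ h := Nat.find_min' hex (by rw [hy, hy'])
  have hi0 : i ≠ 0 := by
    intro h0
    rw [h0] at hi1
    exact hne hi1
  obtain ⟨k, hk⟩ : ∃ k, i = k + 1 := ⟨i - 1, by omega⟩
  have hlt : (ph φ)^[k] y ≠ (ph φ)^[k] y' := Nat.find_min hex (by omega)
  set a := (ph φ)^[k] y with ha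
  set a' := (ph φ)^[k] y' with ha'
  have hai : V a ≤ 1 := ho.iter_le hg hyi k
  have haa : V (a - a') < 1 := ho.cong_iter hg hyi hyi' hcl k
  have heq : ph φ a = ph φ a' := by
    rw [hk, Function.iterate_succ_apply', Function.iterate_succ_apply'] at hi1
    exact hi1
  -- the derivative at `a` is not a unit
  have hder : V (((derivative φ).map (algebraMap K L)).eval a) < 1 := by
    have hle : V ((derivative (φ.map (algebraMap K L))).eval a) ≤ 1 :=
      eval_le (ho.intP hg.int).derivative hai
    rw [derivative_map] at hle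
    refine lt_of_le_of_ne hle fun h1 => hlt ?_
    have := eq_of_simple (ho.intP hg.int) hai (z := a') (by rw [Valuation.map_sub_swap]; exact haa)
      (by rw [← ph_eq_eval_map, ← ph_eq_eval_map, heq]) (by rw [derivative_map]; exact h1)
    exact this.symm
  obtain ⟨e, he, hae⟩ := hD.crit_close hd hV hs hder
  have hei : V (algebraMap K L e) ≤ 1 := hD.crit_le hV he
  -- images
  have h2 : V ((ph φ)^[h - k] a - (ph φ)^[h - k] (algebraMap K L e)) < 1 :=
    ho.cong_iter hg hai hei hae _
  have h3 : (ph φ)^[h - k] a = w := by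
    rw [ha, ← Function.iterate_add_apply, show h - k + k = h by omega, hy]
  rw [h3] at h2
  have h4 : V (algebraMap K L ((ph φ)^[h - k] e - (ph φ)^[h] c)) < 1 := by
    rw [map_sub, iter_algebraMap, iter_algebraMap]
    have : (ph φ)^[h - k] (algebraMap K L e) - (ph φ)^[h] (algebraMap K L c) =
        -((ph φ)^[h] (algebraMap K L c) - w) - (w - (ph φ)^[h - k] (algebraMap K L e)) := by
      ring
    rw [this]
    exact Valuation.map_sub_lt _ (by rw [Valuation.map_neg]; exact hcw) h2
  have h5 : e = c ∧ h - k = h := by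
    by_contra hcon
    have h6 := hV _ (hD.diff e he (h - k) h (by omega) (by omega) hB (fun h7 h8 =>
      hcon ⟨h7, h8⟩))
    rw [h6] at h4
    exact lt_irrefl _ h4
  have hk0 : k = 0 := by omega
  rw [hk0] at ha hk
  rw [hk] at hi1
  refine ⟨?_, hi1⟩
  have hay : a = y := by rw [ha]; rfl
  rw [h5.1, hay] at hae
  exact hae

/-- the valuation of the critical value -/
theorem DD.val {h : ℕ} (h1 : 1 ≤ h) (hB : h ≤ B) {w y : L}
    (hy : (ph φ)^[h] y = w) (hyc : V (y - algebraMap K L c) < 1) :
    V ((ph φ)^[h] (algebraMap K L c) - w) = V (y - algebraMap K L c) ^ 2 := by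
  have ho := overComap (K := K) V
  have hg := hD.good hd hV
  have hci : V (algebraMap K L c) ≤ 1 := hD.crit_le hV hc
  have hyi : V y ≤ 1 := by
    have : y = (y - algebraMap K L c) + algebraMap K L c := by ring
    rw [this]; exact Valuation.map_add_le _ hyc.le hci
  have hint := ho.intP hg.int
  have hd0 : (derivative (φ.map (algebraMap K L))).eval (algebraMap K L c) = 0 := by
    rw [derivative_map, eval_map_algebraMap, aeval_algebraMap_apply_eq_algebraMap_eval, hc,
      map_zero]
  have hd2 : V ((hasseDeriv 2 (φ.map (algebraMap K L))).eval (algebraMap K L c)) = 1 := by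
    rw [hasse_map, eval_map_algebraMap, aeval_algebraMap_apply_eq_algebraMap_eval]
    exact hV _ hD.two
  have h2 := val_near_crit hint hci hd0 hd2 hyc
  -- further iterates
  have key : ∀ j, 1 ≤ j → j ≤ h → V ((ph φ)^[j] y - (ph φ)^[j] (algebraMap K L c)) =
      V (y - algebraMap K L c) ^ 2 := by
    intro j hj
    induction j, hj using Nat.le_induction with
    | base =>
      intro _
      rw [Function.iterate_one, ph_eq_eval_map, ph_eq_eval_map]
      exact h2
    | succ j hj ih =>
      intro hjh
      have h3 := ih (by omega)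
      rw [Function.iterate_succ_apply', Function.iterate_succ_apply', ← h3, ph_eq_eval_map,
        ph_eq_eval_map]
      apply val_diff hint (ho.iter_le hg hci j) (ho.cong_iter hg hyi hci hyc j)
      have hle : V ((derivative (φ.map (algebraMap K L))).eval
          ((ph φ)^[j] (algebraMap K L c))) ≤ 1 :=
        eval_le hint.derivative (ho.iter_le hg hci j)
      refine le_antisymm hle (not_lt.mp fun hlt => ?_)
      rw [derivative_map] at hlt
      obtain ⟨e, he, hae⟩ := hD.crit_close hd hV hs hlt
      have hei : V (algebraMap K L e) ≤ 1 := hD.crit_le hV he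
      have h4 := ho.cong hg (ho.iter_le hg hci j) hei hae
      rw [← Function.iterate_succ_apply' (ph φ)] at h4
      have h5 : V (algebraMap K L ((ph φ)^[1] e - (ph φ)^[j + 1] c)) < 1 := by
        rw [map_sub, iter_algebraMap, iter_algebraMap, Function.iterate_one,
          Valuation.map_sub_swap]
        exact h4
      rw [hV _ (hD.diff e he 1 (j + 1) le_rfl (by omega) (by omega)
        (fun _ => by omega))] at h5
      exact lt_irrefl _ h5
  have h3 := key h h1 le_rfl
  rw [hy] at h3
  rw [Valuation.map_sub_swap, h3]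

/-- at most two points of a fibre are near the critical point -/
theorem DD.three {h : ℕ} (h1 : 1 ≤ h) (hB : h ≤ B) {w y1 y2 y3 : L}
    (hcw : V ((ph φ)^[h] (algebraMap K L c) - w) < 1)
    (e1 : (ph φ)^[h] y1 = w) (e2 : (ph φ)^[h] y2 = w) (e3 : (ph φ)^[h] y3 = w)
    (c1 : V (y1 - algebraMap K L c) < 1) (c2 : V (y2 - algebraMap K L c) < 1)
    (c3 : V (y3 - algebraMap K L c) < 1) (h12 : y1 ≠ y2) (h13 : y1 ≠ y3) (h23 : y2 ≠ y3) :
    False := by
  have ho := overComap (K := K) V
  have hg := hD.good hd hV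
  have hci : V (algebraMap K L c) ≤ 1 := hD.crit_le hV hc
  have hint := ho.intP hg.int
  have hyi : ∀ y, V (y - algebraMap K L c) < 1 → V y ≤ 1 := by
    intro y hyc
    have : y = (y - algebraMap K L c) + algebraMap K L c := by ring
    rw [this]; exact Valuation.map_add_le _ hyc.le hci
  have hcl : ∀ y y', V (y - algebraMap K L c) < 1 → V (y' - algebraMap K L c) < 1 →
      V (y - y') < 1 := by
    intro y y' a b
    have : y - y' = (y - algebraMap K L c) - (y' - algebraMap K L c) := by ring
    rw [this]; exact Valuation.map_sub_lt _ a b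
  have f12 := (hD.coll hd hV hs hc h1 hB hcw e1 e2 (hyi _ c1) (hyi _ c2) h12 (hcl _ _ c1 c2)).2
  have f13 := (hD.coll hd hV hs hc h1 hB hcw e1 e3 (hyi _ c1) (hyi _ c3) h13 (hcl _ _ c1 c3)).2
  have hd2 : V ((hasseDeriv 2 (φ.map (algebraMap K L))).eval (algebraMap K L c)) = 1 := by
    rw [hasse_map, eval_map_algebraMap, aeval_algebraMap_apply_eq_algebraMap_eval]
    exact hV _ hD.two
  refine three_roots hint hci hd2 c1 c2 c3 h12 h13 h23 ?_ ?_
  · rw [← ph_eq_eval_map, ← ph_eq_eval_map]; exact f12
  · rw [← ph_eq_eval_map, ← ph_eq_eval_map]; exact f13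

end

end Pool.Agent.Arb2
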