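import Pool.Agent.Arb2.Tower

/-!
# Transpositions in a large Galois group
-/

set_option autoImplicit false

open Polynomial NumberField IsDedekindDomain
open scoped WithZero

namespace Pool.Agent.Arb2

open Pool.Agent.TameArb

theorem swapL {K M L : Type} [Field K] [CharZero K] [Field M] [NumberField M] [Field L]
    [NumberField L] [Algebra K M] [Algebra K L] [Algebra M L] [IsScalarTower K M L]
    [IsGalois M L] {φ : K[X]} {c : K} {B : ℕ} {D : Finset K}
    (hD : DD φ c B D) (hd : 2 ≤ φ.natDegree) (hs : (derivative φ).Splits)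
    (hc : (derivative φ).eval c = 0) {h : ℕ} (h1 : 1 ≤ h) (hB : h ≤ B) (w : M)
    (hsplit : ((itp φ h).map (algebraMap K L) - C (algebraMap M L w)).Splits)
    (hcw : (ph φ)^[h] (algebraMap K M c) ≠ w)
    (v : HeightOneSpectrum (𝓞 M)) (hv : Un D v) (hvw : v.valuation M w ≤ 1)
    (hodd : ¬ ∃ m : ℤ, v.valuation M ((ph φ)^[h] (algebraMap K M c) - w) =
      WithZero.exp (2 * m)) :
    ∃ (σ : L ≃ₐ[M] L) (y1 y2 : L), (ph φ)^[h] y1 = algebraMap M L w ∧
      (ph φ)^[h] y2 = algebraMap M L w ∧ y1 ≠ y2 ∧ ph φ y1 = ph φ y2 ∧ σ y1 = y2 ∧ σ y2 = y1 ∧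
      ∀ z, (ph φ)^[h] z = algebraMap M L w → z ≠ y1 → z ≠ y2 → σ z = z := by
  classical
  set P : M[X] := (itp φ h).map (algebraMap K M) - C w with hP
  have hPL : P.map (algebraMap M L) = (itp φ h).map (algebraMap K L) - C (algebraMap M L w) := by
    rw [hP, Polynomial.map_sub, map_C, map_map, ← IsScalarTower.algebraMap_eq]
  have hPs : (P.map (algebraMap M L)).Splits := by rw [hPL]; exact hsplit
  have hP0 : P ≠ 0 := by
    intro h0
    have h2 : P.natDegree = φ.natDegree ^ h := by
      rw [hP, natDegree_sub_C, natDegree_map, itp_natDegree]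
    rw [h0, natDegree_zero] at h2
    have : 0 < φ.natDegree ^ h := pow_pos (by omega) _
    omega
  let E : IntermediateField M L := IntermediateField.adjoin M (P.rootSet L)
  have hsf : P.IsSplittingField M E := IntermediateField.adjoin_rootSet_isSplittingField hPs
  have hnor : Normal M E := Normal.of_isSplittingField P
  have hgal : IsGalois M E := ⟨⟩
  have hfd : FiniteDimensional M E := IsSplittingField.finiteDimensional E P
  have hnf : NumberField E := NumberField.of_module_finite M E
  have htow : IsScalarTower K E L := IsScalarTower.of_algebraMap_eq (fun x => rfl)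
  obtain ⟨T, -, hT⟩ := exists_fibre φ hd h (algebraMap M E w)
  have hPE : P.map (algebraMap M E) = (itp φ h).map (algebraMap K E) - C (algebraMap M E w) := by
    rw [hP, Polynomial.map_sub, map_C, map_map, ← IsScalarTower.algebraMap_eq]
  have hae : ∀ y : E, aeval y P = (ph φ)^[h] y - algebraMap M E w := by
    intro y
    rw [hP, map_sub, aeval_C, aeval_map_algebraMap, itp_aeval]
  have hsplE : ((itp φ h).map (algebraMap K E) - C (algebraMap M E w)).Splits := by
    rw [← hPE]; exact IsSplittingField.splits E P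
  have hgen : ∀ σ : E ≃ₐ[M] E, (∀ y ∈ T, σ y = y) → σ = 1 := by
    intro σ hσ
    have h2 : (σ : E →ₐ[M] E) = ((1 : E ≃ₐ[M] E) : E →ₐ[M] E) := by
      apply AlgHom.ext_of_adjoin_eq_top (IsSplittingField.adjoin_rootSet E P)
      intro y hy
      have h3 : aeval y P = 0 := (mem_rootSet.mp hy).2
      rw [hae, sub_eq_zero] at h3
      exact hσ y ((hT y).mpr h3)
    ext y
    exact congrArg Subtype.val (congrArg (fun f : E →ₐ[M] E => f y) h2)
  obtain ⟨σ, y1, hy1, y2, hy2, hne, hφ, hs1, hs2, hrest⟩ := swap hD hd hs hc h1 hB w T hT hsplE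
    hgen hcw v hv hvw hodd
  have hnorL : Normal M L := inferInstance
  obtain ⟨τ, hτ⟩ := AlgEquiv.restrictNormalHom_surjective (F := M) (K₁ := E) L σ
  have hτc : ∀ y : E, τ (algebraMap E L y) = algebraMap E L (σ y) := by
    intro y
    rw [← hτ]
    exact (AlgEquiv.restrictNormal_commutes τ E y).symm
  have hit : ∀ (n : ℕ) (y : E), algebraMap E L ((ph φ)^[n] y) = (ph φ)^[n] (algebraMap E L y) :=
    fun n y => iter_hom φ (IsScalarTower.toAlgHom K E L) n y
  have hwL : algebraMap E L (algebraMap M E w) = algebraMap M L w :=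
    (IsScalarTower.algebraMap_apply M E L w).symm
  have hinj := (algebraMap E L).injective
  refine ⟨τ, algebraMap E L y1, algebraMap E L y2, ?_, ?_, fun h2 => hne (hinj h2), ?_, ?_, ?_, ?_⟩
  · rw [← hit, (hT y1).mp hy1, hwL]
  · rw [← hit, (hT y2).mp hy2, hwL]
  · have h2 := hit 1 y1
    have h3 := hit 1 y2
    rw [Function.iterate_one, Function.iterate_one] at h2 h3
    rw [← h2, ← h3, hφ]
  · rw [hτc, hs1]
  · rw [hτc, hs2]
  · intro z hz hz1 hz2
    have hzE : z ∈ E := by
      apply IntermediateField.subset_adjoin M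
      rw [mem_rootSet]
      refine ⟨hP0, ?_⟩
      rw [hP, map_sub, aeval_C, aeval_map_algebraMap, itp_aeval, hz, sub_self]
    obtain ⟨z', rfl⟩ : ∃ z' : E, algebraMap E L z' = z := ⟨⟨z, hzE⟩, rfl⟩
    have hz' : z' ∈ T := by
      rw [hT]
      apply hinj
      rw [hit, hz, hwL]
    rw [hτc, hrest z' hz' (fun h2 => hz1 (by rw [h2])) (fun h2 => hz2 (by rw [h2]))]

end Pool.Agent.Arb2
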