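import Pool.Agent.Arb2.EvStab

/-!
# Points whose residue class is totally invariant are eventually stable
-/

set_option autoImplicit false

open Polynomial NumberField IsDedekindDomain Module
open scoped WithZero

namespace Pool.Agent.Arb2

open Pool.Agent.TameArb

/-- the elementary growth lemma -/
theorem growD (D e : ℕ) (hD : 2 ≤ D) (he : 0 < e) (N : ℕ) (c : ℕ → ℕ) (h0 : 1 ≤ c 0)
    (hc : ∀ t < N, min (e + c t) (D * c t) ≤ c (t + 1)) : D ^ N ≤ e * D ^ (c N / e) := by
  let g : ℕ → ℕ := fun a => if a < e then a else e * D ^ (a / e)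
  have hg1 : ∀ a, D * g a ≤ g (min (e + a) (D * a)) := by
    intro a
    by_cases h : a < e
    · by_cases h2 : D * a < e
      · have h3 : min (e + a) (D * a) = D * a := min_eq_right (by omega)
        rw [h3]
        simp only [g, if_pos h, if_pos h2]
        exact le_rfl
      · have h3 : e ≤ min (e + a) (D * a) := le_min (by omega) (by omega)
        have h4 : 1 ≤ min (e + a) (D * a) / e := (Nat.one_le_div_iff he).mpr h3
        simp only [g, if_pos h, if_neg (not_lt.mpr h3)]
        calc D * a ≤ D * e := Nat.mul_le_mul_left _ h.le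
          _ = e * D ^ 1 := by ring
          _ ≤ _ := Nat.mul_le_mul_left _ (Nat.pow_le_pow_right (by omega) h4)
    · have h1 : min (e + a) (D * a) = e + a := by
        apply min_eq_left
        have : 2 * a ≤ D * a := Nat.mul_le_mul_right _ hD
        omega
      rw [h1]
      have h2 : ¬ (e + a < e) := by omega
      simp only [g, if_neg h, if_neg h2]
      rw [Nat.add_comm e a, Nat.add_div_right _ he, pow_succ]
      exact le_of_eq (by ring)
  have hg2 : ∀ a b, a ≤ b → g a ≤ g b := by
    intro a b hab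
    by_cases h : a < e
    · by_cases h2 : b < e
      · simp only [g, if_pos h, if_pos h2]
        exact hab
      · simp only [g, if_pos h, if_neg h2]
        calc a ≤ e := h.le
          _ = e * 1 := (mul_one e).symm
          _ ≤ e * D ^ (b / e) := Nat.mul_le_mul_left _ (Nat.one_le_pow _ _ (by omega))
    · have h2 : ¬ b < e := by omega
      simp only [g, if_neg h, if_neg h2]
      exact Nat.mul_le_mul_left _ (Nat.pow_le_pow_right (by omega) (Nat.div_le_div_right hab))
  have key : ∀ t ≤ N, D ^ t ≤ g (c t) := by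
    intro t
    induction t with
    | zero =>
      intro _
      have := hg2 1 (c 0) h0
      refine le_trans ?_ this
      by_cases h : 1 < e
      · simp only [g, if_pos h]; norm_num
      · have : e = 1 := by omega
        subst this
        simp only [g, if_neg h, pow_zero, one_mul]
        exact Nat.one_le_pow _ _ (by omega)
    | succ t ih =>
      intro ht
      have h1 := ih (by omega)
      have h2 := hg1 (c t)
      have h3 := hg2 _ _ (hc t (by omega))
      calc D ^ (t + 1) = D * D ^ t := by ring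
        _ ≤ D * g (c t) := Nat.mul_le_mul_left _ h1
        _ ≤ _ := h2.trans h3
  refine (key N le_rfl).trans ?_
  by_cases h : c N < e
  · simp only [g, if_pos h]
    calc c N ≤ e := h.le
      _ = e * 1 := (mul_one e).symm
      _ ≤ e * D ^ (c N / e) := Nat.mul_le_mul_left _ (Nat.one_le_pow _ _ (by omega))
  · simp only [g, if_neg h]
    exact le_rfl

theorem lt_one_le_exp {x : ℤᵐ⁰} (hx : x < 1) : x ≤ WithZero.exp (-1 : ℤ) := by
  by_cases h0 : x = 0
  · rw [h0]; exact zero_le
  · rw [← WithZero.exp_log h0] at hx ⊢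
    rw [← WithZero.exp_zero, WithZero.exp_lt_exp] at hx
    rw [WithZero.exp_le_exp]
    omega

section

variable {L : Type*} [Field L] {V : Valuation L ℤᵐ⁰}

/-- The increment of a polynomial with a totally ramified reduction. -/
theorem incr_le {T : L[X]} {D : ℕ} (hTd : T.natDegree ≤ D) {r : ℤᵐ⁰}
    (hT : ∀ k, 0 < k → k < D → V (T.coeff k) ≤ r) (hTD : V (T.coeff D) ≤ 1) {δ : L}
    (hδ : V δ ≤ 1) : V (T.eval δ - T.coeff 0) ≤ max (r * V δ) (V δ ^ D) := by
  have h1 : T.eval δ - T.coeff 0 = ∑ k ∈ Finset.range D, T.coeff (k + 1) * δ ^ (k + 1) := by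
    rw [eval_eq_sum_range' (Nat.lt_succ_of_le hTd), Finset.sum_range_succ']
    simp
  rw [h1]
  apply Valuation.map_sum_le
  intro k hk
  rw [Finset.mem_range] at hk
  rw [map_mul, map_pow]
  rcases Nat.lt_or_ge (k + 1) D with h2 | h2
  · refine le_trans ?_ (le_max_left _ _)
    refine mul_le_mul' (hT (k + 1) (by omega) h2) ?_
    rw [pow_succ]
    exact mul_le_of_le_one_left' (pow_le_one' hδ k)
  · have h3 : k + 1 = D := by omega
    refine le_trans ?_ (le_max_right _ _)
    rw [h3]
    exact mul_le_of_le_one_left' hTD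

theorem incr_eq_one {T : L[X]} {D : ℕ} (hD : 0 < D) (hTd : T.natDegree ≤ D)
    (hT : ∀ k, 0 < k → k < D → V (T.coeff k) < 1) (hTD : V (T.coeff D) = 1) {δ : L}
    (hδ : V δ = 1) : V (T.eval δ - T.coeff 0) = 1 := by
  obtain ⟨D, rfl⟩ : ∃ D', D = D' + 1 := ⟨D - 1, by omega⟩
  have h1 : T.eval δ - T.coeff 0 = ∑ k ∈ Finset.range (D + 1), T.coeff (k + 1) * δ ^ (k + 1) := by
    rw [eval_eq_sum_range' (Nat.lt_succ_of_le hTd), Finset.sum_range_succ']
    simp
  have h2 : V (T.coeff (D + 1) * δ ^ (D + 1)) = 1 := by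
    rw [map_mul, map_pow, hTD, hδ, one_pow, mul_one]
  rw [h1, Finset.sum_range_succ, Valuation.map_add_eq_of_lt_right, h2]
  rw [h2]
  have key : ∀ s : Finset ℕ, (∀ k ∈ s, k < D) →
      V (∑ k ∈ s, T.coeff (k + 1) * δ ^ (k + 1)) < 1 := by
    intro s
    classical
    induction s using Finset.induction_on with
    | empty => intro _; simp
    | insert a s has ih =>
      intro hs
      rw [Finset.sum_insert has]
      apply Valuation.map_add_lt
      · rw [map_mul, map_pow, hδ, one_pow, mul_one]
        exact hT (a + 1) (by omega) (by have := hs a (Finset.mem_insert_self _ _); omega)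
      · exact ih fun k hk => hs k (Finset.mem_insert_of_mem hk)
  exact key _ fun k hk => Finset.mem_range.mp hk

end

/-- **Totally invariant residue classes.** -/
theorem grow_of_totInv {K : Type} [Field K] [NumberField K] {φ : K[X]} (hd : 2 ≤ φ.natDegree)
    {γ : K} (v : HeightOneSpectrum (𝓞 K)) (hv : Good (v.valuation K) φ)
    (hγ : v.valuation K γ ≤ 1) (m : ℕ) (hm : 0 < m)
    (hTI : ∀ k, 0 < k → k < φ.natDegree ^ m →
      v.valuation K ((hasseDeriv k (itp φ m)).eval γ) < 1)
    (hper : v.valuation K ((ph φ)^[m] γ - γ) < 1) (hne : (ph φ)^[m] γ ≠ γ) :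
    ∃ A, Grow φ γ A := by
  set D := φ.natDegree ^ m with hDdef
  have hD2 : 2 ≤ D := by
    calc 2 ≤ φ.natDegree := hd
      _ = φ.natDegree ^ 1 := (pow_one _).symm
      _ ≤ D := Nat.pow_le_pow_right (by omega) hm
  set κ := γ - (ph φ)^[m] γ with hκ
  have hκ0 : κ ≠ 0 := sub_ne_zero.mpr hne.symm
  have hvκ : v.valuation K κ < 1 := by
    rw [hκ, Valuation.map_sub_swap]; exact hper
  have hvκ0 : v.valuation K κ ≠ 0 := (Valuation.ne_zero_iff _).mpr hκ0
  set s := (-WithZero.log (v.valuation K κ)).toNat with hs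
  have hspos : 0 < -WithZero.log (v.valuation K κ) := by
    have h1 := hvκ
    rw [← WithZero.exp_log hvκ0, ← WithZero.exp_zero, WithZero.exp_lt_exp] at h1
    omega
  refine ⟨D ^ s * D, grow_of_fields ?_⟩
  intro E _ _ _ x0 n0 hx0
  obtain ⟨W, e, he0, he, hval⟩ := Pool.Agent.Arb.exists_above v E
  have ho : Over (v.valuation K) (W.valuation E) e := ⟨he0.ne', hval⟩
  set V := W.valuation E with hV
  -- reduce to multiples of `m`
  set N := n0 / m with hN
  set r := n0 % m with hr
  have hn0 : n0 = m * N + r := (Nat.div_add_mod n0 m).symm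
  have hrm : r < m := Nat.mod_lt _ hm
  set x := (ph φ)^[r] x0 with hx
  have hxN : (ph φ)^[m * N] x = algebraMap K E γ := by
    rw [hx, ← Function.iterate_add_apply, ← hn0, hx0]
  set γE := algebraMap K E γ with hγE
  have hγi : V γE ≤ 1 := ho.le_one.mpr hγ
  set ψ : E[X] := (itp φ m).map (algebraMap K E) with hψ
  have hψe : ∀ y : E, ψ.eval y = (ph φ)^[m] y := by
    intro y
    rw [hψ, eval_map_algebraMap, itp_aeval]
  set T := taylor γE ψ with hT
  have hTd : T.natDegree ≤ D := by
    rw [hT, natDegree_taylor, hψ, natDegree_map, itp_natDegree]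
  have hTc : ∀ k, T.coeff k = algebraMap K E ((hasseDeriv k (itp φ m)).eval γ) := by
    intro k
    rw [hT, taylor_coeff, hψ, hasse_map, eval_map_algebraMap, hγE,
      aeval_algebraMap_apply_eq_algebraMap_eval]
  have hTI' : ∀ k, 0 < k → k < D → V (T.coeff k) < 1 := by
    intro k h1 h2
    rw [hTc]
    exact ho.lt_one.mpr (hTI k h1 h2)
  have hTI2 : ∀ k, 0 < k → k < D → V (T.coeff k) ≤ WithZero.exp (-(e : ℤ)) := by
    intro k h1 h2
    rw [hTc, ← hval]
    have h3 := lt_one_le_exp (hTI k h1 h2)
    have h4 := pow_le_pow_left₀ zero_le h3 e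
    refine h4.trans (le_of_eq ?_)
    rw [← WithZero.exp_nsmul]
    congr 1
    simp
  have hTD : V (T.coeff D) = 1 := by
    have h1 : T.coeff D = algebraMap K E (itp φ m).leadingCoeff := by
      rw [hTc]
      congr 1
      rw [hDdef, ← itp_natDegree φ m, hasseDeriv_natDegree_eq_C, eval_C]
    rw [h1, ho.eq_one]
    exact itp_lead hv hd m
  -- the sequence
  set y : ℕ → E := fun i => (ph φ)^[m * i] x with hy
  have hyN : y N = γE := hxN
  have hy0 : y 0 = x := by simp [hy]
  have hys : ∀ i, y (i + 1) = ψ.eval (y i) := by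
    intro i
    rw [hψe]
    simp only [hy]
    rw [show m * (i + 1) = m + m * i by ring, Function.iterate_add_apply]
  have hyi : ∀ i ≤ N, V (y i) ≤ 1 := by
    intro i hi
    apply ho.le_of_iter hv hd (n := m * (N - i))
    have h1 : (ph φ)^[m * (N - i)] (y i) = γE := by
      simp only [hy]
      rw [← Function.iterate_add_apply (ph φ) (m * (N - i)) (m * i) x,
        show m * (N - i) + m * i = m * N by rw [← Nat.mul_add, Nat.sub_add_cancel hi]]
      exact hxN
    rw [h1]
    exact hγi
  have hTe : ∀ i, T.eval (y i - γE) = y (i + 1) := by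
    intro i
    rw [hT, taylor_eval, sub_add_cancel, ← hys]
  have hT0 : T.coeff 0 = (ph φ)^[m] γE := by
    rw [hT, taylor_coeff_zero, hψe]
  set κE := algebraMap K E κ with hκE
  have hκE' : κE = γE - (ph φ)^[m] γE := by
    rw [hκE, hκ, map_sub, iter_algebraMap]
  have hVκ : V κE < 1 := ho.lt_one.mpr hvκ
  have hVκ0 : V κE ≠ 0 := by
    rw [Valuation.ne_zero_iff]
    exact (_root_.map_ne_zero _).mpr hκ0
  have hdiff : ∀ i, T.eval (y i - γE) - T.coeff 0 = (y (i + 1) - γE) + κE := by
    intro i
    rw [hTe, hT0, hκE']; ring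
  -- closeness
  have hclose : ∀ j ≤ N, V (y (N - j) - γE) < 1 := by
    intro j
    induction j with
    | zero => intro _; rw [Nat.sub_zero, hyN, sub_self, map_zero]; exact zero_lt_one
    | succ j ih =>
      intro hj
      have h1 := ih (by omega)
      have h2 := hdiff (N - (j + 1))
      rw [show N - (j + 1) + 1 = N - j by omega] at h2
      have h3 : V (y (N - (j + 1)) - γE) ≤ 1 := Valuation.map_sub_le _ (hyi _ (by omega)) hγi
      refine lt_of_le_of_ne h3 fun h4 => ?_
      have h5 := incr_eq_one (by omega) hTd hTI' hTD h4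
      rw [h2] at h5
      exact absurd (Valuation.map_add_lt _ h1 hVκ) (by rw [h5]; exact lt_irrefl _)
  have hclose' : ∀ i ≤ N, V (y i - γE) < 1 := by
    intro i hi
    have h1 := hclose (N - i) (by omega)
    rwa [show N - (N - i) = i by omega] at h1
  -- the differences are larger than `κ`
  have hexp1 : WithZero.exp (-(e : ℤ)) < 1 := by
    rw [← WithZero.exp_zero, WithZero.exp_lt_exp]; omega
  have hinc : ∀ i, V (y i - γE) < 1 → V ((y (i + 1) - γE) + κE) ≠ 0 →
      V ((y (i + 1) - γE) + κE) ≤ max (WithZero.exp (-(e : ℤ)) * V (y i - γE))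
        (V (y i - γE) ^ D) ∧ V ((y (i + 1) - γE) + κE) < V (y i - γE) := by
    intro i h1 h2
    have h3 := incr_le hTd hTI2 hTD.le h1.le
    rw [hdiff] at h3
    refine ⟨h3, h3.trans_lt ?_⟩
    have h4 : V (y i - γE) ≠ 0 := by
      intro h4
      rw [h4, mul_zero, zero_pow (by omega), max_self] at h3
      exact h2 (le_antisymm h3 zero_le)
    have h5 : 0 < V (y i - γE) := zero_lt_iff.mpr h4
    refine max_lt ?_ ?_
    · exact mul_lt_of_lt_one_left h5 hexp1
    · calc V (y i - γE) ^ D ≤ V (y i - γE) ^ 2 := pow_le_pow_right_of_le_one' h1.le hD2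
        _ = V (y i - γE) * V (y i - γE) := sq _
        _ < V (y i - γE) := mul_lt_of_lt_one_left h5 h1
  have hbig : ∀ j < N, V κE < V (y (N - (j + 1)) - γE) := by
    intro j
    induction j with
    | zero =>
      intro hj
      have h1 := hinc (N - 1) (hclose' _ (by omega)) (by
        rw [show N - 1 + 1 = N by omega, hyN, sub_self, zero_add]; exact hVκ0)
      rw [show N - 1 + 1 = N by omega, hyN, sub_self, zero_add] at h1
      exact h1.2
    | succ j ih =>
      intro hj
      have h1 := ih (by omega)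
      have h2 : V ((y (N - (j + 1)) - γE) + κE) = V (y (N - (j + 1)) - γE) :=
        Valuation.map_add_eq_of_lt_left _ h1
      have h3 := hinc (N - (j + 1 + 1)) (hclose' _ (by omega)) (by
        rw [show N - (j + 1 + 1) + 1 = N - (j + 1) by omega, h2]
        exact (lt_of_le_of_lt zero_le h1).ne')
      rw [show N - (j + 1 + 1) + 1 = N - (j + 1) by omega, h2] at h3
      exact h1.trans h3.2
  have hbig' : ∀ i < N, V κE < V (y i - γE) := by
    intro i hi
    have h1 := hbig (N - (i + 1)) (by omega)
    rwa [show N - (N - (i + 1) + 1) = i by omega] at h1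
  -- the logarithms
  set c : ℕ → ℕ := fun i => if i < N then (-WithZero.log (V (y i - γE))).toNat else e * s with hc
  have hlog : ∀ i < N, 0 < -WithZero.log (V (y i - γE)) := by
    intro i hi
    have h0 : V (y i - γE) ≠ 0 := (lt_of_le_of_lt zero_le (hbig' i hi)).ne'
    have h1 := hclose' i hi.le
    rw [← WithZero.exp_log h0, ← WithZero.exp_zero, WithZero.exp_lt_exp] at h1
    omega
  have hVκs : V κE = WithZero.exp (-((e * s : ℕ) : ℤ)) := by
    rw [hκE, ← hval, ← WithZero.exp_log hvκ0, ← WithZero.exp_nsmul]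
    congr 1
    rw [Nat.cast_mul, hs, Int.toNat_of_nonneg hspos.le]
    simp
  have hstep : ∀ t < N, min (e + c t) (D * c t) ≤ c (t + 1) := by
    intro t ht
    have h0 : V (y t - γE) ≠ 0 := (lt_of_le_of_lt zero_le (hbig' t ht)).ne'
    have hct : V (y t - γE) = WithZero.exp (-((c t : ℕ) : ℤ)) := by
      simp only [hc, if_pos ht]
      rw [Int.toNat_of_nonneg (hlog t ht).le, neg_neg, WithZero.exp_log h0]
    have hcs : V ((y (t + 1) - γE) + κE) = WithZero.exp (-((c (t + 1) : ℕ) : ℤ)) := by
      by_cases h1 : t + 1 < N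
      · have h2 : V (y (t + 1) - γE) ≠ 0 := (lt_of_le_of_lt zero_le (hbig' _ h1)).ne'
        rw [Valuation.map_add_eq_of_lt_left _ (hbig' _ h1)]
        simp only [hc, if_pos h1]
        rw [Int.toNat_of_nonneg (hlog _ h1).le, neg_neg, WithZero.exp_log h2]
      · have h2 : t + 1 = N := by omega
        simp only [hc, if_neg h1]
        rw [h2, hyN, sub_self, zero_add, hVκs]
    have h3 := (hinc t (hclose' t ht.le) (by rw [hcs]; exact WithZero.exp_ne_zero)).1
    rw [hcs, hct, ← WithZero.exp_add, ← WithZero.exp_nsmul] at h3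
    rcases le_max_iff.mp h3 with h4 | h4
    · rw [WithZero.exp_le_exp] at h4
      refine (min_le_left _ _).trans ?_
      omega
    · rw [WithZero.exp_le_exp] at h4
      refine (min_le_right _ _).trans ?_
      have h5 : ((D * c t : ℕ) : ℤ) ≤ c (t + 1) := by
        push_cast
        simp only [nsmul_eq_mul] at h4
        linarith
      exact_mod_cast h5
  have hfinal : D ^ N ≤ e * D ^ s := by
    rcases Nat.eq_zero_or_pos N with h0 | h0
    · rw [h0, pow_zero]
      exact Nat.mul_pos he0 (pow_pos (by omega) _)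
    · have h1 := growD D e hD2 he0 N c (by
        simp only [hc, if_pos h0]
        have := hlog 0 h0
        omega) hstep
      have h2 : c N = e * s := by
        simp only [hc, if_neg (lt_irrefl N)]
      rw [h2, Nat.mul_div_cancel_left _ he0] at h1
      exact h1
  calc φ.natDegree ^ n0 = φ.natDegree ^ (m * N) * φ.natDegree ^ r := by
        rw [← pow_add, ← hn0]
    _ ≤ D ^ N * D := by
        rw [pow_mul, ← hDdef]
        exact Nat.mul_le_mul_left _ (Nat.pow_le_pow_right (by omega) hrm.le)
    _ ≤ (e * D ^ s) * D := Nat.mul_le_mul_right _ hfinal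
    _ ≤ (finrank K E * D ^ s) * D := Nat.mul_le_mul_right _ (Nat.mul_le_mul_right _ he)
    _ = D ^ s * D * finrank K E := by ring

end Pool.Agent.Arb2
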