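import Pool.Agent.Arb2.Stab

/-!
# Norms and degrees in towers
-/

set_option autoImplicit false

open Polynomial Module

namespace Pool.Agent.Arb2

open Pool.Agent.TameArb

/-- the norm of `a - w` -/
theorem norm_sub {F M : Type} [Field F] [Field M] [Algebra F M] [FiniteDimensional F M] (w : M)
    (P : F[X]) (hP0 : P ≠ 0) (hPw : aeval w P = 0) (hPd : P.natDegree = finrank F M)
    (hmd : (minpoly F w).natDegree = finrank F M) (a : F) :
    P.eval a = P.leadingCoeff * Algebra.norm F (algebraMap F M a - w) := by
  have hint : IsIntegral F w := Algebra.IsIntegral.isIntegral w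
  set χ := (Algebra.lmul F M w).charpoly with hχ
  have hχm : χ.Monic := LinearMap.charpoly_monic _
  have hχd : χ.natDegree = finrank F M := LinearMap.charpoly_natDegree _
  have hχ0 : aeval w χ = 0 := by
    have h1 := LinearMap.aeval_self_charpoly (Algebra.lmul F M w)
    rw [← hχ, aeval_algHom_apply] at h1
    have h2 := congrArg (fun f : M →ₗ[F] M => f 1) h1
    simpa using h2
  have h1 : χ = minpoly F w := by
    refine (eq_of_monic_of_dvd_of_natDegree_le (minpoly.monic hint) hχm (minpoly.dvd F w hχ0)
      ?_)
    rw [hχd, hmd]
  obtain ⟨q, hq⟩ := minpoly.dvd F w hPw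
  have hq0 : q ≠ 0 := by
    rintro rfl
    rw [mul_zero] at hq
    exact hP0 hq
  have hqd : q.natDegree = 0 := by
    have h2 := congrArg natDegree hq
    rw [natDegree_mul (minpoly.ne_zero hint) hq0, hPd, hmd] at h2
    omega
  have hqc : q = C P.leadingCoeff := by
    have h2 : q = C (q.coeff 0) := eq_C_of_natDegree_eq_zero hqd
    have h3 := congrArg leadingCoeff hq
    rw [leadingCoeff_mul, (minpoly.monic hint).leadingCoeff, one_mul] at h3
    rw [h3, h2, leadingCoeff_C]
  have h2 : χ.eval a = Algebra.norm F (algebraMap F M a - w) := by
    rw [hχ, LinearMap.eval_charpoly, Algebra.norm_apply]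
    congr 1
    ext x
    simp [Algebra.smul_def]
  rw [← h2, h1]
  conv_lhs => rw [hq, hqc, eval_mul, eval_C]
  ring

/-- degrees over a smaller field -/
theorem natDegree_minpoly_le {A B L : Type} [Field A] [Field B] [Field L] [Algebra A B]
    [Algebra A L] [Algebra B L] [IsScalarTower A B L] [FiniteDimensional A B] {x : L}
    (hx : IsIntegral A x) :
    (minpoly A x).natDegree ≤ finrank A B * (minpoly B x).natDegree := by
  have hxB : IsIntegral B x := hx.tower_top
  have h1 : finrank A (IntermediateField.adjoin A {x}) = (minpoly A x).natDegree :=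
    IntermediateField.adjoin.finrank hx
  have h2 : finrank B (IntermediateField.adjoin B {x}) = (minpoly B x).natDegree :=
    IntermediateField.adjoin.finrank hxB
  have hfB : FiniteDimensional B (IntermediateField.adjoin B {x}) :=
    IntermediateField.adjoin.finiteDimensional hxB
  have hfA : FiniteDimensional A (IntermediateField.adjoin B {x}) :=
    FiniteDimensional.trans A B _
  have h3 : finrank A (IntermediateField.adjoin B {x}) =
      finrank A B * finrank B (IntermediateField.adjoin B {x}) :=
    (finrank_mul_finrank A B _).symm
  rw [← h1, ← h2, ← h3]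
  have hle : ∀ y ∈ IntermediateField.adjoin A {x}, y ∈ IntermediateField.adjoin B {x} := by
    intro y hy
    have h4 : IntermediateField.adjoin A {x} ≤
        (IntermediateField.adjoin B {x}).restrictScalars A := by
      rw [IntermediateField.adjoin_le_iff]
      intro z hz
      exact IntermediateField.subset_adjoin B _ hz
    exact h4 hy
  let f : IntermediateField.adjoin A {x} →ₗ[A] IntermediateField.adjoin B {x} :=
    { toFun := fun y => ⟨y.1, hle y.1 y.2⟩
      map_add' := fun _ _ => rfl
      map_smul' := fun r y => by
        ext
        rfl }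
  apply LinearMap.finrank_le_finrank_of_injective (f := f)
  intro y z hyz
  have h5 := congrArg (fun t : IntermediateField.adjoin B {x} => (t : L)) hyz
  exact Subtype.ext h5

end Pool.Agent.Arb2
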