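import Pool.Agent.Arb2.Sparse
import Pool.Agent.Arb.Selmer
import Pool.Agent.TameArb.Down

/-!
# Windows of values with odd valuations
-/

set_option autoImplicit false

open IsDedekindDomain NumberField Polynomial
open scoped WithZero

namespace Pool.Agent.Arb2

open Pool.Agent.TameArb (itp itp_succ itp_natDegree itp_eval itp_aeval ph ph_eq_eval finite_lt
  finite_gt ph_eq_eval_map iter_algebraMap)
open Pool.Agent.Arb (selmer_finite)

section

variable {K : Type} [Field K]

/-- all elements of `D` are units at `v` -/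
def Un (D : Finset K) {M : Type} [Field M] [NumberField M] [Algebra K M]
    (v : HeightOneSpectrum (𝓞 M)) : Prop := ∀ a ∈ D, v.valuation M (algebraMap K M a) = 1

/-- all valuations outside `D` are even -/
def EvenOff (D : Finset K) {M : Type} [Field M] [NumberField M] [Algebra K M] (a : M) : Prop :=
  ∀ v : HeightOneSpectrum (𝓞 M), Un D v → ∃ m : ℤ, v.valuation M a = WithZero.exp (2 * m)

theorem finite_not_un (D : Finset K) (hD : ∀ a ∈ D, a ≠ 0) (M : Type) [Field M] [NumberField M]
    [Algebra K M] : {v : HeightOneSpectrum (𝓞 M) | ¬ Un D v}.Finite := by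
  refine (Set.Finite.biUnion (Finset.finite_toSet D) fun a ha => (finite_lt (algebraMap K M a)
    ?_).union (finite_gt (algebraMap K M a))).subset ?_
  · exact (_root_.map_ne_zero _).mpr (hD a ha)
  · intro v hv
    have hv' : ¬ Un D v := hv
    rw [Un] at hv'
    push Not at hv'
    obtain ⟨a, ha, h⟩ := hv'
    simp only [Set.mem_iUnion]
    refine ⟨a, ha, ?_⟩
    rcases lt_or_gt_of_ne h with h | h
    · exact Or.inl h
    · exact Or.inr (not_le.mpr h)

/-- a window with odd valuations -/
theorem window {F : Type} [Field F] [NumberField F] [Algebra K F] (φ : K[X])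
    (hd : 2 ≤ φ.natDegree) (c : K) (hc : Function.Injective fun n : ℕ => (ph φ)^[n] c)
    (D : Finset K) (hD : ∀ a ∈ D, a ≠ 0) (X : Finset F)
    (h1 : ∀ x ∈ X, ∀ n, 0 < n → (ph φ)^[n] x ≠ x)
    (h2 : ∀ x ∈ X, (φ.map (algebraMap K F) - C x).Separable) (B N0 : ℕ) :
    ∃ N ≥ N0, ∀ x ∈ X, ∀ h ∈ Finset.Icc 1 B,
      ¬ EvenOff D (algebraMap K F ((ph φ)^[N + h] c) - x) := by
  classical
  obtain ⟨R, hR0, hR⟩ := selmer_finite {v : HeightOneSpectrum (𝓞 F) | ¬ Un D v}
    (finite_not_un D hD F)
  -- the field containing all square roots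
  let Ω := AlgebraicClosure F
  choose s hs using fun y : Ω => IsAlgClosed.exists_pow_nat_eq y (n := 2) (by norm_num)
  let R' : Finset F := insert (algebraMap K F φ.leadingCoeff) R
  let M' : IntermediateField F Ω :=
    IntermediateField.adjoin F ((R'.image fun a => s (algebraMap F Ω a) : Finset Ω) : Set Ω)
  have hfd : FiniteDimensional F M' :=
    IntermediateField.finiteDimensional_adjoin fun x _ => Algebra.IsIntegral.isIntegral x
  have hnf : NumberField M' := NumberField.of_module_finite F _
  have hinjM : Function.Injective (algebraMap F M') := (algebraMap F M').injective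
  have hsqR : ∀ a ∈ R', IsSquare (algebraMap F M' a) := by
    intro a ha
    have hmem : s (algebraMap F Ω a) ∈ M' :=
      IntermediateField.subset_adjoin F _ (Finset.mem_coe.mpr (Finset.mem_image_of_mem _ ha))
    refine ⟨⟨_, hmem⟩, ?_⟩
    apply (algebraMap M' Ω).injective
    rw [← IsScalarTower.algebraMap_apply, map_mul]
    change algebraMap F Ω a = s (algebraMap F Ω a) * s (algebraMap F Ω a)
    rw [← sq, hs]
  have hsq : ∀ a : F, a ≠ 0 → EvenOff D a → IsSquare (algebraMap F M' a) := by
    intro a ha h
    obtain ⟨b, hb, hab⟩ := hR a ha (fun v hv => h v (not_not.mp hv))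
    have h3 : IsSquare (algebraMap F M' (a * b)) := hab.map _
    have h4 := hsqR b (Finset.mem_insert_of_mem hb)
    have h5 : algebraMap F M' b ≠ 0 := by
      simpa using hR0 b hb
    rw [map_mul] at h3
    have h6 : algebraMap F M' a = (algebraMap F M' a * algebraMap F M' b) *
        algebraMap F M' b / (algebraMap F M' b) ^ 2 := by
      field_simp
    rw [h6]
    exact (h3.mul h4).div (IsSquare.sq _)
  -- the data over the large field
  set ι : K →+* M' := (algebraMap F M').comp (algebraMap K F) with hι
  set ψ : (M')[X] := (φ.map (algebraMap K F)).map (algebraMap F M') with hψ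
  have hψd : ψ.natDegree = φ.natDegree := by rw [hψ, natDegree_map, natDegree_map]
  set z : ℕ → M' := fun n => algebraMap F M' (algebraMap K F ((ph φ)^[n] c)) with hz
  have hzs : ∀ n, z (n + 1) = ψ.eval (z n) := by
    intro n
    simp only [hz, hψ]
    rw [eval_map_algebraMap, aeval_algebraMap_apply, aeval_map_algebraMap,
      Function.iterate_succ_apply']
    congr 1
    rw [Pool.Agent.TameArb.ph_algebraMap]
    rfl
  have hzinj : Function.Injective z := by
    intro a b hab
    exact hc ((algebraMap K F).injective (hinjM hab))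
  have hlc : IsSquare ψ.leadingCoeff := by
    rw [hψ, leadingCoeff_map, leadingCoeff_map]
    exact hsqR _ (Finset.mem_insert_self _ _)
  have hitF : ∀ (n : ℕ) (x : F), (ph ψ)^[n] (algebraMap F M' x) =
      algebraMap F M' ((ph φ)^[n] x) := by
    intro n x
    induction n with
    | zero => rfl
    | succ n ih =>
      rw [Function.iterate_succ_apply', Function.iterate_succ_apply', ih, ph, ph, hψ,
        aeval_map_algebraMap, aeval_algebraMap_apply, aeval_map_algebraMap]
  -- sparse sets
  set J := X.card * (B + 1) with hJ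
  have hsp : ∀ x ∈ X, ∃ C : ℕ, ∀ W : ℕ, ∃ n0 : ℕ, ∀ n ≥ n0, ∀ I ⊆ Finset.Icc n (n + W),
      (∀ i ∈ I, IsSquare (z (i + 1) - algebraMap F M' x)) → (J + 1) * I.card ≤ C + W := by
    intro x hx
    apply sparse_squares (by rw [hψd]; exact hd) hzs hzinj hlc
    · intro n hn h
      rw [hitF] at h
      exact h1 x hx n hn (hinjM h)
    · have h3 := (h2 x hx).map (f := algebraMap F M')
      rwa [Polynomial.map_sub, map_C] at h3
  choose! C hC using hsp
  set m := ∑ x ∈ X, C x + 1 with hm
  set W := m * (B + 1) with hW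
  choose! n0 hn0 using fun x (hx : x ∈ X) => hC x hx W
  -- an index above which no value vanishes
  have hzero : ∃ N1 : ℕ, ∀ n ≥ N1, ∀ x ∈ X, algebraMap K F ((ph φ)^[n] c) - x ≠ 0 := by
    have hfin : {n : ℕ | algebraMap K F ((ph φ)^[n] c) ∈ X}.Finite := by
      have h3 : {n : ℕ | algebraMap K F ((ph φ)^[n] c) ∈ X} =
          (fun n => algebraMap K F ((ph φ)^[n] c)) ⁻¹' (X : Set F) := rfl
      rw [h3]
      exact Set.Finite.preimage (fun a _ b _ hab => hc ((algebraMap K F).injective hab))
        (Finset.finite_toSet _)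
    obtain ⟨N, hN⟩ := hfin.bddAbove
    refine ⟨N + 1, fun n hn x hx h => ?_⟩
    have h4 : n ≤ N := hN (by
      show algebraMap K F ((ph φ)^[n] c) ∈ X
      rw [sub_eq_zero.mp h]; exact hx)
    omega
  obtain ⟨N1, hN1⟩ := hzero
  let n := N0 + N1 + ∑ x ∈ X, n0 x
  have hn : ∀ x ∈ X, n0 x ≤ n := fun x hx =>
    (Finset.single_le_sum (f := n0) (fun _ _ => Nat.zero_le _) hx).trans (Nat.le_add_left _ _)
  by_contra hcon
  push Not at hcon
  -- every block contains a square
  have hblock : ∀ k : ℕ, ∃ x ∈ X, ∃ i : ℕ, n + k * (B + 1) ≤ i ∧ i < n + k * (B + 1) + B ∧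
      IsSquare (z (i + 1) - algebraMap F M' x) := by
    intro k
    obtain ⟨x, hx, h, hh, hev⟩ := hcon (n + k * (B + 1)) (by omega)
    have hB := Finset.mem_Icc.mp hh
    refine ⟨x, hx, n + k * (B + 1) + h - 1, by omega, by omega, ?_⟩
    have h7 := hsq _ (hN1 (n + k * (B + 1) + h) (by omega) x hx) hev
    rw [map_sub] at h7
    rw [show n + k * (B + 1) + h - 1 + 1 = n + k * (B + 1) + h by omega]
    exact h7
  choose xk hxk ik hik1 hik2 hiks using hblock
  -- counting
  have hcount : (J + 1) * (Finset.range m).card ≤ ∑ x ∈ X, (C x + W) := by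
    rw [Finset.card_eq_sum_card_fiberwise (f := xk) (t := X) (fun k _ => hxk k), Finset.mul_sum]
    refine Finset.sum_le_sum fun x hx => ?_
    let G := (Finset.range m).filter fun k => xk k = x
    have hinj : Set.InjOn ik G := by
      intro a _ b _ hab
      by_contra hne
      rcases lt_or_gt_of_ne hne with h | h
      · have := hik2 a
        have := hik1 b
        have : (a + 1) * (B + 1) ≤ b * (B + 1) := Nat.mul_le_mul_right _ h
        have e : (a + 1) * (B + 1) = a * (B + 1) + (B + 1) := by ring
        omega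
      · have := hik2 b
        have := hik1 a
        have : (b + 1) * (B + 1) ≤ a * (B + 1) := Nat.mul_le_mul_right _ h
        have e : (b + 1) * (B + 1) = b * (B + 1) + (B + 1) := by ring
        omega
    have h8 := hn0 x hx n (hn x hx) (G.image ik) (by
      intro i hi
      obtain ⟨k, hk, rfl⟩ := Finset.mem_image.mp hi
      have hk' := Finset.mem_range.mp (Finset.mem_filter.mp hk).1
      have h1k := hik1 k
      have h2k := hik2 k
      have h3k : (k + 1) * (B + 1) ≤ W := Nat.mul_le_mul_right _ (by omega)
      have e : (k + 1) * (B + 1) = k * (B + 1) + (B + 1) := by ring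
      exact Finset.mem_Icc.mpr ⟨by omega, by omega⟩) (by
      intro i hi
      obtain ⟨k, hk, rfl⟩ := Finset.mem_image.mp hi
      have := hiks k
      rwa [(Finset.mem_filter.mp hk).2] at this)
    rwa [Finset.card_image_of_injOn hinj] at h8
  rw [Finset.card_range, Finset.sum_add_distrib, Finset.sum_const, smul_eq_mul] at hcount
  have h9 : (J + 1) * m = X.card * W + m := by rw [hJ, hW]; ring
  rw [h9] at hcount
  omega

end

end Pool.Agent.Arb2
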